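import Mathlib

set_option autoImplicit false

namespace Pool.H611.BS
open MeasureTheory
noncomputable section

/-- truncated power -/
def tp (m : ℕ) (y : ℝ) : ℝ := if 0 < y then y ^ m else 0

/-- `∑ w_i (x_i - s)_+^m` -/
def FF {n : ℕ} (w x : Fin n → ℝ) (m : ℕ) (s : ℝ) : ℝ := ∑ i, w i * tp m (x i - s)

/-- `F` takes strictly alternating signs at `k` increasing points. -/
def Alt (F : ℝ → ℝ) (k : ℕ) (ε : ℝ) : Prop :=
  ∃ y : ℕ → ℝ, (∀ i, i + 1 < k → y i < y (i + 1)) ∧ ∀ i < k, 0 < ε * (-1) ^ i * F (y i)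


end
end Pool.H611.BS
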