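import Mathlib
import Pool.Agent.Helper611.BS.Def

set_option autoImplicit false

namespace Pool.H611.BS
open MeasureTheory
noncomputable section



lemma alt_zero {n : ℕ} (w x : Fin n → ℝ) (hw : ∑ i, w i = 0) (k : ℕ) (hk : 1 ≤ k) (ε : ℝ)
    (h : Alt (FF w x 0) k ε) : k + 1 ≤ n := by
  obtain ⟨y, hy, ha⟩ := h
  have hF : ∀ s, FF w x 0 s = ∑ i, if s < x i then w i else 0 := by
    intro s
    unfold FF tp
    refine Finset.sum_congr rfl (fun i _ => ?_)
    by_cases h1 : s < x i
    · rw [if_pos (by linarith), if_pos h1, pow_zero, mul_one]
    · rw [if_neg (by linarith), if_neg h1, mul_zero]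
  have hmono : ∀ j, j < k → ∀ i, i ≤ j → y i ≤ y j := by
    intro j
    induction j with
    | zero =>
      intro _ i hi
      have : i = 0 := by omega
      rw [this]
    | succ j ih =>
      intro hj i hi
      rcases Nat.lt_or_ge i (j + 1) with h1 | h1
      · exact (ih (by omega) i (by omega)).trans (hy j hj).le
      · have : i = j + 1 := by omega
        rw [this]
  have hex : ∀ i, i ≤ k → ∃ c : Fin n, (i < k → x c ≤ y i) ∧ (1 ≤ i → y (i - 1) < x c) := by
    intro i hi
    rcases Nat.eq_zero_or_pos i with h0 | h0
    · subst h0
      by_contra hcon
      push Not at hcon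
      have h1 : ∀ c : Fin n, y 0 < x c := by
        intro c
        by_contra h2
        have := hcon c (fun _ => not_lt.1 h2)
        omega
      have h3 := ha 0 (by omega)
      rw [hF, Finset.sum_congr rfl (fun c _ => if_pos (h1 c)), hw] at h3
      simp at h3
    · rcases Nat.lt_or_ge i k with h1 | h1
      · by_contra hcon
        push Not at hcon
        have h2 : ∀ c : Fin n, (y (i - 1) < x c ↔ y i < x c) := by
          intro c
          constructor
          · intro h3
            by_contra h4
            have := (hcon c (fun _ => not_lt.1 h4)).2
            linarith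
          · intro h3
            have := hy (i - 1) (by omega)
            rw [Nat.sub_add_cancel h0] at this
            linarith
        have h3 := ha i h1
        have h4 := ha (i - 1) (by omega)
        have h5 : FF w x 0 (y (i - 1)) = FF w x 0 (y i) := by
          rw [hF, hF]
          refine Finset.sum_congr rfl (fun c _ => ?_)
          simp only [h2 c]
        rw [h5] at h4
        have h6 : (-1 : ℝ) ^ i = (-1) ^ (i - 1) * (-1) := by
          rw [← pow_succ, Nat.sub_add_cancel h0]
        rw [h6] at h3
        nlinarith
      · have hik : i = k := by omega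
        subst hik
        by_contra hcon
        push Not at hcon
        have h3 := ha (i - 1) (by omega)
        rw [hF, Finset.sum_eq_zero] at h3
        · simp at h3
        · intro c _
          rw [if_neg]
          have := (hcon c (fun h9 => absurd h9 (lt_irrefl _))).2
          linarith
  have hex2 : ∀ i : Fin (k + 1), ∃ c : Fin n, ((i : ℕ) < k → x c ≤ y i) ∧
      (1 ≤ (i : ℕ) → y ((i : ℕ) - 1) < x c) := fun i => hex i (by omega)
  choose c hc1 hc2 using hex2
  have hinj : Function.Injective c := by
    have key : ∀ i j : Fin (k + 1), (i : ℕ) < (j : ℕ) → c i ≠ c j := by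
      intro i j hij h1
      have hjk := j.2
      have h2 := hc1 i (by omega)
      have h3 := hc2 j (by omega)
      have h4 := hmono ((j : ℕ) - 1) (by omega) i (by omega)
      rw [h1] at h2
      linarith
    intro i j hij
    rcases lt_trichotomy (i : ℕ) (j : ℕ) with h1 | h1 | h1
    · exact absurd hij (key i j h1)
    · exact Fin.ext h1
    · exact absurd hij.symm (key j i h1)
  have := Fintype.card_le_of_injective _ hinj
  simpa using this

end
end Pool.H611.BS
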