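import Mathlib
import Pool.Agent.Helper611.BS.Def

set_option autoImplicit false

namespace Pool.H611.BS
open MeasureTheory
noncomputable section



lemma tp_mono (m : ℕ) : Monotone (tp m) := by
  intro a b hab
  unfold tp
  by_cases ha : 0 < a
  · have hb : 0 < b := lt_of_lt_of_le ha hab
    rw [if_pos ha, if_pos hb]
    exact pow_le_pow_left₀ ha.le hab m
  · rw [if_neg ha]
    split_ifs with hb
    · positivity
    · exact le_rfl

lemma tp_int (m : ℕ) (x u v : ℝ) : IntervalIntegrable (fun s => tp m (x - s)) volume u v := by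
  apply Antitone.intervalIntegrable
  intro a b hab
  exact tp_mono m (by linarith)

lemma tp_succ (m : ℕ) (y : ℝ) : tp (m + 1) y = (max y 0) ^ (m + 1) := by
  unfold tp
  split_ifs with h
  · rw [max_eq_left h.le]
  · rw [max_eq_right (not_lt.mp h)]
    simp

lemma tp_cont (m : ℕ) : Continuous (tp (m + 1)) := by
  have : tp (m + 1) = fun y => (max y 0) ^ (m + 1) := by
    funext y
    exact tp_succ m y
  rw [this]
  fun_prop

lemma tp_sub (m : ℕ) (x u v : ℝ) (huv : u ≤ v) :
    tp (m + 1) (x - u) - tp (m + 1) (x - v) = (m + 1 : ℝ) * ∫ s in u..v, tp m (x - s) := by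
  have h := intervalIntegral.integral_eq_sub_of_hasDeriv_right_of_le (a := u) (b := v)
    (f := fun s => - tp (m + 1) (x - s)) (f' := fun s => (m + 1 : ℝ) * tp m (x - s)) huv
    (by
      apply Continuous.continuousOn
      exact ((tp_cont m).comp (by fun_prop)).neg)
    (by
      intro s _
      by_cases hs : s < x
      · have h1 : HasDerivAt (fun s : ℝ => - (x - s) ^ (m + 1)) ((m + 1 : ℝ) * (x - s) ^ m) s := by
          have h2 : HasDerivAt (fun s : ℝ => x - s) (-1) s := by
            simpa using (hasDerivAt_id s).const_sub x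
          have h3 : HasDerivAt (fun s : ℝ => - (x - s) ^ (m + 1))
              (-(((m + 1 : ℕ) : ℝ) * (x - s) ^ (m + 1 - 1) * -1)) s := (h2.pow (m + 1)).neg
          have h33 : (-(((m + 1 : ℕ) : ℝ) * (x - s) ^ (m + 1 - 1) * -1)) =
              (m + 1 : ℝ) * (x - s) ^ m := by
            rw [Nat.add_sub_cancel]
            push_cast
            ring
          rw [h33] at h3
          exact h3
        have h4 : tp m (x - s) = (x - s) ^ m := by
          unfold tp
          rw [if_pos (by linarith)]
        have h5 : (fun s => - tp (m + 1) (x - s)) =ᶠ[nhds s] (fun s : ℝ => - (x - s) ^ (m + 1)) := by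
          filter_upwards [Iio_mem_nhds hs] with r hr
          have hr' : r < x := hr
          simp only [tp]
          rw [if_pos (by linarith)]
        rw [h4]
        exact (h1.congr_of_eventuallyEq h5).hasDerivWithinAt
      · have hs' : x ≤ s := not_lt.mp hs
        have h4 : tp m (x - s) = 0 := by
          unfold tp
          rw [if_neg (by linarith)]
        rw [h4, mul_zero]
        have h5 : HasDerivWithinAt (fun _ : ℝ => (0 : ℝ)) 0 (Set.Ioi s) s :=
          hasDerivWithinAt_const _ _ _
        refine h5.congr ?_ ?_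
        · intro r hr
          have hr' : s < r := hr
          simp only [tp]
          rw [if_neg (by linarith)]
          simp
        · simp only [tp]
          rw [if_neg (by linarith)]
          simp)
    ((tp_int m x u v).const_mul _)
  rw [intervalIntegral.integral_const_mul] at h
  rw [h]
  ring

lemma FF_int {n : ℕ} (w x : Fin n → ℝ) (m : ℕ) (u v : ℝ) :
    IntervalIntegrable (FF w x m) volume u v := by
  have : FF w x m = fun s => ∑ i, w i * tp m (x i - s) := rfl
  rw [this]
  have h := IntervalIntegrable.sum (μ := volume) (a := u) (b := v) Finset.univ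
    (f := fun i => fun s => w i * tp m (x i - s)) (fun i _ => (tp_int m (x i) u v).const_mul (w i))
  have h2 : (fun s => ∑ i, w i * tp m (x i - s)) = ∑ i, fun s => w i * tp m (x i - s) := by
    funext s
    simp
  rw [h2]
  exact h

lemma FF_sub {n : ℕ} (w x : Fin n → ℝ) (m : ℕ) (u v : ℝ) (huv : u ≤ v) :
    FF w x (m + 1) u - FF w x (m + 1) v = (m + 1 : ℝ) * ∫ s in u..v, FF w x m s := by
  simp only [FF]
  rw [intervalIntegral.integral_finsetSum
    (fun i _ => (tp_int m (x i) u v).const_mul (w i)), ← Finset.sum_sub_distrib, Finset.mul_sum]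
  refine Finset.sum_congr rfl fun i _ => ?_
  rw [intervalIntegral.integral_const_mul, ← mul_sub, tp_sub m (x i) u v huv]
  ring

lemma FF_cont {n : ℕ} (w x : Fin n → ℝ) (m : ℕ) : Continuous (FF w x (m + 1)) := by
  have : FF w x (m + 1) = fun s => ∑ i, w i * tp (m + 1) (x i - s) := rfl
  rw [this]
  refine continuous_finsetSum _ fun i _ => ?_
  exact continuous_const.mul ((tp_cont m).comp (by fun_prop))

lemma FF_left {n : ℕ} (w x : Fin n → ℝ) (m : ℕ) (h : ∀ j ≤ m, ∑ i, w i * x i ^ j = 0) (s : ℝ)
    (hs : ∀ i, s < x i) : FF w x m s = 0 := by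
  have h1 : FF w x m s = ∑ i, ∑ k ∈ Finset.range (m + 1),
      w i * (x i ^ k * (-s) ^ (m - k) * (m.choose k : ℝ)) := by
    unfold FF
    refine Finset.sum_congr rfl fun i _ => ?_
    have h2 : tp m (x i - s) = (x i + (-s)) ^ m := by
      unfold tp
      rw [if_pos (by linarith [hs i])]
      ring
    rw [h2, add_pow, Finset.mul_sum]
  rw [h1, Finset.sum_comm]
  refine Finset.sum_eq_zero fun k hk => ?_
  have hk' : k ≤ m := by
    have := Finset.mem_range.mp hk
    omega
  have h3 : ∑ i, w i * (x i ^ k * (-s) ^ (m - k) * (m.choose k : ℝ)) =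
      (∑ i, w i * x i ^ k) * ((-s) ^ (m - k) * (m.choose k : ℝ)) := by
    rw [Finset.sum_mul]
    refine Finset.sum_congr rfl fun i _ => ?_
    ring
  rw [h3, h k hk', zero_mul]

lemma FF_right {n : ℕ} (w x : Fin n → ℝ) (m : ℕ) (s : ℝ)
    (hs : ∀ i, x i ≤ s) : FF w x m s = 0 := by
  unfold FF
  refine Finset.sum_eq_zero fun i _ => ?_
  unfold tp
  rw [if_neg (by linarith [hs i]), mul_zero]

end
end Pool.H611.BS
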