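import Mathlib
import Pool.Agent.Helper611.BS.Def

set_option autoImplicit false

namespace Pool.H611.BS
open MeasureTheory
noncomputable section



lemma mv_core (F G : ℝ → ℝ) (c : ℝ) (hc : 0 < c)
    (hFG : ∀ u v, u ≤ v → F u - F v = c * ∫ s in u..v, G s)
    (u v : ℝ) (huv : u < v) (δ : ℝ) (h : 0 < δ * (F u - F v)) :
    ∃ s, u < s ∧ s < v ∧ 0 < δ * G s := by
  by_contra hcon
  push Not at hcon
  have h1 : 0 ≤ ∫ s in Set.Ioo u v, (-(δ * G s)) :=
    setIntegral_nonneg measurableSet_Ioo (fun s hs => by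
      have := hcon s hs.1 hs.2
      linarith)
  have h2 : ∫ s in Set.Ioo u v, (-(δ * G s)) = -(δ * ∫ s in u..v, G s) := by
    rw [intervalIntegral.integral_of_le huv.le, MeasureTheory.integral_Ioc_eq_integral_Ioo,
      MeasureTheory.integral_neg, MeasureTheory.integral_const_mul]
  rw [h2] at h1
  rw [hFG u v huv.le] at h
  have h3 : δ * (c * ∫ s in u..v, G s) = c * (δ * ∫ s in u..v, G s) := by ring
  rw [h3] at h
  have h4 : 0 < δ * ∫ s in u..v, G s := by
    by_contra h5
    push Not at h5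
    have := mul_nonpos_of_nonneg_of_nonpos hc.le h5
    linarith
  linarith

lemma alt_core (F G : ℝ → ℝ) (c : ℝ) (hc : 0 < c)
    (hFG : ∀ u v, u ≤ v → F u - F v = c * ∫ s in u..v, G s)
    (k : ℕ) (v : ℕ → ℝ) (hv : ∀ i ≤ k, v i < v (i + 1)) (δ : ℝ)
    (h : ∀ i ≤ k, 0 < δ * (-1) ^ i * (F (v i) - F (v (i + 1)))) : Alt G (k + 1) δ := by
  have h1 : ∀ i, ∃ s, i ≤ k → v i < s ∧ s < v (i + 1) ∧ 0 < δ * (-1) ^ i * G s := by
    intro i
    by_cases hi : i ≤ k
    · obtain ⟨s, hs⟩ := mv_core F G c hc hFG (v i) (v (i + 1)) (hv i hi) (δ * (-1) ^ i) (h i hi)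
      exact ⟨s, fun _ => hs⟩
    · exact ⟨0, fun h' => absurd h' hi⟩
  choose s hs using h1
  refine ⟨s, ?_, ?_⟩
  · intro i hi
    exact (hs i (by omega)).2.1.trans (hs (i + 1) (by omega)).1
  · intro i hi
    exact (hs i (by omega)).2.2

lemma alt_step (F G : ℝ → ℝ) (c : ℝ) (hc : 0 < c) (a b : ℝ)
    (hint : ∀ u v, IntervalIntegrable G volume u v)
    (hFG : ∀ u v, u ≤ v → F u - F v = c * ∫ s in u..v, G s)
    (ha : ∀ s ≤ a, F s = 0) (hb : ∀ s, b ≤ s → F s = 0)
    (k : ℕ) (hk : 1 ≤ k) (ε : ℝ) (hε : ε = 1 ∨ ε = -1) (h : Alt F k ε) :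
    Alt G (k + 1) (-ε) := by
  obtain ⟨y, hy1, hy2⟩ := h
  apply alt_core F G c hc hFG k
    (fun i => if i = 0 then min a (y 0) - 1 else if i ≤ k then y (i - 1) else max b (y (k - 1)) + 1)
  · intro i hi
    rcases Nat.eq_zero_or_pos i with h0 | h0
    · subst h0
      have h1 : 0 + 1 ≤ k := hk
      simp only [if_true, Nat.zero_add, one_ne_zero, if_false]
      rw [if_pos (by omega)]
      have := min_le_right a (y 0)
      simp only [Nat.sub_self]
      linarith
    · have e1 : ¬ i = 0 := by omega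
      have e2 : ¬ i + 1 = 0 := by omega
      simp only [if_neg e1, if_neg e2, if_pos hi]
      by_cases h1 : i + 1 ≤ k
      · rw [if_pos h1]
        have h2 := hy1 (i - 1) (by omega)
        have e3 : i - 1 + 1 = i + 1 - 1 := by omega
        rwa [e3] at h2
      · rw [if_neg h1]
        have e3 : i = k := by omega
        subst e3
        have := le_max_right b (y (i - 1))
        linarith
  · intro i hi
    have hF0 : F (min a (y 0) - 1) = 0 := ha _ (by have := min_le_left a (y 0); linarith)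
    have hF1 : F (max b (y (k - 1)) + 1) = 0 := hb _ (by have := le_max_left b (y (k - 1)); linarith)
    rcases Nat.eq_zero_or_pos i with h0 | h0
    · subst h0
      have h1 : 0 + 1 ≤ k := hk
      simp only [if_true, Nat.zero_add, one_ne_zero, if_false]
      rw [if_pos (by omega)]
      have h2 := hy2 0 (by omega)
      simp only [Nat.sub_self, pow_zero, mul_one] at h2 ⊢
      rw [hF0]
      linarith
    · have e1 : ¬ i = 0 := by omega
      have e2 : ¬ i + 1 = 0 := by omega
      simp only [if_neg e1, if_neg e2, if_pos hi]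
      have h2 := hy2 (i - 1) (by omega)
      obtain ⟨j, rfl⟩ : ∃ j, i = j + 1 := ⟨i - 1, by omega⟩
      simp only [Nat.add_sub_cancel] at h2 ⊢
      have h3 : 0 ≤ ε * (-1) ^ (j + 1) *
          F (if j + 1 + 1 ≤ k then y (j + 1) else max b (y (k - 1)) + 1) := by
        by_cases h1 : j + 1 + 1 ≤ k
        · rw [if_pos h1]
          exact (hy2 (j + 1) (by omega)).le
        · rw [if_neg h1, hF1]; simp
      have h4 : -ε * (-1) ^ (j + 1) * (F (y j) -
          F (if j + 1 + 1 ≤ k then y (j + 1) else max b (y (k - 1)) + 1)) =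
          ε * (-1) ^ j * F (y j) + ε * (-1) ^ (j + 1) *
          F (if j + 1 + 1 ≤ k then y (j + 1) else max b (y (k - 1)) + 1) := by
        rw [pow_succ]; ring
      rw [h4]
      linarith

/-- dips below a positive level give four alternations of the derivative -/
lemma dip_alt (F G : ℝ → ℝ) (c : ℝ) (hc : 0 < c) (a b : ℝ)
    (hint : ∀ u v, IntervalIntegrable G volume u v)
    (hFG : ∀ u v, u ≤ v → F u - F v = c * ∫ s in u..v, G s)
    (ha : ∀ s ≤ a, F s = 0) (hb : ∀ s, b ≤ s → F s = 0)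
    (s1 s2 s3 : ℝ) (h12 : s1 < s2) (h23 : s2 < s3) (h1 : 0 < F s1) (h3 : 0 < F s3)
    (h12' : F s2 < F s1) (h23' : F s2 < F s3) :
    Alt G 4 (-1) := by
  have hF0 : F (min a s1 - 1) = 0 := ha _ (by have := min_le_left a s1; linarith)
  have hF1 : F (max b s3 + 1) = 0 := hb _ (by have := le_max_left b s3; linarith)
  have m1 := min_le_right a s1
  have m2 := le_max_right b s3
  apply alt_core F G c hc hFG 3
    (fun i => if i = 0 then min a s1 - 1 else if i = 1 then s1 else if i = 2 then s2 else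
      if i = 3 then s3 else max b s3 + 1)
  · intro i hi
    interval_cases i <;> norm_num <;> linarith
  · intro i hi
    interval_cases i <;> norm_num [hF0, hF1] <;> linarith

end
end Pool.H611.BS
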