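import Mathlib
import Pool.Agent.Helper611.BS.Def

set_option autoImplicit false

namespace Pool.H611.BS
open MeasureTheory
noncomputable section



/-- moments of the divided difference weights -/
lemma moments_low {n : ℕ} (x : Fin n → ℝ) (hx : Function.Injective x) (j : ℕ) (hj : j + 1 < n) :
    ∑ i, (∏ l ∈ Finset.univ.erase i, (x i - x l))⁻¹ * x i ^ j = 0 := by
  have h := Lagrange.coeff_eq_sum (s := (Finset.univ : Finset (Fin n))) (v := x) hx.injOn
    (P := (Polynomial.X : Polynomial ℝ) ^ j) (by
      rw [Polynomial.degree_X_pow, Finset.card_univ, Fintype.card_fin]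
      exact_mod_cast (by omega : j < n))
  rw [Polynomial.coeff_X_pow, Finset.card_univ, Fintype.card_fin, if_neg (by omega)] at h
  rw [h]
  refine Finset.sum_congr rfl fun i _ => ?_
  rw [Polynomial.eval_pow, Polynomial.eval_X, div_eq_mul_inv, mul_comm]

lemma moments_top {n : ℕ} (x : Fin n → ℝ) (hx : Function.Injective x) (j : ℕ) (hj : j + 1 = n) :
    ∑ i, (∏ l ∈ Finset.univ.erase i, (x i - x l))⁻¹ * x i ^ j = 1 := by
  have h := Lagrange.coeff_eq_sum (s := (Finset.univ : Finset (Fin n))) (v := x) hx.injOn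
    (P := (Polynomial.X : Polynomial ℝ) ^ j) (by
      rw [Polynomial.degree_X_pow, Finset.card_univ, Fintype.card_fin]
      exact_mod_cast (by omega : j < n))
  rw [Polynomial.coeff_X_pow, Finset.card_univ, Fintype.card_fin, if_pos (by omega)] at h
  rw [h]
  refine Finset.sum_congr rfl fun i _ => ?_
  rw [Polynomial.eval_pow, Polynomial.eval_X, div_eq_mul_inv, mul_comm]

lemma moments_next {n : ℕ} (x : Fin n → ℝ) (hx : Function.Injective x) (hn : 1 ≤ n) :
    ∑ i, (∏ l ∈ Finset.univ.erase i, (x i - x l))⁻¹ * x i ^ n = ∑ i, x i := by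
  have hdeg : ((Polynomial.X : Polynomial ℝ) ^ n - Lagrange.nodal Finset.univ x).degree <
      ((Polynomial.X : Polynomial ℝ) ^ n).degree := by
    apply Polynomial.degree_sub_lt
    · rw [Polynomial.degree_X_pow, Lagrange.degree_nodal, Finset.card_univ, Fintype.card_fin]
    · exact pow_ne_zero _ Polynomial.X_ne_zero
    · rw [(Polynomial.monic_X_pow n).leadingCoeff, Lagrange.nodal_monic.leadingCoeff]
  have h := Lagrange.coeff_eq_sum (s := (Finset.univ : Finset (Fin n))) (v := x) hx.injOn
    (P := (Polynomial.X : Polynomial ℝ) ^ n - Lagrange.nodal Finset.univ x) (by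
      rw [Polynomial.degree_X_pow] at hdeg
      rw [Finset.card_univ, Fintype.card_fin]
      exact hdeg)
  have hnext : (Lagrange.nodal Finset.univ x).coeff (n - 1) = -∑ i, x i := by
    have h1 := Polynomial.prod_X_sub_C_nextCoeff (s := (Finset.univ : Finset (Fin n))) x
    rw [← Lagrange.nodal_eq, Polynomial.nextCoeff_of_natDegree_pos (by
      rw [Lagrange.natDegree_nodal, Finset.card_univ, Fintype.card_fin]; omega),
      Lagrange.natDegree_nodal, Finset.card_univ, Fintype.card_fin] at h1
    exact h1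
  rw [Finset.card_univ, Fintype.card_fin, Polynomial.coeff_sub, hnext, Polynomial.coeff_X_pow,
    if_neg (by omega)] at h
  have h2 : ∑ i, x i = 0 - -∑ i, x i := by ring
  rw [h2, h]
  refine Finset.sum_congr rfl fun i _ => ?_
  rw [Polynomial.eval_sub, Lagrange.eval_nodal_at_node (Finset.mem_univ i), sub_zero,
    Polynomial.eval_pow, Polynomial.eval_X, div_eq_mul_inv, mul_comm]

lemma omega_deriv_poly (P : Polynomial ℝ) (k : ℕ) :
    iteratedDeriv k (fun y => P.eval y) = fun y => (Polynomial.derivative^[k] P).eval y := by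
  induction k with
  | zero => simp
  | succ k ih =>
    rw [iteratedDeriv_succ, ih]
    funext y
    rw [Polynomial.deriv, Function.iterate_succ_apply']

/-- the (n-1)-st derivative of the normalised nodal polynomial -/
lemma omega_deriv (m : ℕ) (x : Fin (m + 2) → ℝ) (y : ℝ) :
    iteratedDeriv (m + 1) (fun y => (∏ i, (y - x i)) / ((m + 2).factorial : ℝ)) y
      = y - (∑ i, x i) / (m + 2) := by
  obtain ⟨Q, hQ⟩ : ∃ Q : Polynomial ℝ, Q = Lagrange.nodal Finset.univ x := ⟨_, rfl⟩
  have hnd : Q.natDegree = m + 2 := by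
    rw [hQ, Lagrange.natDegree_nodal, Finset.card_univ, Fintype.card_fin]
  have hmon : Q.coeff (m + 2) = 1 := by
    have : Q.Monic := by rw [hQ]; exact Lagrange.nodal_monic
    rw [Polynomial.Monic, Polynomial.leadingCoeff, hnd] at this
    exact this
  have hnext : Q.coeff (m + 1) = -∑ i, x i := by
    have h1 := Polynomial.prod_X_sub_C_nextCoeff (s := (Finset.univ : Finset (Fin (m + 2)))) x
    rw [← Lagrange.nodal_eq, ← hQ, Polynomial.nextCoeff_of_natDegree_pos (by rw [hnd]; omega),
      hnd] at h1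
    exact h1
  have hf : (fun y => (∏ i, (y - x i)) / ((m + 2).factorial : ℝ)) =
      fun y => (Polynomial.C (((m + 2).factorial : ℝ)⁻¹) * Q).eval y := by
    funext y
    rw [Polynomial.eval_mul, Polynomial.eval_C, hQ, Lagrange.eval_nodal, div_eq_mul_inv, mul_comm]
  rw [hf, omega_deriv_poly]
  obtain ⟨D, hD⟩ : ∃ D : Polynomial ℝ, D = Polynomial.derivative^[m + 1]
    (Polynomial.C (((m + 2).factorial : ℝ)⁻¹) * Q) := ⟨_, rfl⟩
  simp only
  rw [← hD]
  have hDdeg : D.natDegree ≤ 1 := by
    rw [hD]
    refine (Polynomial.natDegree_iterate_derivative _ _).trans ?_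
    have := Polynomial.natDegree_C_mul_le (((m + 2).factorial : ℝ)⁻¹) Q
    omega
  have hfac : ((m + 2).factorial : ℝ) ≠ 0 := by exact_mod_cast (m + 2).factorial_ne_zero
  have hc1 : D.coeff 1 = 1 := by
    rw [hD, Polynomial.coeff_iterate_derivative, Polynomial.coeff_C_mul]
    have e1 : 1 + (m + 1) = m + 2 := by ring
    rw [e1, hmon]
    have e2 : (m + 2).descFactorial (m + 1) = (m + 2).factorial := by
      have := Nat.factorial_mul_descFactorial (show m + 1 ≤ m + 2 by omega)
      have e3 : m + 2 - (m + 1) = 1 := by omega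
      rw [e3, Nat.factorial_one, one_mul] at this
      exact this
    rw [e2, nsmul_eq_mul]
    field_simp
  have hc0 : D.coeff 0 = -(∑ i, x i) / (m + 2) := by
    rw [hD, Polynomial.coeff_iterate_derivative, Polynomial.coeff_C_mul]
    have e1 : 0 + (m + 1) = m + 1 := by ring
    rw [e1, hnext, Nat.descFactorial_self, nsmul_eq_mul, Nat.factorial_succ (m + 1)]
    have h3 : ((m + 1).factorial : ℝ) ≠ 0 := by exact_mod_cast (m + 1).factorial_ne_zero
    have h4 : ((m : ℝ) + 2) ≠ 0 := by positivity
    push_cast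
    have h5 : ((m : ℝ) + 1 + 1) ≠ 0 := by positivity
    field_simp
    ring
  rw [Polynomial.eq_X_add_C_of_natDegree_le_one hDdeg, hc1, hc0]
  simp
  ring

end
end Pool.H611.BS
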