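import Mathlib
import Pool.Agent.Helper611.BS.Def

set_option autoImplicit false

namespace Pool.H611.BS
open MeasureTheory
noncomputable section




lemma pk_taylor (m : ℕ) (f : ℝ → ℝ) (hf : ContDiff ℝ ((m + 1 : ℕ) : WithTop ℕ∞) f) (x : ℝ) :
    f x = ∑ k ∈ Finset.range (m + 1), (((k.factorial : ℝ)⁻¹ * (x + 1) ^ k) * iteratedDeriv k f (-1)) +
      ∫ t in (-1:ℝ)..x, ((x - t) ^ m / (m.factorial : ℝ)) * iteratedDeriv (m + 1) f t := by
  rcases eq_or_ne (-1:ℝ) x with h | h
  · subst h
    rw [intervalIntegral.integral_same, add_zero, Finset.sum_eq_single 0]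
    · simp
    · intro b _ hb
      rw [neg_add_cancel, zero_pow hb]
      ring
    · intro h0
      exact absurd (Finset.mem_range.2 (Nat.succ_pos m)) h0
  · have hu : UniqueDiffOn ℝ (Set.uIcc (-1:ℝ) x) := uniqueDiffOn_uIcc h
    have hT := taylor_integral_remainder (x := x) (x₀ := -1) (n := m) (f := f) hf.contDiffOn
    rw [taylor_within_apply, sub_eq_iff_eq_add'] at hT
    rw [hT]
    congr 1
    · apply Finset.sum_congr rfl
      intro k hk
      have hk' : k ≤ m + 1 := (Finset.mem_range.1 hk).le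
      rw [iteratedDerivWithin_eq_iteratedDeriv hu
        ((hf.of_le (by exact_mod_cast hk')).contDiffAt) Set.left_mem_uIcc, sub_neg_eq_add, smul_eq_mul]
    · apply intervalIntegral.integral_congr
      intro t ht
      show ((x - t) ^ m / (m.factorial : ℝ)) • iteratedDerivWithin (m + 1) f (Set.uIcc (-1:ℝ) x) t = _
      rw [iteratedDerivWithin_eq_iteratedDeriv hu (hf.contDiffAt) ht, smul_eq_mul]

lemma pk_tp (m : ℕ) (g : ℝ → ℝ) (hg : Continuous g) (x : ℝ) (hx : x ∈ Set.Icc (-1:ℝ) 1) :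
    IntervalIntegrable (fun s => tp m (x - s) * g s) volume (-1) 1 ∧
    ∫ s in (-1:ℝ)..1, tp m (x - s) * g s = ∫ t in (-1:ℝ)..x, (x - t) ^ m * g t := by
  have hc : Continuous (fun t : ℝ => (x - t) ^ m * g t) := by fun_prop
  have e1 : Set.EqOn (fun t : ℝ => (x - t) ^ m * g t) (fun s => tp m (x - s) * g s) (Set.uIoo (-1) x) := by
    intro t ht
    rw [Set.uIoo_of_le hx.1] at ht
    show (x - t) ^ m * g t = tp m (x - t) * g t
    unfold tp
    rw [if_pos (by linarith [ht.2])]
  have e2 : Set.EqOn (fun _ : ℝ => (0:ℝ)) (fun s => tp m (x - s) * g s) (Set.uIoo x 1) := by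
    intro t ht
    rw [Set.uIoo_of_le hx.2] at ht
    show (0:ℝ) = tp m (x - t) * g t
    unfold tp
    rw [if_neg (by linarith [ht.1]), zero_mul]
  have i1 : IntervalIntegrable (fun s => tp m (x - s) * g s) volume (-1) x :=
    (hc.intervalIntegrable _ _).congr_uIoo e1
  have i2 : IntervalIntegrable (fun s => tp m (x - s) * g s) volume x 1 :=
    (intervalIntegrable_const (c := (0:ℝ))).congr_uIoo e2
  refine ⟨i1.trans i2, ?_⟩
  rw [← intervalIntegral.integral_add_adjacent_intervals i1 i2,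
    ← intervalIntegral.integral_congr_uIoo e1, ← intervalIntegral.integral_congr_uIoo e2]
  simp

lemma pk_poly {n : ℕ} (m : ℕ) (w x : Fin n → ℝ)
    (hw : ∀ j ≤ m, ∑ i, w i * x i ^ j = 0) (k : ℕ) (hk : k ≤ m) : ∑ i, w i * (x i + 1) ^ k = 0 := by
  have : ∀ i, w i * (x i + 1) ^ k = ∑ j ∈ Finset.range (k + 1), (k.choose j : ℝ) * (w i * x i ^ j) := by
    intro i
    rw [add_pow, Finset.mul_sum]
    apply Finset.sum_congr rfl
    intro j _
    rw [one_pow]
    ring
  simp_rw [this]
  rw [Finset.sum_comm]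
  apply Finset.sum_eq_zero
  intro j hj
  rw [← Finset.mul_sum, hw j (by have := Finset.mem_range.1 hj; omega), mul_zero]

/-- Peano representation of a divided difference -/
lemma peano {n : ℕ} (m : ℕ) (w x : Fin n → ℝ) (hx : ∀ i, x i ∈ Set.Icc (-1 : ℝ) 1)
    (hw : ∀ j ≤ m, ∑ i, w i * x i ^ j = 0) (f : ℝ → ℝ)
    (hf : ContDiff ℝ ((m + 1 : ℕ) : WithTop ℕ∞) f) :
    ∑ i, w i * f (x i)
      = (1 / (m.factorial : ℝ)) * ∫ s in (-1 : ℝ)..1, FF w x m s * iteratedDeriv (m + 1) f s := by
  have hg : Continuous (iteratedDeriv (m + 1) f) := hf.continuous_iteratedDeriv (m + 1) le_rfl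
  have h1 : ∀ i, w i * f (x i) =
      ∑ k ∈ Finset.range (m + 1), ((k.factorial : ℝ)⁻¹ * iteratedDeriv k f (-1)) * (w i * (x i + 1) ^ k) +
      (1 / (m.factorial : ℝ)) * ∫ s in (-1 : ℝ)..1, w i * (tp m (x i - s) * iteratedDeriv (m + 1) f s) := by
    intro i
    rw [intervalIntegral.integral_const_mul, (pk_tp m _ hg (x i) (hx i)).2]
    have hT := pk_taylor m f hf (x i)
    have e : ∫ t in (-1:ℝ)..(x i), ((x i - t) ^ m / (m.factorial : ℝ)) * iteratedDeriv (m + 1) f t =
        (1 / (m.factorial : ℝ)) * ∫ t in (-1:ℝ)..(x i), (x i - t) ^ m * iteratedDeriv (m + 1) f t := by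
      rw [← intervalIntegral.integral_const_mul]
      congr 1
      ext t
      ring
    rw [e] at hT
    conv_lhs => rw [hT]
    rw [mul_add, Finset.mul_sum]
    congr 1
    · apply Finset.sum_congr rfl
      intro k _
      ring
    · ring
  simp_rw [h1]
  rw [Finset.sum_add_distrib, Finset.sum_comm]
  have h2 : ∑ k ∈ Finset.range (m + 1), ∑ i,
      ((k.factorial : ℝ)⁻¹ * iteratedDeriv k f (-1)) * (w i * (x i + 1) ^ k) = 0 := by
    apply Finset.sum_eq_zero
    intro k hk
    rw [← Finset.mul_sum, pk_poly m w x hw k (by have := Finset.mem_range.1 hk; omega), mul_zero]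
  rw [h2, zero_add, ← Finset.mul_sum, ← intervalIntegral.integral_finsetSum]
  · congr 1
    apply intervalIntegral.integral_congr
    intro s _
    show ∑ i, w i * (tp m (x i - s) * iteratedDeriv (m + 1) f s) = FF w x m s * iteratedDeriv (m + 1) f s
    unfold FF
    rw [Finset.sum_mul]
    apply Finset.sum_congr rfl
    intro i _
    ring
  · intro i _
    exact ((pk_tp m _ hg (x i) (hx i)).1).const_mul (w i)

end
end Pool.H611.BS
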