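import Mathlib
import Pool.Agent.Helper611.BS.Def

set_option autoImplicit false

namespace Pool.H611.BS
open MeasureTheory
noncomputable section



/-- Chebyshev inequality for two monotone functions, in product form -/
lemma chebyshev_mono (a b : ℝ) (hab : a < b) (P Q : ℝ → ℝ)
    (hP : MonotoneOn P (Set.Icc a b)) (hQ : MonotoneOn Q (Set.Icc a b))
    (hPc : ContinuousOn P (Set.Icc a b)) (hQc : ContinuousOn Q (Set.Icc a b)) :
    (∫ x in a..b, P x) * (∫ x in a..b, Q x) ≤ (b - a) * ∫ x in a..b, P x * Q x := by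
  have hL : 0 < b - a := sub_pos.mpr hab
  have hPi : IntervalIntegrable P volume a b := by
    apply ContinuousOn.intervalIntegrable
    rwa [Set.uIcc_of_le hab.le]
  have hQi : IntervalIntegrable Q volume a b := by
    apply ContinuousOn.intervalIntegrable
    rwa [Set.uIcc_of_le hab.le]
  have hPQi : IntervalIntegrable (fun x => P x * Q x) volume a b := by
    apply ContinuousOn.intervalIntegrable
    rw [Set.uIcc_of_le hab.le]
    exact hPc.mul hQc
  set q : ℝ := (∫ x in a..b, Q x) / (b - a) with hq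
  have hqL : ∫ x in a..b, Q x = q * (b - a) := by
    rw [hq, div_mul_cancel₀ _ hL.ne']
  have hlo : Q a ≤ q := by
    rw [hq, le_div_iff₀ hL]
    have h1 : ∫ x in a..b, (fun _ => Q a) x ≤ ∫ x in a..b, Q x := by
      apply intervalIntegral.integral_mono_on hab.le (by simp) hQi
      intro x hx
      exact hQ (Set.left_mem_Icc.mpr hab.le) hx hx.1
    simp only [intervalIntegral.integral_const, smul_eq_mul] at h1
    linarith
  have hhi : q ≤ Q b := by
    rw [hq, div_le_iff₀ hL]
    have h1 : ∫ x in a..b, Q x ≤ ∫ x in a..b, (fun _ => Q b) x := by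
      apply intervalIntegral.integral_mono_on hab.le hQi (by simp)
      intro x hx
      exact hQ hx (Set.right_mem_Icc.mpr hab.le) hx.2
    simp only [intervalIntegral.integral_const, smul_eq_mul] at h1
    linarith
  obtain ⟨c, hc, hcq⟩ := intermediate_value_Icc hab.le hQc ⟨hlo, hhi⟩
  have hmain : ∫ x in a..b, (q * P x + P c * Q x - P c * q) ≤ ∫ x in a..b, P x * Q x := by
    apply intervalIntegral.integral_mono_on hab.le _ hPQi
    · intro x hx
      have : 0 ≤ (P x - P c) * (Q x - Q c) := by
        rcases le_total x c with h | h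
        · have h1 := hP hx hc h
          have h2 := hQ hx hc h
          nlinarith [mul_nonneg (sub_nonneg.mpr h1) (sub_nonneg.mpr h2)]
        · have h1 := hP hc hx h
          have h2 := hQ hc hx h
          exact mul_nonneg (sub_nonneg.mpr h1) (sub_nonneg.mpr h2)
      rw [hcq] at this
      nlinarith
    · exact ((hPi.const_mul q).add (hQi.const_mul (P c))).sub (by simp)
  rw [intervalIntegral.integral_sub ((hPi.const_mul q).add (hQi.const_mul (P c))) (by simp),
    intervalIntegral.integral_add (hPi.const_mul q) (hQi.const_mul (P c)),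
    intervalIntegral.integral_const_mul, intervalIntegral.integral_const_mul,
    intervalIntegral.integral_const, smul_eq_mul, hqL] at hmain
  rw [hqL]
  have : q * ∫ x in a..b, P x ≤ ∫ x in a..b, P x * Q x := by linarith
  nlinarith [mul_le_mul_of_nonneg_left this hL.le]

/-- comparison on the left part: `p` nonneg, antitone on `[a,b]`, zero on `[z,b]`. -/
lemma compare_left (a b : ℝ) (hab : a < b) (M : ℝ → ℝ)
    (hM : IntervalIntegrable M volume a b)
    (y1 z : ℝ) (ha1 : a ≤ y1) (h1z : y1 ≤ z) (hzb : z ≤ b)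
    (hl : ∀ x ∈ Set.Ioo a y1, M x ≤ 1 / (b - a))
    (hmid : ∀ x ∈ Set.Ioo y1 z, 1 / (b - a) ≤ M x)
    (hz : ∫ x in a..z, M x = (z - a) / (b - a))
    (p : ℝ → ℝ) (hp : AntitoneOn p (Set.Icc a b)) (hpc : ContinuousOn p (Set.Icc a b))
    (hp0 : ∀ x ∈ Set.Icc z b, p x = 0) :
    ∫ x in a..b, M x * p x ≤ (1 / (b - a)) * ∫ x in a..b, p x := by
  have haz : a ≤ z := ha1.trans h1z
  have hpi : IntervalIntegrable p volume a b := by
    apply ContinuousOn.intervalIntegrable
    rwa [Set.uIcc_of_le hab.le]
  have hMp : IntervalIntegrable (fun x => M x * p x) volume a b := by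
    apply hM.mul_continuousOn
    rwa [Set.uIcc_of_le hab.le]
  have hs1 : Set.uIcc a z ⊆ Set.uIcc a b := by
    rw [Set.uIcc_of_le haz, Set.uIcc_of_le hab.le]
    exact Set.Icc_subset_Icc le_rfl hzb
  have hs2 : Set.uIcc z b ⊆ Set.uIcc a b := by
    rw [Set.uIcc_of_le hzb, Set.uIcc_of_le hab.le]
    exact Set.Icc_subset_Icc haz le_rfl
  have hpi1 := hpi.mono_set hs1
  have hpi2 := hpi.mono_set hs2
  have hMp1 := hMp.mono_set hs1
  have hMp2 := hMp.mono_set hs2
  have hM1 := hM.mono_set hs1
  have z1 : ∫ x in z..b, p x = 0 := by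
    rw [intervalIntegral.integral_congr (g := fun _ => (0 : ℝ))]
    · simp
    · intro x hx
      rw [Set.uIcc_of_le hzb] at hx
      exact hp0 x hx
  have z2 : ∫ x in z..b, M x * p x = 0 := by
    rw [intervalIntegral.integral_congr (g := fun _ => (0 : ℝ))]
    · simp
    · intro x hx
      rw [Set.uIcc_of_le hzb] at hx
      simp [hp0 x hx]
  rw [← intervalIntegral.integral_add_adjacent_intervals hMp1 hMp2,
    ← intervalIntegral.integral_add_adjacent_intervals hpi1 hpi2, z1, z2, add_zero, add_zero]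
  have hmain : ∫ x in a..z, (M x * p x - p y1 * M x)
      ≤ ∫ x in a..z, ((1 / (b - a)) * p x - (1 / (b - a)) * p y1) := by
    apply intervalIntegral.integral_mono_on_of_le_Ioo haz
    · exact hMp1.sub (hM1.const_mul _)
    · exact (hpi1.const_mul _).sub (by simp)
    · intro x hx
      have hxI : x ∈ Set.Icc a b := ⟨hx.1.le, hx.2.le.trans hzb⟩
      have hyI : y1 ∈ Set.Icc a b := ⟨ha1, h1z.trans hzb⟩
      rcases lt_trichotomy x y1 with h | h | h
      · have e1 := hl x ⟨hx.1, h⟩
        have e2 := hp hxI hyI h.le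
        nlinarith [mul_nonneg (sub_nonneg.mpr e1) (sub_nonneg.mpr e2)]
      · rw [h]; nlinarith
      · have e1 := hmid x ⟨h, hx.2⟩
        have e2 := hp hyI hxI h.le
        nlinarith [mul_nonneg (sub_nonneg.mpr e1) (sub_nonneg.mpr e2)]
  rw [intervalIntegral.integral_sub hMp1 (hM1.const_mul _),
    intervalIntegral.integral_sub (hpi1.const_mul _) (by simp),
    intervalIntegral.integral_const_mul, intervalIntegral.integral_const_mul,
    intervalIntegral.integral_const, smul_eq_mul, hz] at hmain
  have e3 : p y1 * ((z - a) / (b - a)) = (z - a) * (1 / (b - a) * p y1) := by ring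
  linarith

/-- comparison on the right part: `p` nonneg, monotone on `[a,b]`, zero on `[a,z]`. -/
lemma compare_right (a b : ℝ) (hab : a < b) (M : ℝ → ℝ)
    (hM : IntervalIntegrable M volume a b)
    (z y2 : ℝ) (haz : a ≤ z) (hz2 : z ≤ y2) (h2b : y2 ≤ b)
    (hmid : ∀ x ∈ Set.Ioo z y2, 1 / (b - a) ≤ M x)
    (hr : ∀ x ∈ Set.Ioo y2 b, M x ≤ 1 / (b - a))
    (hz : ∫ x in z..b, M x = (b - z) / (b - a))
    (p : ℝ → ℝ) (hp : MonotoneOn p (Set.Icc a b)) (hpc : ContinuousOn p (Set.Icc a b))
    (hp0 : ∀ x ∈ Set.Icc a z, p x = 0) :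
    ∫ x in a..b, M x * p x ≤ (1 / (b - a)) * ∫ x in a..b, p x := by
  have hzb : z ≤ b := hz2.trans h2b
  have hpi : IntervalIntegrable p volume a b := by
    apply ContinuousOn.intervalIntegrable
    rwa [Set.uIcc_of_le hab.le]
  have hMp : IntervalIntegrable (fun x => M x * p x) volume a b := by
    apply hM.mul_continuousOn
    rwa [Set.uIcc_of_le hab.le]
  have hs1 : Set.uIcc a z ⊆ Set.uIcc a b := by
    rw [Set.uIcc_of_le haz, Set.uIcc_of_le hab.le]
    exact Set.Icc_subset_Icc le_rfl hzb
  have hs2 : Set.uIcc z b ⊆ Set.uIcc a b := by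
    rw [Set.uIcc_of_le hzb, Set.uIcc_of_le hab.le]
    exact Set.Icc_subset_Icc haz le_rfl
  have hpi1 := hpi.mono_set hs1
  have hpi2 := hpi.mono_set hs2
  have hMp1 := hMp.mono_set hs1
  have hMp2 := hMp.mono_set hs2
  have hM2 := hM.mono_set hs2
  have z1 : ∫ x in a..z, p x = 0 := by
    rw [intervalIntegral.integral_congr (g := fun _ => (0 : ℝ))]
    · simp
    · intro x hx
      rw [Set.uIcc_of_le haz] at hx
      exact hp0 x hx
  have z2 : ∫ x in a..z, M x * p x = 0 := by
    rw [intervalIntegral.integral_congr (g := fun _ => (0 : ℝ))]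
    · simp
    · intro x hx
      rw [Set.uIcc_of_le haz] at hx
      simp [hp0 x hx]
  rw [← intervalIntegral.integral_add_adjacent_intervals hMp1 hMp2,
    ← intervalIntegral.integral_add_adjacent_intervals hpi1 hpi2, z1, z2, zero_add, zero_add]
  have hmain : ∫ x in z..b, (M x * p x - p y2 * M x)
      ≤ ∫ x in z..b, ((1 / (b - a)) * p x - (1 / (b - a)) * p y2) := by
    apply intervalIntegral.integral_mono_on_of_le_Ioo hzb
    · exact hMp2.sub (hM2.const_mul _)
    · exact (hpi2.const_mul _).sub (by simp)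
    · intro x hx
      have hxI : x ∈ Set.Icc a b := ⟨haz.trans hx.1.le, hx.2.le⟩
      have hyI : y2 ∈ Set.Icc a b := ⟨haz.trans hz2, h2b⟩
      rcases lt_trichotomy x y2 with h | h | h
      · have e1 := hmid x ⟨hx.1, h⟩
        have e2 := hp hxI hyI h.le
        nlinarith [mul_nonneg (sub_nonneg.mpr e1) (sub_nonneg.mpr e2)]
      · rw [h]; nlinarith
      · have e1 := hr x ⟨h, hx.2⟩
        have e2 := hp hyI hxI h.le
        nlinarith [mul_nonneg (sub_nonneg.mpr e1) (sub_nonneg.mpr e2)]
  rw [intervalIntegral.integral_sub hMp2 (hM2.const_mul _),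
    intervalIntegral.integral_sub (hpi2.const_mul _) (by simp),
    intervalIntegral.integral_const_mul, intervalIntegral.integral_const_mul,
    intervalIntegral.integral_const, smul_eq_mul, hz] at hmain
  have e3 : p y2 * ((b - z) / (b - a)) = (b - z) * (1 / (b - a) * p y2) := by ring
  linarith

end
end Pool.H611.BS
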