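import Mathlib
import Pool.Agent.Helper611.BS.C2

set_option autoImplicit false

namespace Pool.H611.BS
open MeasureTheory
noncomputable section

lemma arith_core (αP αQ βP βQ α'P α'Q β'P β'Q : ℝ) (h1 : 0 ≤ α'P) (h2 : α'P ≤ αP)
    (h3 : 0 ≤ α'Q) (h4 : α'Q ≤ αQ) (h5 : 0 ≤ β'P) (h6 : β'P ≤ βP) (h7 : 0 ≤ β'Q) (h8 : β'Q ≤ βQ) :
    0 ≤ (α'P - β'P) * (α'Q - β'Q) + (α'P - β'P) * (βQ - αQ) + (α'Q - β'Q) * (βP - αP)
      + αP * αQ + βP * βQ := by
  have key : (α'P - β'P) * (α'Q - β'Q) + (α'P - β'P) * (βQ - αQ) + (α'Q - β'Q) * (βP - αP)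
      + αP * αQ + βP * βQ = ((α'P - β'P) + (βP - αP)) * ((α'Q - β'Q) + (βQ - αQ))
      + βP * αQ + αP * βQ := by ring
  rw [key]
  set X := (α'P - β'P) + (βP - αP) with hX
  set Y := (α'Q - β'Q) + (βQ - αQ) with hY
  have hX1 : -αP ≤ X := by rw [hX]; linarith
  have hX2 : X ≤ βP := by rw [hX]; linarith
  have hY1 : -αQ ≤ Y := by rw [hY]; linarith
  have hY2 : Y ≤ βQ := by rw [hY]; linarith
  have hαP : 0 ≤ αP := le_trans h1 h2
  have hαQ : 0 ≤ αQ := le_trans h3 h4
  have hβP : 0 ≤ βP := le_trans h5 h6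
  have hβQ : 0 ≤ βQ := le_trans h7 h8
  rcases le_total 0 X with hx | hx <;> rcases le_total 0 Y with hy | hy
  · have := mul_nonneg hx hy
    nlinarith [mul_nonneg hβP hαQ, mul_nonneg hαP hβQ]
  · -- X ≥ 0 ≥ Y : X*Y ≥ βP * (-αQ)
    have h9 : 0 ≤ (βP - X) * (-Y) := mul_nonneg (by linarith) (by linarith)
    have h10 : 0 ≤ βP * (Y + αQ) := mul_nonneg hβP (by linarith)
    nlinarith [mul_nonneg hαP hβQ]
  · have h9 : 0 ≤ (-X) * (βQ - Y) := mul_nonneg (by linarith) (by linarith)
    have h10 : 0 ≤ (X + αP) * βQ := mul_nonneg (by linarith) hβQ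
    nlinarith [mul_nonneg hβP hαQ]
  · have : 0 ≤ X * Y := mul_nonneg_of_nonpos_of_nonpos hx hy
    nlinarith [mul_nonneg hβP hαQ, mul_nonneg hαP hβQ]

/-- mixed Chebyshev inequality -/
lemma mixed_chebyshev (a b : ℝ) (hab : a < b) (M : ℝ → ℝ)
    (hM : IntervalIntegrable M volume a b) (hM0 : ∀ x ∈ Set.Icc a b, 0 ≤ M x)
    (hM1 : ∫ x in a..b, M x = 1)
    (y1 z y2 : ℝ) (ha1 : a ≤ y1) (h1z : y1 ≤ z) (hz2 : z ≤ y2) (h2b : y2 ≤ b)
    (hl : ∀ x ∈ Set.Ioo a y1, M x ≤ 1 / (b - a))
    (hmid : ∀ x ∈ Set.Ioo y1 y2, 1 / (b - a) ≤ M x)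
    (hr : ∀ x ∈ Set.Ioo y2 b, M x ≤ 1 / (b - a))
    (hz : ∫ x in a..z, M x = (z - a) / (b - a))
    (P Q : ℝ → ℝ) (hP : MonotoneOn P (Set.Icc a b)) (hQ : MonotoneOn Q (Set.Icc a b))
    (hPc : ContinuousOn P (Set.Icc a b)) (hQc : ContinuousOn Q (Set.Icc a b))
    (hP0 : ∫ x in a..b, M x * P x = 0) (hQ0 : ∫ x in a..b, M x * Q x = 0) :
    0 ≤ ∫ x in a..b, P x * Q x := by
  have hL : 0 < b - a := by linarith
  have haz : a ≤ z := le_trans ha1 h1z
  have hzb : z ≤ b := le_trans hz2 h2b
  have hzmem : z ∈ Set.Icc a b := ⟨haz, hzb⟩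
  have hmin : ∀ x ∈ Set.Icc a b, min x z ∈ Set.Icc a b := fun x hx =>
    ⟨le_min hx.1 haz, le_trans (min_le_left _ _) hx.2⟩
  have hmax : ∀ x ∈ Set.Icc a b, max x z ∈ Set.Icc a b := fun x hx =>
    ⟨le_trans hx.1 (le_max_left _ _), max_le hx.2 hzb⟩
  -- general facts for a monotone continuous centred function
  have facts : ∀ R : ℝ → ℝ, MonotoneOn R (Set.Icc a b) → ContinuousOn R (Set.Icc a b) →
      (∫ x in a..b, M x * R x = 0) →
      ContinuousOn (fun x => R z - R (min x z)) (Set.Icc a b) ∧
      ContinuousOn (fun x => R (max x z) - R z) (Set.Icc a b) ∧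
      AntitoneOn (fun x => R z - R (min x z)) (Set.Icc a b) ∧
      MonotoneOn (fun x => R (max x z) - R z) (Set.Icc a b) ∧
      (0 ≤ ∫ x in a..b, M x * (R z - R (min x z))) ∧
      (∫ x in a..b, M x * (R z - R (min x z)) ≤ (1 / (b - a)) * ∫ x in a..b, (R z - R (min x z))) ∧
      (0 ≤ ∫ x in a..b, M x * (R (max x z) - R z)) ∧
      (∫ x in a..b, M x * (R (max x z) - R z) ≤ (1 / (b - a)) * ∫ x in a..b, (R (max x z) - R z)) ∧
      R z = (∫ x in a..b, M x * (R z - R (min x z))) - ∫ x in a..b, M x * (R (max x z) - R z) := by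
    intro R hR hRc hR0
    have c1 : ContinuousOn (fun x => R z - R (min x z)) (Set.Icc a b) := by
      apply ContinuousOn.sub continuousOn_const
      exact hRc.comp (by fun_prop) hmin
    have c2 : ContinuousOn (fun x => R (max x z) - R z) (Set.Icc a b) := by
      apply ContinuousOn.sub _ continuousOn_const
      exact hRc.comp (by fun_prop) hmax
    have m1 : AntitoneOn (fun x => R z - R (min x z)) (Set.Icc a b) := by
      intro x hx y hy hxy
      have := hR (hmin x hx) (hmin y hy) (min_le_min_right z hxy)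
      simp only; linarith
    have m2 : MonotoneOn (fun x => R (max x z) - R z) (Set.Icc a b) := by
      intro x hx y hy hxy
      have := hR (hmax x hx) (hmax y hy) (max_le_max_right z hxy)
      simp only; linarith
    have n1 : ∀ x ∈ Set.Icc a b, 0 ≤ R z - R (min x z) := fun x hx => by
      have := hR (hmin x hx) hzmem (min_le_right x z)
      linarith
    have n2 : ∀ x ∈ Set.Icc a b, 0 ≤ R (max x z) - R z := fun x hx => by
      have := hR hzmem (hmax x hx) (le_max_right x z)
      linarith
    have i1 : IntervalIntegrable (fun x => M x * (R z - R (min x z))) volume a b :=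
      hM.mul_continuousOn (by rwa [Set.uIcc_of_le hab.le])
    have i2 : IntervalIntegrable (fun x => M x * (R (max x z) - R z)) volume a b :=
      hM.mul_continuousOn (by rwa [Set.uIcc_of_le hab.le])
    have z2 : ∫ x in z..b, M x = (b - z) / (b - a) := by
      have h1 : IntervalIntegrable M volume a z := hM.mono_set (by
        rw [Set.uIcc_of_le haz, Set.uIcc_of_le hab.le]; exact Set.Icc_subset_Icc_right hzb)
      have h2 : IntervalIntegrable M volume z b := hM.mono_set (by
        rw [Set.uIcc_of_le hzb, Set.uIcc_of_le hab.le]; exact Set.Icc_subset_Icc_left haz)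
      have h3 := intervalIntegral.integral_add_adjacent_intervals h1 h2
      rw [hM1, hz] at h3
      have h4 : ∫ x in z..b, M x = 1 - (z - a) / (b - a) := by linarith
      rw [h4]; field_simp; ring
    refine ⟨c1, c2, m1, m2, ?_, ?_, ?_, ?_, ?_⟩
    · exact intervalIntegral.integral_nonneg hab.le (fun x hx => mul_nonneg (hM0 x hx) (n1 x hx))
    · exact compare_left a b hab M hM y1 z ha1 h1z hzb hl
        (fun x hx => hmid x ⟨hx.1, lt_of_lt_of_le hx.2 hz2⟩) hz _ m1 c1 (fun x hx => by
          simp [min_eq_right hx.1])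
    · exact intervalIntegral.integral_nonneg hab.le (fun x hx => mul_nonneg (hM0 x hx) (n2 x hx))
    · exact compare_right a b hab M hM z y2 haz hz2 h2b
        (fun x hx => hmid x ⟨lt_of_le_of_lt h1z hx.1, hx.2⟩) hr z2 _ m2 c2 (fun x hx => by
          simp [max_eq_right hx.2])
    · rw [← intervalIntegral.integral_sub i1 i2]
      have h5 : ∀ x, M x * (R z - R (min x z)) - M x * (R (max x z) - R z)
          = R z * M x - M x * R x := by
        intro x
        rcases le_total x z with h | h
        · rw [min_eq_left h, max_eq_right h]; ring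
        · rw [min_eq_right h, max_eq_left h]; ring
      simp_rw [h5]
      have i3 : IntervalIntegrable (fun x => R z * M x) volume a b := hM.const_mul _
      have i4 : IntervalIntegrable (fun x => M x * R x) volume a b :=
        hM.mul_continuousOn (by rwa [Set.uIcc_of_le hab.le])
      rw [intervalIntegral.integral_sub i3 i4, intervalIntegral.integral_const_mul, hM1, hR0]
      ring
  obtain ⟨pc1, pc2, pm1, pm2, p1, p2, p3, p4, p5⟩ := facts P hP hPc hP0
  obtain ⟨qc1, qc2, qm1, qm2, q1, q2, q3, q4, q5⟩ := facts Q hQ hQc hQ0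
  have chL := chebyshev_mono a b hab (fun x => -(P z - P (min x z))) (fun x => -(Q z - Q (min x z)))
    (fun x hx y hy hxy => neg_le_neg (pm1 hx hy hxy)) (fun x hx y hy hxy => neg_le_neg (qm1 hx hy hxy))
    pc1.neg qc1.neg
  have chR := chebyshev_mono a b hab (fun x => (P (max x z) - P z)) (fun x => (Q (max x z) - Q z))
    pm2 qm2 pc2 qc2
  rw [intervalIntegral.integral_neg, intervalIntegral.integral_neg] at chL
  simp only [neg_mul_neg] at chL
  have hu : Set.uIcc a b = Set.Icc a b := Set.uIcc_of_le hab.le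
  have ipL : IntervalIntegrable (fun x => P z - P (min x z)) volume a b :=
    ContinuousOn.intervalIntegrable (by rwa [hu])
  have ipR : IntervalIntegrable (fun x => P (max x z) - P z) volume a b :=
    ContinuousOn.intervalIntegrable (by rwa [hu])
  have iqL : IntervalIntegrable (fun x => Q z - Q (min x z)) volume a b :=
    ContinuousOn.intervalIntegrable (by rwa [hu])
  have iqR : IntervalIntegrable (fun x => Q (max x z) - Q z) volume a b :=
    ContinuousOn.intervalIntegrable (by rwa [hu])
  have iLL : IntervalIntegrable (fun x => (P z - P (min x z)) * (Q z - Q (min x z))) volume a b :=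
    ContinuousOn.intervalIntegrable (by rw [hu]; exact pc1.mul qc1)
  have iRR : IntervalIntegrable (fun x => (P (max x z) - P z) * (Q (max x z) - Q z)) volume a b :=
    ContinuousOn.intervalIntegrable (by rw [hu]; exact pc2.mul qc2)
  have expand : ∀ x, P x * Q x = P z * Q z + P z * (Q (max x z) - Q z) - P z * (Q z - Q (min x z))
      + Q z * (P (max x z) - P z) - Q z * (P z - P (min x z))
      + (P z - P (min x z)) * (Q z - Q (min x z)) + (P (max x z) - P z) * (Q (max x z) - Q z) := by
    intro x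
    rcases le_total x z with h | h
    · rw [min_eq_left h, max_eq_right h]; ring
    · rw [min_eq_right h, max_eq_left h]; ring
  have hint : ∫ x in a..b, P x * Q x = (b - a) * (P z * Q z)
      + P z * (∫ x in a..b, (Q (max x z) - Q z)) - P z * (∫ x in a..b, (Q z - Q (min x z)))
      + Q z * (∫ x in a..b, (P (max x z) - P z)) - Q z * (∫ x in a..b, (P z - P (min x z)))
      + (∫ x in a..b, (P z - P (min x z)) * (Q z - Q (min x z)))
      + (∫ x in a..b, (P (max x z) - P z) * (Q (max x z) - Q z)) := by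
    have e1 : IntervalIntegrable (fun _ : ℝ => P z * Q z) volume a b := intervalIntegrable_const
    have e2 : IntervalIntegrable (fun x => P z * (Q (max x z) - Q z)) volume a b := iqR.const_mul _
    have e3 : IntervalIntegrable (fun x => P z * (Q z - Q (min x z))) volume a b := iqL.const_mul _
    have e4 : IntervalIntegrable (fun x => Q z * (P (max x z) - P z)) volume a b := ipR.const_mul _
    have e5 : IntervalIntegrable (fun x => Q z * (P z - P (min x z))) volume a b := ipL.const_mul _
    rw [intervalIntegral.integral_congr (fun x _ => expand x)]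
    rw [intervalIntegral.integral_add (((((e1.add e2).sub e3).add e4).sub e5).add iLL) iRR,
      intervalIntegral.integral_add ((((e1.add e2).sub e3).add e4).sub e5) iLL,
      intervalIntegral.integral_sub (((e1.add e2).sub e3).add e4) e5,
      intervalIntegral.integral_add ((e1.add e2).sub e3) e4,
      intervalIntegral.integral_sub (e1.add e2) e3,
      intervalIntegral.integral_add e1 e2]
    simp only [intervalIntegral.integral_const_mul, intervalIntegral.integral_const, smul_eq_mul]
    ring
  have ar := arith_core _ _ _ _ _ _ _ _ p1 p2 q1 q2 p3 p4 q3 q4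
  rw [← p5, ← q5] at ar
  rw [hint]
  set A := ∫ x in a..b, (P z - P (min x z)) with hA
  set B := ∫ x in a..b, (P (max x z) - P z) with hB
  set C := ∫ x in a..b, (Q z - Q (min x z)) with hC
  set D := ∫ x in a..b, (Q (max x z) - Q z) with hD
  set E := ∫ x in a..b, (P z - P (min x z)) * (Q z - Q (min x z)) with hE
  set F := ∫ x in a..b, (P (max x z) - P z) * (Q (max x z) - Q z) with hF
  have ar2 := mul_nonneg hL.le ar
  have e6 : (b - a) * (P z * Q z + P z * (1 / (b - a) * D - 1 / (b - a) * C)
      + Q z * (1 / (b - a) * B - 1 / (b - a) * A) + 1 / (b - a) * A * (1 / (b - a) * C)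
      + 1 / (b - a) * B * (1 / (b - a) * D))
      = (b - a) * (P z * Q z) + P z * D - P z * C + Q z * B - Q z * A + A * C / (b - a)
        + B * D / (b - a) := by
    have hne : b - a ≠ 0 := hL.ne'
    clear_value A B C D E F
    generalize b - a = L at *
    field_simp
    ring
  rw [e6] at ar2
  have f1 : A * C / (b - a) ≤ E := by
    rw [div_le_iff₀ hL]; nlinarith [chL]
  have f2 : B * D / (b - a) ≤ F := by
    rw [div_le_iff₀ hL]; nlinarith [chR]
  linarith

end
end Pool.H611.BS
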