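import Mathlib

set_option autoImplicit false

namespace Pool.H611.BS
open MeasureTheory
noncomputable section

/-- `C^m` on the line with `m`-th derivative monotone on `[-1,1]`. -/
def Mon (m : ℕ) (P : ℝ → ℝ) : Prop :=
  ContDiff ℝ (m : WithTop ℕ∞) P ∧ MonotoneOn (iteratedDeriv m P) (Set.Icc (-1 : ℝ) 1)


end
end Pool.H611.BS
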