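import Mathlib

set_option autoImplicit false

namespace Pool.H611.BS
noncomputable section

/-- the hat function (not normalised) with knots `a < m < b` -/
def hat (a m b x : ℝ) : ℝ := min ((x - a) / (m - a)) ((b - x) / (b - m))

end
end Pool.H611.BS
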