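import Mathlib

set_option autoImplicit false

namespace Pool.H611.BS
open MeasureTheory
noncomputable section

lemma lip_cont (S : Set ℝ) (g : ℝ → ℝ) (hg : ∀ x ∈ S, ∀ y ∈ S, |g x - g y| ≤ |x - y|) :
    ContinuousOn g S := by
  have : LipschitzOnWith 1 g S := by
    apply LipschitzOnWith.of_dist_le_mul
    intro x hx y hy
    rw [Real.dist_eq, Real.dist_eq, NNReal.coe_one, one_mul]
    exact hg x hx y hy
  exact this.continuousOn

/-- pointwise bound outside the support, abstract form -/
lemma outside_bound (a b : ℝ) (hab : a < b) (ha : -1 ≤ a) (hb : b ≤ 1) (M : ℝ → ℝ)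
    (hM : IntervalIntegrable M volume a b) (hM0 : ∀ x ∈ Set.Icc a b, 0 ≤ M x)
    (hM1 : ∫ x in a..b, M x = 1) (g : ℝ → ℝ)
    (hg : ∀ x ∈ Set.Icc (-1 : ℝ) 1, ∀ y ∈ Set.Icc (-1 : ℝ) 1, |g x - g y| ≤ |x - y|)
    (hg0 : ∫ x in a..b, M x * g x = 0) (c : ℝ) (hc : ∫ x in a..b, M x * x = c) :
    (∀ x ∈ Set.Icc (-1 : ℝ) a, |g x| ≤ |x - c|) ∧ (∀ x ∈ Set.Icc b (1 : ℝ), |g x| ≤ |x - c|) := by
  have hsub : Set.Icc a b ⊆ Set.Icc (-1 : ℝ) 1 := Set.Icc_subset_Icc ha hb
  have hgc : ContinuousOn g (Set.Icc a b) := (lip_cont _ g hg).mono hsub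
  have hgc' : ContinuousOn g (Set.uIcc a b) := by rwa [Set.uIcc_of_le hab.le]
  have hMg : IntervalIntegrable (fun s => M s * g s) volume a b := hM.mul_continuousOn hgc'
  have hMs : IntervalIntegrable (fun s => M s * s) volume a b := hM.mul_continuousOn continuousOn_id
  have key : ∀ x : ℝ, ∫ s in a..b, M s * (g x - g s) = g x := by
    intro x
    have e : (fun s => M s * (g x - g s)) = fun s => M s * g x - M s * g s := by
      funext s; ring
    rw [e, intervalIntegral.integral_sub (hM.mul_const _) hMg, hg0,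
      intervalIntegral.integral_mul_const, hM1]
    ring
  have hint : ∀ x : ℝ, IntervalIntegrable (fun s => M s * (g x - g s)) volume a b := by
    intro x
    have e : (fun s => M s * (g x - g s)) = fun s => M s * g x - M s * g s := by
      funext s; ring
    rw [e]
    exact (hM.mul_const _).sub hMg
  have hlin : ∀ x : ℝ, ∫ s in a..b, M s * (s - x) = c - x := by
    intro x
    have e : (fun s => M s * (s - x)) = fun s => M s * s - M s * x := by
      funext s; ring
    rw [e, intervalIntegral.integral_sub hMs (hM.mul_const _), hc,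
      intervalIntegral.integral_mul_const, hM1]
    ring
  have hlint : ∀ x : ℝ, IntervalIntegrable (fun s => M s * (s - x)) volume a b := by
    intro x
    have e : (fun s => M s * (s - x)) = fun s => M s * s - M s * x := by
      funext s; ring
    rw [e]
    exact hMs.sub (hM.mul_const _)
  constructor
  · intro x hx
    have hx1 : x ∈ Set.Icc (-1 : ℝ) 1 := ⟨hx.1, by linarith [hx.2]⟩
    have hle : g x ≤ c - x := by
      rw [← key x, ← hlin x]
      refine intervalIntegral.integral_mono_on hab.le (hint x) (hlint x) fun s hs => ?_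
      apply mul_le_mul_of_nonneg_left _ (hM0 s hs)
      have h1 := hg x hx1 s (hsub hs)
      rw [abs_sub_comm x s, abs_of_nonneg (by linarith [hx.2, hs.1] : 0 ≤ s - x)] at h1
      exact (abs_le.1 h1).2
    have hge : -(c - x) ≤ g x := by
      rw [← hlin x, ← intervalIntegral.integral_neg]
      nth_rewrite 1 [← key x]
      refine intervalIntegral.integral_mono_on hab.le (hlint x).neg (hint x) fun s hs => ?_
      rw [← mul_neg]
      apply mul_le_mul_of_nonneg_left _ (hM0 s hs)
      have h1 := hg x hx1 s (hsub hs)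
      rw [abs_sub_comm x s, abs_of_nonneg (by linarith [hx.2, hs.1] : 0 ≤ s - x)] at h1
      exact (abs_le.1 h1).1
    calc |g x| ≤ c - x := abs_le.2 ⟨hge, hle⟩
      _ ≤ |c - x| := le_abs_self _
      _ = |x - c| := abs_sub_comm _ _
  · intro x hx
    have hx1 : x ∈ Set.Icc (-1 : ℝ) 1 := ⟨by linarith [hx.1], hx.2⟩
    have hlin' : ∫ s in a..b, M s * (x - s) = x - c := by
      have e : (fun s => M s * (x - s)) = fun s => -(M s * (s - x)) := by
        funext s; ring
      rw [e, intervalIntegral.integral_neg, hlin x]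
      ring
    have hlint' : IntervalIntegrable (fun s => M s * (x - s)) volume a b := by
      have e : (fun s => M s * (x - s)) = fun s => -(M s * (s - x)) := by
        funext s; ring
      rw [e]
      exact (hlint x).neg
    have hle : g x ≤ x - c := by
      rw [← hlin']
      nth_rewrite 1 [← key x]
      refine intervalIntegral.integral_mono_on hab.le (hint x) hlint' fun s hs => ?_
      apply mul_le_mul_of_nonneg_left _ (hM0 s hs)
      have h1 := hg x hx1 s (hsub hs)
      rw [abs_of_nonneg (by linarith [hx.1, hs.2] : 0 ≤ x - s)] at h1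
      exact (abs_le.1 h1).2
    have hge : -(x - c) ≤ g x := by
      rw [← hlin', ← intervalIntegral.integral_neg]
      nth_rewrite 1 [← key x]
      refine intervalIntegral.integral_mono_on hab.le hlint'.neg (hint x) fun s hs => ?_
      rw [← mul_neg]
      apply mul_le_mul_of_nonneg_left _ (hM0 s hs)
      have h1 := hg x hx1 s (hsub hs)
      rw [abs_of_nonneg (by linarith [hx.1, hs.2] : 0 ≤ x - s)] at h1
      exact (abs_le.1 h1).1
    calc |g x| ≤ x - c := abs_le.2 ⟨hge, hle⟩
      _ ≤ |x - c| := le_abs_self _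

/-- the inside inequality from the mixed Chebyshev inequality -/
lemma inside_bound (a b : ℝ) (hab : a < b) (M : ℝ → ℝ)
    (hM : IntervalIntegrable M volume a b)
    (hM1 : ∫ x in a..b, M x = 1)
    (hcheb : ∀ P Q : ℝ → ℝ, MonotoneOn P (Set.Icc a b) → MonotoneOn Q (Set.Icc a b) →
      ContinuousOn P (Set.Icc a b) → ContinuousOn Q (Set.Icc a b) →
      ∫ x in a..b, M x * P x = 0 → ∫ x in a..b, M x * Q x = 0 → 0 ≤ ∫ x in a..b, P x * Q x)
    (g : ℝ → ℝ)
    (hg : ∀ x ∈ Set.Icc a b, ∀ y ∈ Set.Icc a b, |g x - g y| ≤ |x - y|)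
    (hg0 : ∫ x in a..b, M x * g x = 0) (c : ℝ) (hc : ∫ x in a..b, M x * x = c) :
    ∫ x in a..b, (g x) ^ 2 ≤ ∫ x in a..b, (x - c) ^ 2 := by
  have hgc : ContinuousOn g (Set.Icc a b) := lip_cont _ g hg
  have hgc' : ContinuousOn g (Set.uIcc a b) := by rwa [Set.uIcc_of_le hab.le]
  have hMg : IntervalIntegrable (fun s => M s * g s) volume a b := hM.mul_continuousOn hgc'
  have hMs : IntervalIntegrable (fun s => M s * s) volume a b := hM.mul_continuousOn continuousOn_id
  have hlin : ∫ s in a..b, M s * (s - c) = 0 := by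
    have e : (fun s => M s * (s - c)) = fun s => M s * s - M s * c := by
      funext s; ring
    rw [e, intervalIntegral.integral_sub hMs (hM.mul_const _), hc,
      intervalIntegral.integral_mul_const, hM1]
    ring
  have hlint : IntervalIntegrable (fun s => M s * (s - c)) volume a b := by
    have e : (fun s => M s * (s - c)) = fun s => M s * s - M s * c := by
      funext s; ring
    rw [e]
    exact hMs.sub (hM.mul_const _)
  have hP := hcheb (fun x => (x - c) - g x) (fun x => (x - c) + g x) ?_ ?_ ?_ ?_ ?_ ?_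
  · have e : (fun x => ((x - c) - g x) * ((x - c) + g x)) = fun x => (x - c) ^ 2 - (g x) ^ 2 := by
      funext x; ring
    rw [e, intervalIntegral.integral_sub] at hP
    · linarith
    · exact (by fun_prop : Continuous fun x : ℝ => (x - c) ^ 2).intervalIntegrable _ _
    · exact (hgc'.pow 2).intervalIntegrable
  · intro x hx y hy hxy
    have h1 := hg y hy x hx
    rw [abs_of_nonneg (by linarith : 0 ≤ y - x)] at h1
    have h2 := (abs_le.1 h1).2
    simp only
    linarith
  · intro x hx y hy hxy
    have h1 := hg y hy x hx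
    rw [abs_of_nonneg (by linarith : 0 ≤ y - x)] at h1
    have h2 := (abs_le.1 h1).1
    simp only
    linarith
  · exact (continuousOn_id.sub continuousOn_const).sub hgc
  · exact (continuousOn_id.sub continuousOn_const).add hgc
  · have e : (fun x => M x * ((x - c) - g x)) = fun x => M x * (x - c) - M x * g x := by
      funext x; ring
    rw [e, intervalIntegral.integral_sub hlint hMg, hlin, hg0]
    ring
  · have e : (fun x => M x * ((x - c) + g x)) = fun x => M x * (x - c) + M x * g x := by
      funext x; ring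
    rw [e, intervalIntegral.integral_add hlint hMg, hlin, hg0]
    ring

/-- gluing -/
lemma glue (a b : ℝ) (hab : a < b) (ha : -1 ≤ a) (hb : b ≤ 1) (g : ℝ → ℝ) (c : ℝ)
    (hgc : Continuous g)
    (h1 : ∀ x ∈ Set.Icc (-1 : ℝ) a, |g x| ≤ |x - c|) (h2 : ∀ x ∈ Set.Icc b (1 : ℝ), |g x| ≤ |x - c|)
    (h3 : ∫ x in a..b, (g x) ^ 2 ≤ ∫ x in a..b, (x - c) ^ 2) :
    ∫ x in (-1 : ℝ)..1, (g x) ^ 2 ≤ ∫ x in (-1 : ℝ)..1, (x - c) ^ 2 := by
  have i1 : ∀ u v : ℝ, IntervalIntegrable (fun x => (g x) ^ 2) volume u v := fun u v =>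
    (hgc.pow 2).intervalIntegrable _ _
  have i2 : ∀ u v : ℝ, IntervalIntegrable (fun x : ℝ => (x - c) ^ 2) volume u v := fun u v =>
    (by fun_prop : Continuous fun x : ℝ => (x - c) ^ 2).intervalIntegrable _ _
  rw [← intervalIntegral.integral_add_adjacent_intervals (i1 (-1) a) (i1 a 1),
    ← intervalIntegral.integral_add_adjacent_intervals (i1 a b) (i1 b 1),
    ← intervalIntegral.integral_add_adjacent_intervals (i2 (-1) a) (i2 a 1),
    ← intervalIntegral.integral_add_adjacent_intervals (i2 a b) (i2 b 1)]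
  have b1 : ∫ x in (-1 : ℝ)..a, (g x) ^ 2 ≤ ∫ x in (-1 : ℝ)..a, (x - c) ^ 2 :=
    intervalIntegral.integral_mono_on ha (i1 _ _) (i2 _ _) fun x hx => sq_le_sq.2 (h1 x hx)
  have b2 : ∫ x in b..(1 : ℝ), (g x) ^ 2 ≤ ∫ x in b..(1 : ℝ), (x - c) ^ 2 :=
    intervalIntegral.integral_mono_on hb (i1 _ _) (i2 _ _) fun x hx => sq_le_sq.2 (h2 x hx)
  linarith

end
end Pool.H611.BS
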