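import Mathlib

set_option autoImplicit false

namespace Pool.H611.BS
open MeasureTheory
noncomputable section

/-- From quasi-concavity of the density to the level points used in the mixed Chebyshev
inequality. -/
lemma level_points (a b : ℝ) (hab : a < b) (M : ℝ → ℝ) (hMc : ContinuousOn M (Set.Icc a b))
    (hM1 : ∫ x in a..b, M x = 1)
    (hq : ∀ c > 0, ∀ s1 s2 s3 : ℝ, s1 ∈ Set.Icc a b → s2 ∈ Set.Icc a b → s3 ∈ Set.Icc a b →
      s1 < s2 → s2 < s3 → c ≤ M s1 → c ≤ M s3 → c ≤ M s2) :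
    ∃ y1 z y2 : ℝ, a ≤ y1 ∧ y1 ≤ z ∧ z ≤ y2 ∧ y2 ≤ b ∧
      (∀ x ∈ Set.Ioo a y1, M x ≤ 1 / (b - a)) ∧
      (∀ x ∈ Set.Ioo y1 y2, 1 / (b - a) ≤ M x) ∧
      (∀ x ∈ Set.Ioo y2 b, M x ≤ 1 / (b - a)) ∧
      ∫ x in a..z, M x = (z - a) / (b - a) := by
  obtain ⟨c, hcdef⟩ : ∃ c : ℝ, c = 1 / (b - a) := ⟨_, rfl⟩
  have hba : 0 < b - a := sub_pos.2 hab
  have hc0 : 0 < c := by rw [hcdef]; positivity
  have hcba : c * (b - a) = 1 := by rw [hcdef]; field_simp
  obtain ⟨S, hS⟩ : ∃ S : Set ℝ, S = Set.Icc a b ∩ M ⁻¹' Set.Ici c := ⟨_, rfl⟩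
  have hSc : IsCompact S := by
    rw [hS]
    exact isCompact_Icc.of_isClosed_subset
      (hMc.preimage_isClosed_of_isClosed isClosed_Icc isClosed_Ici) Set.inter_subset_left
  have hSne : S.Nonempty := by
    by_contra hne
    rw [Set.not_nonempty_iff_eq_empty] at hne
    have hlt : ∀ x ∈ Set.Icc a b, M x < c := by
      intro x hx
      by_contra hcon
      have : x ∈ S := by
        rw [hS]; exact ⟨hx, not_lt.1 hcon⟩
      rw [hne] at this
      exact this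
    have h1 : ∫ x in a..b, M x < ∫ _x in a..b, c :=
      intervalIntegral.integral_lt_integral_of_continuousOn_of_le_of_exists_lt hab hMc
        continuousOn_const (fun x hx => (hlt x ⟨hx.1.le, hx.2⟩).le)
        ⟨a, ⟨le_rfl, hab.le⟩, hlt a ⟨le_rfl, hab.le⟩⟩
    rw [hM1, intervalIntegral.integral_const, smul_eq_mul, mul_comm, hcba] at h1
    exact lt_irrefl _ h1
  have hmem : ∀ x, x ∈ S ↔ (a ≤ x ∧ x ≤ b) ∧ c ≤ M x := by
    intro x; rw [hS]; rfl
  obtain ⟨y1, hy1⟩ : ∃ y1, y1 = sInf S := ⟨_, rfl⟩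
  obtain ⟨y2, hy2⟩ : ∃ y2, y2 = sSup S := ⟨_, rfl⟩
  have hy1S : y1 ∈ S := by rw [hy1]; exact hSc.sInf_mem hSne
  have hy2S : y2 ∈ S := by rw [hy2]; exact hSc.sSup_mem hSne
  have h12 : y1 ≤ y2 := by rw [hy1]; exact csInf_le hSc.bddBelow hy2S
  obtain ⟨⟨ha1, h1b⟩, hM1'⟩ := (hmem _).1 hy1S
  obtain ⟨⟨ha2, h2b⟩, hM2'⟩ := (hmem _).1 hy2S
  have hI : ∀ x ∈ Set.Ioo a y1, M x ≤ c := by
    intro x hx
    by_contra hcon
    have hxS : x ∈ S := (hmem x).2 ⟨⟨hx.1.le, by linarith [hx.2]⟩, (not_le.1 hcon).le⟩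
    have := csInf_le hSc.bddBelow hxS
    rw [← hy1] at this
    linarith [hx.2]
  have hIII : ∀ x ∈ Set.Ioo y2 b, M x ≤ c := by
    intro x hx
    by_contra hcon
    have hxS : x ∈ S := (hmem x).2 ⟨⟨by linarith [hx.1], hx.2.le⟩, (not_le.1 hcon).le⟩
    have := le_csSup hSc.bddAbove hxS
    rw [← hy2] at this
    linarith [hx.1]
  have hII : ∀ x ∈ Set.Ioo y1 y2, c ≤ M x := by
    intro x hx
    exact hq c hc0 y1 x y2 ⟨ha1, h1b⟩ ⟨by linarith [hx.1], by linarith [hx.2]⟩ ⟨ha2, h2b⟩ hx.1 hx.2 hM1' hM2'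
  have hint : IntervalIntegrable M MeasureTheory.volume a b := by
    apply ContinuousOn.intervalIntegrable
    rwa [Set.uIcc_of_le hab.le]
  have hsub : ∀ u v, a ≤ u → u ≤ v → v ≤ b → IntervalIntegrable M MeasureTheory.volume u v := by
    intro u v h1 h2 h3
    apply ContinuousOn.intervalIntegrable
    rw [Set.uIcc_of_le h2]
    exact hMc.mono (Set.Icc_subset_Icc h1 h3)
  have hcont : ContinuousOn (fun x => (x - a) * c - ∫ t in a..x, M t) (Set.Icc y1 y2) := by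
    refine ContinuousOn.sub (by fun_prop) ?_
    have h5 : ContinuousOn (fun x => ∫ t in a..x, M t) (Set.uIcc a b) := by
      apply intervalIntegral.continuousOn_primitive_interval
      rw [Set.uIcc_of_le hab.le]
      exact hMc.integrableOn_compact isCompact_Icc
    rw [Set.uIcc_of_le hab.le] at h5
    exact h5.mono (Set.Icc_subset_Icc ha1 h2b)
  have hD1 : 0 ≤ (y1 - a) * c - ∫ t in a..y1, M t := by
    have h6 : ∫ t in a..y1, M t ≤ ∫ _t in a..y1, c :=
      intervalIntegral.integral_mono_on_of_le_Ioo ha1 (hsub a y1 le_rfl ha1 h1b)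
        intervalIntegrable_const hI
    rw [intervalIntegral.integral_const, smul_eq_mul] at h6
    linarith
  have hD2 : (y2 - a) * c - ∫ t in a..y2, M t ≤ 0 := by
    have h6 : ∫ t in y2..b, M t ≤ ∫ _t in y2..b, c :=
      intervalIntegral.integral_mono_on_of_le_Ioo h2b (hsub y2 b ha2 h2b le_rfl)
        intervalIntegrable_const hIII
    rw [intervalIntegral.integral_const, smul_eq_mul] at h6
    have h7 := intervalIntegral.integral_add_adjacent_intervals (hsub a y2 le_rfl ha2 h2b)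
      (hsub y2 b ha2 h2b le_rfl)
    rw [hM1] at h7
    nlinarith
  obtain ⟨z, hz, hz0⟩ := intermediate_value_Icc' h12 hcont ⟨hD2, hD1⟩
  refine ⟨y1, z, y2, ha1, hz.1, hz.2, h2b, ?_, ?_, ?_, ?_⟩
  · rw [← hcdef]; exact hI
  · rw [← hcdef]; exact hII
  · rw [← hcdef]; exact hIII
  · have h8 : (z - a) * c - ∫ t in a..z, M t = 0 := hz0
    rw [div_eq_mul_one_div, ← hcdef]
    linarith

end
end Pool.H611.BS
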