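import Mathlib

set_option autoImplicit false

namespace Pool.H611.BS
open MeasureTheory
noncomputable section

lemma tri_bound (a b : ℝ) (hab : a < b) (u : ℝ → ℝ)
    (hu : ∀ x ∈ Set.Icc a b, ∀ y ∈ Set.Icc a b, |u x - u y| ≤ |x - y|)
    (hu0 : ∀ x ∈ Set.Icc a b, 0 ≤ u x) (ξ : ℝ) (hξ : ξ ∈ Set.Icc a b) (hξ0 : u ξ = 0) :
    ∫ x in a..b, u x ≤ ((volume {x | x ∈ Set.Icc a b ∧ 0 < u x}).toReal) ^ 2 / 2 := by
  have hLip : LipschitzOnWith 1 u (Set.Icc a b) := by
    apply LipschitzOnWith.of_dist_le_mul
    intro x hx y hy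
    simpa [Real.dist_eq] using hu x hx y hy
  set v : ℝ → ℝ := Set.IccExtend hab.le (fun x : Set.Icc a b => u x) with hv
  have hvu : ∀ x ∈ Set.Icc a b, v x = u x := by
    intro x hx
    rw [hv, Set.IccExtend_of_mem hab.le _ hx]
  have hvc : Continuous v := by
    have := (continuousOn_iff_continuous_domRestrict.mp hLip.continuousOn)
    exact this.Icc_extend'
  have hv0 : ∀ x, 0 ≤ v x := by
    intro x
    exact hu0 _ (Set.projIcc a b hab.le x).2
  have hvLip : LipschitzOnWith 1 v (Set.Icc a b) := by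
    intro x hx y hy
    rw [hvu x hx, hvu y hy]
    exact hLip hx hy
  set m : ℝ := (volume {x | x ∈ Set.Icc a b ∧ 0 < u x}).toReal with hm
  have hm0 : 0 ≤ m := ENNReal.toReal_nonneg
  have hUeq : {x | x ∈ Set.Icc a b ∧ 0 < u x} = {x | 0 < v x} ∩ Set.Icc a b := by
    ext x
    constructor
    · rintro ⟨h1, h2⟩
      refine ⟨?_, h1⟩
      show 0 < v x
      rw [hvu x h1]; exact h2
    · rintro ⟨h2, h1⟩
      refine ⟨h1, ?_⟩
      rw [← hvu x h1]; exact h2
  have hfin : ∀ T : Set ℝ, T ⊆ Set.Icc a b → volume T ≠ ⊤ := by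
    intro T hT
    exact ne_top_of_le_ne_top (by simp) (measure_mono hT)
  have hint : ∫ x in a..b, u x = ∫ x, v x ∂(volume.restrict (Set.Icc a b)) := by
    rw [intervalIntegral.integral_of_le hab.le, ← integral_Icc_eq_integral_Ioc]
    exact setIntegral_congr_fun measurableSet_Icc (fun x hx => (hvu x hx).symm)
  have hvi : Integrable v (volume.restrict (Set.Icc a b)) :=
    (hvc.continuousOn).integrableOn_Icc
  rw [hint, hvi.integral_eq_integral_meas_lt (Filter.Eventually.of_forall hv0)]
  -- main claim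
  have hclaim : ∀ t : ℝ, 0 < t → (volume.restrict (Set.Icc a b)).real {x | t < v x} ≤
      (Set.Ioc 0 m).indicator (fun t => m - t) t := by
    intro t ht
    have hG : (volume.restrict (Set.Icc a b)).real {x | t < v x} =
        (volume ({x | t < v x} ∩ Set.Icc a b)).toReal := by
      rw [Measure.real, Measure.restrict_apply (measurableSet_lt measurable_const hvc.measurable)]
    rw [hG]
    rcases Set.eq_empty_or_nonempty ({x | t < v x} ∩ Set.Icc a b) with he | ⟨x, hx1, hx2⟩
    · rw [he]
      simp only [measure_empty, ENNReal.toReal_zero]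
      apply Set.indicator_nonneg
      intro s hs
      have := hs.2
      show 0 ≤ m - s
      linarith
    · have hF : ENNReal.ofReal t ≤ volume ({x | 0 < v x ∧ v x ≤ t} ∩ Set.Icc a b) := by
        have hsub : Set.Ioc 0 t ⊆ v '' ({x | 0 < v x ∧ v x ≤ t} ∩ Set.Icc a b) := by
          intro s hs
          have hivt := intermediate_value_uIcc (a := ξ) (b := x) (f := v) hvc.continuousOn
          have hvξ : v ξ = 0 := by rw [hvu ξ hξ, hξ0]
          have hmem : s ∈ Set.uIcc (v ξ) (v x) := by
            rw [hvξ, Set.uIcc_of_le (hv0 x)]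
            exact ⟨hs.1.le, hs.2.trans (le_of_lt hx1)⟩
          obtain ⟨y, hy, hys⟩ := hivt hmem
          refine ⟨y, ⟨⟨?_, ?_⟩, ?_⟩, hys⟩
          · rw [hys]; exact hs.1
          · rw [hys]; exact hs.2
          · exact Set.uIcc_subset_Icc hξ hx2 hy
        have h1 : volume (Set.Ioc 0 t) ≤ volume (v '' ({x | 0 < v x ∧ v x ≤ t} ∩ Set.Icc a b)) :=
          measure_mono hsub
        have h2 : volume (v '' ({x | 0 < v x ∧ v x ≤ t} ∩ Set.Icc a b)) ≤
            volume ({x | 0 < v x ∧ v x ≤ t} ∩ Set.Icc a b) := by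
          have := (hvLip.mono (Set.inter_subset_right (s := {x | 0 < v x ∧ v x ≤ t}))).hausdorffMeasure_image_le
            (d := 1) zero_le_one
          rw [hausdorffMeasure_real] at this
          simpa using this
        rw [Real.volume_Ioc, sub_zero] at h1
        exact h1.trans h2
      have hdisj : Disjoint ({x | 0 < v x ∧ v x ≤ t} ∩ Set.Icc a b) ({x | t < v x} ∩ Set.Icc a b) := by
        rw [Set.disjoint_left]
        rintro y ⟨⟨_, h1⟩, _⟩ ⟨h2, _⟩
        exact absurd h2 (not_lt.mpr h1)
      have hunion : {x | x ∈ Set.Icc a b ∧ 0 < u x} =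
          ({x | 0 < v x ∧ v x ≤ t} ∩ Set.Icc a b) ∪ ({x | t < v x} ∩ Set.Icc a b) := by
        rw [hUeq]
        ext y
        constructor
        · rintro ⟨h1, h2⟩
          rcases le_or_gt (v y) t with h3 | h3
          · exact Or.inl ⟨⟨h1, h3⟩, h2⟩
          · exact Or.inr ⟨h3, h2⟩
        · rintro (⟨⟨h1, _⟩, h2⟩ | ⟨h1, h2⟩)
          · exact ⟨h1, h2⟩
          · exact ⟨lt_trans ht h1, h2⟩
      have hmeas : MeasurableSet ({x | t < v x} ∩ Set.Icc a b) :=
        (measurableSet_lt measurable_const hvc.measurable).inter measurableSet_Icc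
      have hmm : m = (volume ({x | 0 < v x ∧ v x ≤ t} ∩ Set.Icc a b)).toReal +
          (volume ({x | t < v x} ∩ Set.Icc a b)).toReal := by
        rw [hm, hunion, measure_union hdisj hmeas, ENNReal.toReal_add
          (hfin _ Set.inter_subset_right) (hfin _ Set.inter_subset_right)]
      have hFr : t ≤ (volume ({x | 0 < v x ∧ v x ≤ t} ∩ Set.Icc a b)).toReal := by
        rw [ENNReal.ofReal_le_iff_le_toReal (hfin _ Set.inter_subset_right)] at hF
        exact hF
      have hGn : 0 ≤ (volume ({x | t < v x} ∩ Set.Icc a b)).toReal := ENNReal.toReal_nonneg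
      rw [Set.indicator_of_mem (show t ∈ Set.Ioc 0 m from ⟨ht, by linarith⟩)]
      linarith
  have hgint : IntegrableOn ((Set.Ioc 0 m).indicator (fun t => m - t)) (Set.Ioi 0) := by
    apply Integrable.integrableOn
    rw [integrable_indicator_iff measurableSet_Ioc]
    exact (Continuous.integrableOn_Ioc (by fun_prop))
  calc ∫ t in Set.Ioi (0 : ℝ), (volume.restrict (Set.Icc a b)).real {x | t < v x}
      ≤ ∫ t in Set.Ioi (0 : ℝ), (Set.Ioc 0 m).indicator (fun t => m - t) t := by
        apply integral_mono_of_nonneg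
        · exact Filter.Eventually.of_forall fun t => measureReal_nonneg
        · exact hgint
        · exact (ae_restrict_iff' measurableSet_Ioi).mpr (Filter.Eventually.of_forall hclaim)
    _ = ∫ t in Set.Ioc 0 m, (m - t) := by
        rw [setIntegral_indicator measurableSet_Ioc]
        congr 2
        ext x
        simp only [Set.mem_inter_iff, Set.mem_Ioi, Set.mem_Ioc]
        tauto
    _ = ∫ t in (0 : ℝ)..m, (m - t) := by rw [intervalIntegral.integral_of_le hm0]
    _ = m ^ 2 / 2 := by
        rw [intervalIntegral.integral_sub (by simp) (by simp), intervalIntegral.integral_const,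
          integral_id]
        simp only [smul_eq_mul]
        ring

end
end Pool.H611.BS

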