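import Mathlib

set_option autoImplicit false

namespace Pool.H611.BS
open MeasureTheory
noncomputable section

/-- the key hinge bound, from `tri_bound` given as a hypothesis -/
lemma hinge_bound
    (tri : ∀ (a b : ℝ) (hab : a < b) (u : ℝ → ℝ)
      (hu : ∀ x ∈ Set.Icc a b, ∀ y ∈ Set.Icc a b, |u x - u y| ≤ |x - y|)
      (hu0 : ∀ x ∈ Set.Icc a b, 0 ≤ u x) (ξ : ℝ) (hξ : ξ ∈ Set.Icc a b) (hξ0 : u ξ = 0),
      ∫ x in a..b, u x ≤ ((volume {x | x ∈ Set.Icc a b ∧ 0 < u x}).toReal) ^ 2 / 2)
    (a b : ℝ) (hab : a < b) (g : ℝ → ℝ)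
    (hg : ∀ x ∈ Set.Icc a b, ∀ y ∈ Set.Icc a b, |g x - g y| ≤ |x - y|)
    (hg0 : ∫ x in a..b, g x = 0) (t : ℝ) (ht : 0 ≤ t) :
    ∫ x in a..b, max (g x - t) 0 ≤ (max ((b - a) / 2 - t) 0) ^ 2 / 2 := by
  have hcont : ContinuousOn g (Set.Icc a b) := by
    intro x hx
    rw [Metric.continuousWithinAt_iff]
    intro ε hε
    refine ⟨ε, hε, fun {y} hy hyx => ?_⟩
    rw [Real.dist_eq] at hyx ⊢
    exact lt_of_le_of_lt (hg y hy x hx) hyx
  have hcont' : ContinuousOn g (Set.uIcc a b) := by rwa [Set.uIcc_of_le hab.le]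
  have hint : IntervalIntegrable g volume a b := hcont'.intervalIntegrable
  -- a zero of g
  obtain ⟨x1, hx1, hgx1⟩ : ∃ x ∈ Set.Icc a b, g x ≤ 0 := by
    by_contra hc
    push Not at hc
    have := intervalIntegral.intervalIntegral_pos_of_pos_on hint
      (fun x hx => hc x (Set.Ioo_subset_Icc_self hx)) hab
    linarith
  obtain ⟨x2, hx2, hgx2⟩ : ∃ x ∈ Set.Icc a b, 0 ≤ g x := by
    by_contra hc
    push Not at hc
    have := intervalIntegral.intervalIntegral_pos_of_pos_on hint.neg
      (fun x hx => by
        have := hc x (Set.Ioo_subset_Icc_self hx)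
        simp only [Pi.neg_apply]
        linarith) hab
    simp only [Pi.neg_apply, intervalIntegral.integral_neg] at this
    linarith
  obtain ⟨ξ0, hξ0, hgξ0⟩ : ∃ x ∈ Set.Icc a b, g x = 0 :=
    (isPreconnected_Icc.intermediate_value hx1 hx2 hcont) ⟨hgx1, hgx2⟩
  have h1 := tri a b hab (fun x => max (g x - t) 0)
    (fun x hx y hy => by
      refine (abs_max_sub_max_le_abs _ _ _).trans ?_
      have : g x - t - (g y - t) = g x - g y := by ring
      rw [this]
      exact hg x hx y hy)
    (fun x _ => le_max_right _ _) ξ0 hξ0 (by simp only [hgξ0]; exact max_eq_right (by linarith))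
  set h : ℝ := ∫ x in a..b, max (g x - t) 0 with hh
  rcases le_or_gt h 0 with hneg | hpos
  · exact hneg.trans (by positivity)
  obtain ⟨x3, hx3, hgx3⟩ : ∃ x ∈ Set.Icc a b, t < g x := by
    by_contra hc
    push Not at hc
    have : h = 0 := by
      rw [hh]
      rw [intervalIntegral.integral_congr (g := fun _ => (0 : ℝ))]
      · simp
      · intro x hx
        rw [Set.uIcc_of_le hab.le] at hx
        exact max_eq_right (by linarith [hc x hx])
    linarith
  obtain ⟨ξ1, hξ1, hgξ1⟩ : ∃ x ∈ Set.Icc a b, g x = t :=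
    (isPreconnected_Icc.intermediate_value hξ0 hx3 hcont) ⟨by linarith, hgx3.le⟩
  have h2 := tri a b hab (fun x => max (t - g x) 0)
    (fun x hx y hy => by
      refine (abs_max_sub_max_le_abs _ _ _).trans ?_
      have : t - g x - (t - g y) = g y - g x := by ring
      rw [this, abs_sub_comm]
      exact hg x hx y hy)
    (fun x _ => le_max_right _ _) ξ1 hξ1 (by simp only [hgξ1]; simp)
  have hcontu1 : ContinuousOn (fun x => max (g x - t) 0) (Set.uIcc a b) :=
    (hcont'.sub continuousOn_const).sup continuousOn_const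
  have hintu1 : IntervalIntegrable (fun x => max (g x - t) 0) volume a b :=
    hcontu1.intervalIntegrable
  have hu2 : ∫ x in a..b, max (t - g x) 0 = t * (b - a) + h := by
    have e1 : ∀ x, max (t - g x) 0 = (t - g x) + max (g x - t) 0 := by
      intro x
      rcases le_total (g x) t with hle | hle
      · rw [max_eq_left (by linarith), max_eq_right (by linarith)]; ring
      · rw [max_eq_right (by linarith), max_eq_left (by linarith)]; ring
    simp only [e1]
    rw [intervalIntegral.integral_add (intervalIntegrable_const.sub hint) hintu1,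
      intervalIntegral.integral_sub intervalIntegrable_const hint, hg0,
      intervalIntegral.integral_const, smul_eq_mul, ← hh]
    ring
  rw [hu2] at h2
  set A : Set ℝ := {x | x ∈ Set.Icc a b ∧ 0 < max (g x - t) 0} with hA
  set B : Set ℝ := {x | x ∈ Set.Icc a b ∧ 0 < max (t - g x) 0} with hB
  have hAB : (volume A).toReal + (volume B).toReal ≤ b - a := by
    have hAm : MeasurableSet A := by
      have hcl : IsClosed (Set.Icc a b ∩ g ⁻¹' Set.Iic t) :=
        hcont.preimage_isClosed_of_isClosed isClosed_Icc isClosed_Iic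
      have : A = Set.Icc a b \ (Set.Icc a b ∩ g ⁻¹' Set.Iic t) := by
        ext x
        simp only [hA, Set.mem_sdiff, Set.mem_inter_iff, Set.mem_preimage, Set.mem_Iic, not_and,
          not_le, lt_max_iff, lt_irrefl, or_false, sub_pos]
        constructor
        · rintro ⟨p, q⟩; exact ⟨p, fun _ => q⟩
        · rintro ⟨p, q⟩; exact ⟨p, q p⟩
      rw [this]
      exact measurableSet_Icc.diff hcl.measurableSet
    have hdisj : Disjoint A B := by
      rw [Set.disjoint_left]
      rintro x ⟨_, hx⟩ ⟨_, hx'⟩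
      rw [lt_max_iff] at hx hx'
      rcases hx with hx | hx
      · rcases hx' with hx' | hx'
        · linarith
        · exact lt_irrefl _ hx'
      · exact lt_irrefl _ hx
    have hsub : A ∪ B ⊆ Set.Icc a b := by
      rintro x (hx | hx)
      · exact hx.1
      · exact hx.1
    have hle : volume A + volume B ≤ ENNReal.ofReal (b - a) := by
      rw [← measure_union' hdisj hAm, ← Real.volume_Icc]
      exact measure_mono hsub
    have hAfin : volume A ≠ ⊤ := ne_top_of_le_ne_top ENNReal.ofReal_ne_top
      (le_self_add.trans hle)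
    have hBfin : volume B ≠ ⊤ := ne_top_of_le_ne_top ENNReal.ofReal_ne_top
      (le_add_self.trans hle)
    rw [← ENNReal.toReal_add hAfin hBfin, ← ENNReal.toReal_ofReal (sub_pos.mpr hab).le]
    exact ENNReal.toReal_mono ENNReal.ofReal_ne_top hle
  set m : ℝ := (volume A).toReal with hm
  set m' : ℝ := (volume B).toReal with hm'
  have hm0 : 0 ≤ m := ENNReal.toReal_nonneg
  have hm0' : 0 ≤ m' := ENNReal.toReal_nonneg
  set L : ℝ := b - a with hL
  have hLpos : 0 < L := sub_pos.mpr hab
  set r : ℝ := Real.sqrt (2 * h) with hr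
  have hr2 : r ^ 2 = 2 * h := Real.sq_sqrt (by linarith)
  have hr0 : 0 ≤ r := Real.sqrt_nonneg _
  have hrm : r ≤ m := by
    apply le_of_sq_le_sq _ hm0
    rw [hr2]
    linarith
  have h3 : m' ^ 2 ≤ (L - m) ^ 2 := pow_le_pow_left₀ hm0' (by linarith) 2
  have h4 : (L - m) ^ 2 ≤ (L - r) ^ 2 := pow_le_pow_left₀ (by linarith) (by linarith) 2
  have h5 : L * (2 * t) ≤ L * (L - 2 * r) := by nlinarith
  have h6 : 2 * t ≤ L - 2 * r := le_of_mul_le_mul_left h5 hLpos
  have h7 : r ≤ max (L / 2 - t) 0 := le_trans (by linarith) (le_max_left _ _)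
  have h8 : r ^ 2 ≤ (max (L / 2 - t) 0) ^ 2 := pow_le_pow_left₀ hr0 h7 2
  linarith

lemma hinge_value (a b : ℝ) (hab : a < b) (t : ℝ) (ht : 0 ≤ t) :
    ∫ x in a..b, max (|x - (a + b) / 2| - t) 0 = (max ((b - a) / 2 - t) 0) ^ 2 := by
  rw [intervalIntegral.integral_comp_sub_right (fun x => max (|x| - t) 0) ((a + b) / 2)]
  have e1 : a - (a + b) / 2 = -((b - a) / 2) := by ring
  have e2 : b - (a + b) / 2 = (b - a) / 2 := by ring
  rw [e1, e2]
  set H : ℝ := (b - a) / 2 with hH
  have hHpos : 0 < H := by rw [hH]; linarith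
  have hc : Continuous (fun x : ℝ => max (|x| - t) 0) :=
    (continuous_abs.sub continuous_const).max continuous_const
  rw [← intervalIntegral.integral_add_adjacent_intervals (b := (0 : ℝ))
    (hc.intervalIntegrable _ _) (hc.intervalIntegrable _ _)]
  have e3 : ∫ x in (-H)..0, max (|x| - t) 0 = ∫ x in (0 : ℝ)..H, max (|x| - t) 0 := by
    have := intervalIntegral.integral_comp_neg (a := 0) (b := H) (fun x : ℝ => max (|x| - t) 0)
    simp only [abs_neg, neg_zero] at this
    exact this.symm
  have e4 : ∫ x in (0 : ℝ)..H, max (|x| - t) 0 = ∫ x in (0 : ℝ)..H, max (x - t) 0 := by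
    apply intervalIntegral.integral_congr
    intro x hx
    rw [Set.uIcc_of_le hHpos.le] at hx
    simp only [abs_of_nonneg hx.1]
  have e5 : ∫ x in (0 : ℝ)..H, max (x - t) 0 = (max (H - t) 0) ^ 2 / 2 := by
    rcases le_or_gt H t with hle | hlt
    · rw [max_eq_right (by linarith : H - t ≤ 0)]
      rw [intervalIntegral.integral_congr (g := fun _ => (0 : ℝ))]
      · simp
      · intro x hx
        rw [Set.uIcc_of_le hHpos.le] at hx
        exact max_eq_right (by linarith [hx.2])
    · have hc2 : Continuous (fun x : ℝ => max (x - t) 0) :=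
        (continuous_id.sub continuous_const).max continuous_const
      rw [max_eq_left (by linarith : 0 ≤ H - t)]
      rw [← intervalIntegral.integral_add_adjacent_intervals (b := t)
        (hc2.intervalIntegrable _ _) (hc2.intervalIntegrable _ _)]
      have f1 : ∫ x in (0 : ℝ)..t, max (x - t) 0 = 0 := by
        rw [intervalIntegral.integral_congr (g := fun _ => (0 : ℝ))]
        · simp
        · intro x hx
          rw [Set.uIcc_of_le ht] at hx
          exact max_eq_right (by linarith [hx.2])
      have f2 : ∫ x in t..H, max (x - t) 0 = (H - t) ^ 2 / 2 := by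
        rw [intervalIntegral.integral_congr (g := fun x => x - t)]
        · rw [intervalIntegral.integral_comp_sub_right (fun x => x) t, integral_id]
          ring
        · intro x hx
          rw [Set.uIcc_of_le hlt.le] at hx
          exact max_eq_left (by linarith [hx.1])
      rw [f1, f2, zero_add]
  rw [e3, e4, e5]
  ring

end
end Pool.H611.BS
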