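import Mathlib

set_option autoImplicit false

namespace Pool.H611.BS
open MeasureTheory
noncomputable section

lemma hinge_key (p : ℝ) (hp : 1 < p) (s : ℝ) (hs : 0 ≤ s) :
    ENNReal.ofReal (s ^ p) = ∫⁻ t in Set.Ioi (0:ℝ),
      ENNReal.ofReal (p * (p - 1) * t ^ (p - 2)) * ENNReal.ofReal (max (s - t) 0) := by
  rcases hs.eq_or_lt with h0 | h0
  · subst h0
    rw [Real.zero_rpow (by linarith)]
    rw [setLIntegral_congr_fun (g := fun _ => 0) measurableSet_Ioi]
    · simp
    · intro t ht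
      have : max (0 - t) 0 = (0:ℝ) := max_eq_right (by have := Set.mem_Ioi.mp ht; linarith)
      simp only [this, ENNReal.ofReal_zero, mul_zero]
  · have hcont : ContinuousOn (fun t : ℝ => p * s * t ^ (p - 1) - (p - 1) * t ^ p) (Set.Icc 0 s) := by
      apply Continuous.continuousOn
      have h1 : Continuous (fun t : ℝ => t ^ (p - 1)) := Real.continuous_rpow_const (by linarith)
      have h2 : Continuous (fun t : ℝ => t ^ p) := Real.continuous_rpow_const (by linarith)
      fun_prop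
    have hder : ∀ t ∈ Set.Ioo 0 s, HasDerivAt (fun t : ℝ => p * s * t ^ (p - 1) - (p - 1) * t ^ p)
        (p * (p - 1) * t ^ (p - 2) * (s - t)) t := by
      intro t ht
      have ht0 : t ≠ 0 := ne_of_gt ht.1
      have h1 := (Real.hasDerivAt_rpow_const (x := t) (p := p - 1) (Or.inl ht0)).const_mul (p * s)
      have h2 := (Real.hasDerivAt_rpow_const (x := t) (p := p) (Or.inl ht0)).const_mul (p - 1)
      have h3 := h1.sub h2
      have e1 : p - 1 - 1 = p - 2 := by ring
      have e2 : t ^ (p - 1) = t ^ (p - 2) * t := by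
        rw [show p - 1 = (p - 2) + 1 by ring, Real.rpow_add_one ht0]
      have e3 : p * s * ((p - 1) * t ^ (p - 1 - 1)) - (p - 1) * (p * t ^ (p - 1)) =
          p * (p - 1) * t ^ (p - 2) * (s - t) := by
        rw [e1, e2]; ring
      rw [e3] at h3
      exact h3
    have hpos : ∀ t ∈ Set.Ioo 0 s, 0 ≤ p * (p - 1) * t ^ (p - 2) * (s - t) := by
      intro t ht
      have := Real.rpow_nonneg ht.1.le (p - 2)
      have h4 : 0 ≤ s - t := by linarith [ht.2]
      have h5 : 0 ≤ p - 1 := by linarith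
      positivity
    have hint := intervalIntegral.integrableOn_deriv_of_nonneg hcont hder hpos
    have hI : ∫ t in (0:ℝ)..s, p * (p - 1) * t ^ (p - 2) * (s - t) = s ^ p := by
      rw [intervalIntegral.integral_eq_sub_of_hasDerivAt_of_le h0.le hcont hder
        ((intervalIntegrable_iff_integrableOn_Ioc_of_le h0.le).mpr hint)]
      rw [Real.zero_rpow (by linarith), Real.zero_rpow (by linarith)]
      have e2 : s ^ p = s ^ (p - 1) * s := by
        rw [← Real.rpow_add_one (ne_of_gt h0)]; congr 1; ring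
      rw [e2]; ring
    rw [← hI, intervalIntegral.integral_of_le h0.le, ofReal_integral_eq_lintegral_ofReal hint]
    · have hsplit : Set.Ioi (0:ℝ) = Set.Ioc 0 s ∪ Set.Ioi s := (Set.Ioc_union_Ioi_eq_Ioi h0.le).symm
      rw [hsplit, lintegral_union measurableSet_Ioi (Set.Ioc_disjoint_Ioi le_rfl)]
      have hz : ∫⁻ t in Set.Ioi s, ENNReal.ofReal (p * (p - 1) * t ^ (p - 2)) *
          ENNReal.ofReal (max (s - t) 0) = 0 := by
        rw [setLIntegral_congr_fun (g := fun _ => 0) measurableSet_Ioi]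
        · simp
        · intro t ht
          have : max (s - t) 0 = (0:ℝ) := max_eq_right (by have := Set.mem_Ioi.mp ht; linarith)
          simp only [this, ENNReal.ofReal_zero, mul_zero]
      rw [hz, add_zero]
      apply setLIntegral_congr_fun measurableSet_Ioc
      intro t ht
      have h4 : 0 ≤ s - t := by linarith [ht.2]
      have h6 : 0 ≤ p * (p - 1) * t ^ (p - 2) := by
        have := Real.rpow_nonneg ht.1.le (p - 2)
        have h5 : 0 ≤ p - 1 := by linarith
        positivity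
      simp only
      rw [max_eq_left h4, ENNReal.ofReal_mul h6]
    · rw [Filter.EventuallyLE, ae_restrict_iff' measurableSet_Ioc]
      apply Filter.Eventually.of_forall
      intro t ht
      have h4 : 0 ≤ s - t := by linarith [ht.2]
      have := Real.rpow_nonneg ht.1.le (p - 2)
      have h5 : 0 ≤ p - 1 := by linarith
      simp only [Pi.zero_apply]
      positivity

lemma hinge_lint (a b : ℝ) (φ : ℝ → ℝ) (hφ : Continuous φ) (hφ0 : ∀ x, 0 ≤ φ x)
    (p : ℝ) (hp : 1 < p) :
    ∫⁻ x in Set.Ioc a b, ENNReal.ofReal (φ x ^ p) = ∫⁻ t in Set.Ioi (0:ℝ),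
      ENNReal.ofReal (p * (p - 1) * t ^ (p - 2)) *
        ∫⁻ x in Set.Ioc a b, ENNReal.ofReal (max (φ x - t) 0) := by
  have h1 : ∫⁻ x in Set.Ioc a b, ENNReal.ofReal (φ x ^ p) =
      ∫⁻ x in Set.Ioc a b, ∫⁻ t in Set.Ioi (0:ℝ),
        ENNReal.ofReal (p * (p - 1) * t ^ (p - 2)) * ENNReal.ofReal (max (φ x - t) 0) := by
    apply lintegral_congr
    intro x
    exact hinge_key p hp _ (hφ0 x)
  rw [h1, lintegral_lintegral_swap]
  · apply lintegral_congr
    intro t
    rw [lintegral_const_mul]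
    have := hφ.measurable
    fun_prop
  · apply Measurable.aemeasurable
    have h2 := hφ.measurable
    have h3 : Measurable (fun z : ℝ × ℝ => φ z.1) := h2.comp measurable_fst
    have h4 : Measurable (fun z : ℝ × ℝ => z.2 ^ (p - 2)) := measurable_snd.pow_const _
    exact ((measurable_const.mul h4).ennreal_ofReal).mul
      (((h3.sub measurable_snd).max measurable_const).ennreal_ofReal)

lemma hinge_cont (a b : ℝ) (hab : a < b) (φ ψ : ℝ → ℝ)
    (hφ : Continuous φ) (hψ : Continuous ψ)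
    (hφ0 : ∀ x, 0 ≤ φ x) (hψ0 : ∀ x, 0 ≤ ψ x)
    (h : ∀ t : ℝ, 0 ≤ t → ∫ x in a..b, max (φ x - t) 0 ≤ ∫ x in a..b, max (ψ x - t) 0)
    (p : ℝ) (hp : 1 < p) :
    ∫ x in a..b, φ x ^ p ≤ ∫ x in a..b, ψ x ^ p := by
  have hpow : ∀ f : ℝ → ℝ, Continuous f → Continuous (fun x => f x ^ p) := by
    intro f hf
    exact hf.rpow_const (fun x => Or.inr (by linarith))
  have hconv : ∀ f : ℝ → ℝ, Continuous f → (∀ x, 0 ≤ f x) →
      ENNReal.ofReal (∫ x in a..b, f x) = ∫⁻ x in Set.Ioc a b, ENNReal.ofReal (f x) := by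
    intro f hf hf0
    rw [intervalIntegral.integral_of_le hab.le, ofReal_integral_eq_lintegral_ofReal]
    · exact (hf.integrableOn_Icc).mono_set Set.Ioc_subset_Icc_self
    · exact Filter.Eventually.of_forall hf0
  have h1 : ENNReal.ofReal (∫ x in a..b, φ x ^ p) ≤ ENNReal.ofReal (∫ x in a..b, ψ x ^ p) := by
    rw [hconv _ (hpow φ hφ) (fun x => Real.rpow_nonneg (hφ0 x) p),
      hconv _ (hpow ψ hψ) (fun x => Real.rpow_nonneg (hψ0 x) p),
      hinge_lint a b φ hφ hφ0 p hp, hinge_lint a b ψ hψ hψ0 p hp]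
    apply setLIntegral_mono' measurableSet_Ioi
    intro t ht
    gcongr 1
    rw [← hconv (fun x => max (φ x - t) 0) (by fun_prop) (fun x => le_max_right _ _),
      ← hconv (fun x => max (ψ x - t) 0) (by fun_prop) (fun x => le_max_right _ _)]
    exact ENNReal.ofReal_le_ofReal (h t (le_of_lt ht))
  have h2 : 0 ≤ ∫ x in a..b, ψ x ^ p :=
    intervalIntegral.integral_nonneg hab.le (fun x _ => Real.rpow_nonneg (hψ0 x) p)
  exact (ENNReal.ofReal_le_ofReal_iff h2).mp h1

lemma hinge_to_rpow (a b : ℝ) (hab : a < b) (φ ψ : ℝ → ℝ)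
    (hφ : ContinuousOn φ (Set.Icc a b)) (hψ : ContinuousOn ψ (Set.Icc a b))
    (hφ0 : ∀ x ∈ Set.Icc a b, 0 ≤ φ x) (hψ0 : ∀ x ∈ Set.Icc a b, 0 ≤ ψ x)
    (h : ∀ t : ℝ, 0 ≤ t → ∫ x in a..b, max (φ x - t) 0 ≤ ∫ x in a..b, max (ψ x - t) 0)
    (p : ℝ) (hp : 1 ≤ p) :
    ∫ x in a..b, φ x ^ p ≤ ∫ x in a..b, ψ x ^ p := by
  have hcongr : ∀ (f g : ℝ → ℝ), (∀ x ∈ Set.Icc a b, f x = g x) →
      ∫ x in a..b, f x = ∫ x in a..b, g x := by
    intro f g hfg
    apply intervalIntegral.integral_congr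
    intro x hx
    rw [Set.uIcc_of_le hab.le] at hx
    exact hfg x hx
  rcases hp.eq_or_lt with h1 | h1
  · subst h1
    have h0 := h 0 le_rfl
    rw [hcongr (fun x => max (φ x - 0) 0) (fun x => φ x ^ (1:ℝ)) (fun x hx => by
        simp only [sub_zero, Real.rpow_one]; exact max_eq_left (hφ0 x hx)),
      hcongr (fun x => max (ψ x - 0) 0) (fun x => ψ x ^ (1:ℝ)) (fun x hx => by
        simp only [sub_zero, Real.rpow_one]; exact max_eq_left (hψ0 x hx))] at h0
    exact h0
  · have hext : ∀ f : ℝ → ℝ, ContinuousOn f (Set.Icc a b) → (∀ x ∈ Set.Icc a b, 0 ≤ f x) →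
        ∃ g : ℝ → ℝ, Continuous g ∧ (∀ x, 0 ≤ g x) ∧ ∀ x ∈ Set.Icc a b, g x = f x := by
      intro f hf hf0
      refine ⟨Set.IccExtend hab.le (Set.domRestrict (Set.Icc a b) f),
        (continuousOn_iff_continuous_domRestrict.mp hf).Icc_extend', ?_, ?_⟩
      · intro x
        exact hf0 _ (Set.projIcc a b hab.le x).2
      · intro x hx
        rw [Set.IccExtend_of_mem _ _ hx]
        rfl
    obtain ⟨φ', hφc, hφn, hφe⟩ := hext φ hφ hφ0
    obtain ⟨ψ', hψc, hψn, hψe⟩ := hext ψ hψ hψ0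
    have := hinge_cont a b hab φ' ψ' hφc hψc hφn hψn (fun t ht => by
      have := h t ht
      rw [hcongr (fun x => max (φ' x - t) 0) (fun x => max (φ x - t) 0)
          (fun x hx => by simp only [hφe x hx]),
        hcongr (fun x => max (ψ' x - t) 0) (fun x => max (ψ x - t) 0)
          (fun x hx => by simp only [hψe x hx])]
      exact this) p h1
    rw [hcongr (fun x => φ' x ^ p) (fun x => φ x ^ p) (fun x hx => by simp only [hφe x hx]),
      hcongr (fun x => ψ' x ^ p) (fun x => ψ x ^ p) (fun x hx => by simp only [hψe x hx])] at this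
    exact this

end
end Pool.H611.BS
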