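import Mathlib

set_option autoImplicit false

namespace Pool.H611.BS
open MeasureTheory
noncomputable section

/-- outside bound for the uniform density and gluing with a real power -/
lemma uniform_outside (a b : ℝ) (hab : a < b) (ha : -1 ≤ a) (hb : b ≤ 1) (g : ℝ → ℝ)
    (hg : ∀ x ∈ Set.Icc (-1 : ℝ) 1, ∀ y ∈ Set.Icc (-1 : ℝ) 1, |g x - g y| ≤ |x - y|)
    (hg0 : ∫ x in a..b, g x = 0) :
    (∀ x ∈ Set.Icc (-1 : ℝ) a, |g x| ≤ |x - (a + b) / 2|) ∧
      (∀ x ∈ Set.Icc b (1 : ℝ), |g x| ≤ |x - (a + b) / 2|) := by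
  have hlip : LipschitzOnWith 1 g (Set.Icc (-1 : ℝ) 1) := by
    apply LipschitzOnWith.of_dist_le_mul
    intro x hx y hy
    rw [Real.dist_eq, Real.dist_eq, NNReal.coe_one, one_mul]
    exact hg x hx y hy
  have hsub : Set.Icc a b ⊆ Set.Icc (-1 : ℝ) 1 := Set.Icc_subset_Icc ha hb
  have hgi : IntervalIntegrable g volume a b := by
    apply ContinuousOn.intervalIntegrable
    rw [Set.uIcc_of_le hab.le]
    exact hlip.continuousOn.mono hsub
  have hba : 0 < b - a := sub_pos.mpr hab
  have key : ∀ x ∈ Set.Icc (-1 : ℝ) 1, ∀ h : ℝ → ℝ, Continuous h →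
      (∀ s ∈ Set.Icc a b, |x - s| ≤ h s) → (b - a) * |g x| ≤ ∫ s in a..b, h s := by
    intro x hx h hh hle
    have e1 : (b - a) * g x = ∫ s in a..b, (g x - g s) := by
      rw [intervalIntegral.integral_sub (by simp) hgi, hg0, sub_zero,
        intervalIntegral.integral_const, smul_eq_mul]
    have e2 : (b - a) * |g x| = |(b - a) * g x| := by
      rw [abs_mul, abs_of_pos hba]
    rw [e2, e1]
    refine (intervalIntegral.abs_integral_le_integral_abs hab.le).trans ?_
    apply intervalIntegral.integral_mono_on hab.le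
    · exact ((intervalIntegrable_const).sub hgi).abs
    · exact hh.intervalIntegrable _ _
    · intro s hs
      exact (hg x hx s (hsub hs)).trans (hle s hs)
  constructor
  · intro x hx
    have hx1 : x ∈ Set.Icc (-1 : ℝ) 1 := ⟨hx.1, by linarith [hx.2]⟩
    have h1 := key x hx1 (fun s => s - x) (by fun_prop) (by
      intro s hs
      rw [abs_sub_comm, abs_of_nonneg (by linarith [hs.1, hx.2])])
    have h2 : ∫ s in a..b, (s - x) = (b - a) * ((a + b) / 2 - x) := by
      rw [intervalIntegral.integral_sub (by simp) (by simp), integral_id,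
        intervalIntegral.integral_const, smul_eq_mul]
      ring
    rw [h2] at h1
    have h3 := le_of_mul_le_mul_left h1 hba
    have h4 : |x - (a + b) / 2| = (a + b) / 2 - x := by
      rw [abs_sub_comm, abs_of_nonneg (by linarith [hx.2])]
    rw [h4]
    exact h3
  · intro x hx
    have hx1 : x ∈ Set.Icc (-1 : ℝ) 1 := ⟨by linarith [hx.1], hx.2⟩
    have h1 := key x hx1 (fun s => x - s) (by fun_prop) (by
      intro s hs
      rw [abs_of_nonneg (by linarith [hs.2, hx.1])])
    have h2 : ∫ s in a..b, (x - s) = (b - a) * (x - (a + b) / 2) := by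
      rw [intervalIntegral.integral_sub (by simp) (by simp), integral_id,
        intervalIntegral.integral_const, smul_eq_mul]
      ring
    rw [h2] at h1
    have h3 := le_of_mul_le_mul_left h1 hba
    have h4 : |x - (a + b) / 2| = x - (a + b) / 2 := by
      rw [abs_of_nonneg (by linarith [hx.1])]
    rw [h4]
    exact h3

lemma glue_rpow (a b : ℝ) (hab : a < b) (ha : -1 ≤ a) (hb : b ≤ 1) (g : ℝ → ℝ) (c : ℝ)
    (hgc : Continuous g) (p : ℝ) (hp : 1 ≤ p)
    (h1 : ∀ x ∈ Set.Icc (-1 : ℝ) a, |g x| ≤ |x - c|) (h2 : ∀ x ∈ Set.Icc b (1 : ℝ), |g x| ≤ |x - c|)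
    (h3 : ∫ x in a..b, |g x| ^ p ≤ ∫ x in a..b, |x - c| ^ p) :
    ∫ x in (-1 : ℝ)..1, |g x| ^ p ≤ ∫ x in (-1 : ℝ)..1, |x - c| ^ p := by
  have hp0 : 0 ≤ p := by linarith
  have c1 : Continuous (fun x => |g x| ^ p) := hgc.abs.rpow_const (fun _ => Or.inr hp0)
  have c2 : Continuous (fun x : ℝ => |x - c| ^ p) :=
    (by fun_prop : Continuous (fun x : ℝ => |x - c|)).rpow_const (fun _ => Or.inr hp0)
  have split : ∀ f : ℝ → ℝ, Continuous f → ∫ x in (-1 : ℝ)..1, f x
      = (∫ x in (-1 : ℝ)..a, f x) + (∫ x in a..b, f x) + ∫ x in b..1, f x := by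
    intro f hf
    rw [intervalIntegral.integral_add_adjacent_intervals (hf.intervalIntegrable _ _)
      (hf.intervalIntegrable _ _), intervalIntegral.integral_add_adjacent_intervals
      (hf.intervalIntegrable _ _) (hf.intervalIntegrable _ _)]
  rw [split _ c1, split _ c2]
  have i1 : ∫ x in (-1 : ℝ)..a, |g x| ^ p ≤ ∫ x in (-1 : ℝ)..a, |x - c| ^ p := by
    apply intervalIntegral.integral_mono_on ha (c1.intervalIntegrable _ _)
      (c2.intervalIntegrable _ _)
    intro x hx
    exact Real.rpow_le_rpow (abs_nonneg _) (h1 x hx) hp0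
  have i2 : ∫ x in b..(1 : ℝ), |g x| ^ p ≤ ∫ x in b..(1 : ℝ), |x - c| ^ p := by
    apply intervalIntegral.integral_mono_on hb (c1.intervalIntegrable _ _)
      (c2.intervalIntegrable _ _)
    intro x hx
    exact Real.rpow_le_rpow (abs_nonneg _) (h2 x hx) hp0
  linarith

/-- for two nodes the derivative has mean zero between the nodes -/
lemma two_nodes (x : Fin 2 → ℝ) (hx : Function.Injective x) (f : ℝ → ℝ) (hf : ContDiff ℝ 1 f)
    (h0 : ∀ i, f (x i) = 0) :
    ∫ s in (min (x 0) (x 1))..(max (x 0) (x 1)), deriv f s = 0 := by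
  rw [intervalIntegral.integral_deriv_eq_sub]
  · rcases le_total (x 0) (x 1) with h | h
    · rw [min_eq_left h, max_eq_right h, h0, h0, sub_self]
    · rw [min_eq_right h, max_eq_left h, h0, h0, sub_self]
  · intro s _
    exact (hf.differentiable (by norm_num)).differentiableAt
  · exact (hf.continuous_deriv le_rfl).intervalIntegrable _ _

end
end Pool.H611.BS
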