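import Mathlib

set_option autoImplicit false

namespace Pool.H611.BS
open MeasureTheory
noncomputable section

lemma cp_zero (a m : ℝ) (ham : a < m) (p : ℝ → ℝ) (hpc : Continuous p) (h : ∫ x in a..m, p x = 0) :
    ∃ z ∈ Set.Ioo a m, p z = 0 := by
  refine exists_hasDerivAt_eq_zero (f := fun x => ∫ t in a..x, p t) (f' := p) ham ?_ ?_ ?_
  · exact (intervalIntegral.continuous_primitive (fun _ _ => hpc.intervalIntegrable _ _) a).continuousOn
  · simp [h]
  · intro x _
    exact (hpc.integral_hasStrictDerivAt a x).hasDerivAt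

/-- data on a half -/
structure CP (a m : ℝ) (p : ℝ → ℝ) (z : ℝ) : Prop where
  c : Continuous p
  az : a ≤ z
  zm : z ≤ m
  pos : ∀ x, a ≤ x → x ≤ z → 0 ≤ p x
  neg : ∀ x, z ≤ x → x ≤ m → p x ≤ 0
  conv : ∀ x y w, a ≤ x → x ≤ y → y ≤ w → w ≤ m → p y ≤ max (p x) (p w)
  int : ∫ x in a..m, p x = 0

lemma cp_half_wlog (a m : ℝ) (ham : a ≤ m) (p q : ℝ → ℝ) (zp zq : ℝ) (hp : CP a m p zp) (hq : CP a m q zq)
    (h : zq ≤ zp) : 0 ≤ ∫ x in a..m, p x * q x := by
  have hpz : p zp ≤ 0 := hp.neg zp le_rfl hp.zm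
  have h1 : 0 ≤ ∫ x in a..m, (p x - p zq) * q x := by
    refine intervalIntegral.integral_nonneg ham fun x hx => ?_
    rcases le_total x zq with hxz | hxz
    · refine mul_nonneg ?_ (hq.pos x hx.1 hxz)
      have h2 := hp.conv x zq zp hx.1 hxz h hp.zm
      have h3 := hp.pos x hx.1 (hxz.trans h)
      have : max (p x) (p zp) ≤ p x := max_le le_rfl (hpz.trans h3)
      linarith
    · refine mul_nonneg_of_nonpos_of_nonpos ?_ (hq.neg x hxz hx.2)
      have h2 := hp.conv zq x m hq.az hxz hx.2 le_rfl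
      have h3 := hp.pos zq hq.az h
      have h4 := hp.neg m hp.zm le_rfl
      have : max (p zq) (p m) ≤ p zq := max_le le_rfl (h4.trans h3)
      linarith
  have h2 : ∫ x in a..m, (p x - p zq) * q x = (∫ x in a..m, p x * q x) - p zq * ∫ x in a..m, q x := by
    rw [← intervalIntegral.integral_const_mul, ← intervalIntegral.integral_sub]
    · congr 1
      funext x
      ring
    · exact (hp.c.mul hq.c).intervalIntegrable _ _
    · exact (continuous_const.mul hq.c).intervalIntegrable _ _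
  rw [h2, hq.int, mul_zero, sub_zero] at h1
  exact h1

lemma cp_half (a m : ℝ) (ham : a ≤ m) (p q : ℝ → ℝ) (zp zq : ℝ) (hp : CP a m p zp) (hq : CP a m q zq) :
    0 ≤ ∫ x in a..m, p x * q x := by
  rcases le_total zq zp with h | h
  · exact cp_half_wlog a m ham p q zp zq hp hq h
  · have := cp_half_wlog a m ham q p zq zp hq hp h
    simpa only [mul_comm] using this

/-- all data of one function -/
structure CPF (a m b : ℝ) (p : ℝ → ℝ) : Prop where
  left : ∃ z, CP a m p z
  right : ∃ z, CP (-b) (-m) (fun x => p (-x)) z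
  l : ∀ x, -1 ≤ x → x ≤ a → 0 ≤ p x
  r : ∀ x, b ≤ x → x ≤ 1 → 0 ≤ p x

lemma cp_max (p : ℝ → ℝ) (hp : ConvexOn ℝ (Set.Icc (-1 : ℝ) 1) p) (x y w : ℝ) (hx : -1 ≤ x) (hxy : x ≤ y)
    (hyw : y ≤ w) (hw : w ≤ 1) : p y ≤ max (p x) (p w) :=
  hp.le_max_of_mem_Icc ⟨hx, by linarith⟩ ⟨by linarith, hw⟩ ⟨hxy, hyw⟩

lemma cp_mk (a m b : ℝ) (ha : -1 ≤ a) (ham : a < m) (hmb : m < b) (hb : b ≤ 1)
    (p : ℝ → ℝ) (hp : ConvexOn ℝ (Set.Icc (-1 : ℝ) 1) p) (hpc : Continuous p)
    (hp1 : ∫ x in a..m, p x = 0) (hp2 : ∫ x in m..b, p x = 0) : CPF a m b p := by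
  obtain ⟨z1, hz1, h1⟩ := cp_zero a m ham p hpc hp1
  obtain ⟨z2, hz2, h2⟩ := cp_zero m b hmb p hpc hp2
  have hz1a := hz1.1
  have hz1b := hz1.2
  have hz2a := hz2.1
  have hz2b := hz2.2
  have F2 : ∀ x, z1 ≤ x → x ≤ z2 → p x ≤ 0 := by
    intro x hx1 hx2
    have := cp_max p hp z1 x z2 (by linarith) hx1 hx2 (by linarith)
    rw [h1, h2, max_self] at this
    exact this
  have F1 : ∀ x, -1 ≤ x → x ≤ z1 → 0 ≤ p x := by
    intro x hx1 hx2
    rcases hx2.eq_or_lt with hx | hx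
    · rw [hx, h1]
    by_contra hneg
    push Not at hneg
    -- z1 is strictly between x and z2
    have hpos : 0 < z2 - x := by linarith
    have := hp.2 (show x ∈ Set.Icc (-1 : ℝ) 1 from ⟨hx1, by linarith⟩)
      (show z2 ∈ Set.Icc (-1 : ℝ) 1 from ⟨by linarith, by linarith⟩)
      (show 0 ≤ (z2 - z1) / (z2 - x) from div_nonneg (by linarith) hpos.le)
      (show 0 ≤ (z1 - x) / (z2 - x) from div_nonneg (by linarith) hpos.le)
      (by rw [← add_div, div_eq_one_iff_eq hpos.ne']; ring)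
    simp only [smul_eq_mul] at this
    have e : (z2 - z1) / (z2 - x) * x + (z1 - x) / (z2 - x) * z2 = z1 := by
      field_simp
      ring
    rw [e, h1, h2, mul_zero, add_zero] at this
    have h3 : 0 < (z2 - z1) / (z2 - x) := div_pos (by linarith) hpos
    nlinarith
  have F3 : ∀ x, z2 ≤ x → x ≤ 1 → 0 ≤ p x := by
    intro x hx2 hx1
    rcases hx2.eq_or_lt with hx | hx
    · rw [← hx, h2]
    by_contra hneg
    push Not at hneg
    have hpos : 0 < x - z1 := by linarith
    have := hp.2 (show z1 ∈ Set.Icc (-1 : ℝ) 1 from ⟨by linarith, by linarith⟩)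
      (show x ∈ Set.Icc (-1 : ℝ) 1 from ⟨by linarith, by linarith⟩)
      (show 0 ≤ (x - z2) / (x - z1) from div_nonneg (by linarith) hpos.le)
      (show 0 ≤ (z2 - z1) / (x - z1) from div_nonneg (by linarith) hpos.le)
      (by rw [← add_div, div_eq_one_iff_eq hpos.ne']; ring)
    simp only [smul_eq_mul] at this
    have e : (x - z2) / (x - z1) * z1 + (z2 - z1) / (x - z1) * x = z2 := by
      field_simp
      ring
    rw [e, h1, h2, mul_zero, zero_add] at this
    have h3 : 0 < (z2 - z1) / (x - z1) := div_pos (by linarith) hpos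
    nlinarith
  refine ⟨⟨z1, hpc, hz1.1.le, hz1.2.le, ?_, ?_, ?_, hp1⟩, ⟨-z2, by fun_prop, by linarith, by linarith, ?_, ?_, ?_, ?_⟩, ?_, ?_⟩
  · intro x hx1 hx2; exact F1 x (by linarith) hx2
  · intro x hx1 hx2; exact F2 x hx1 (by linarith)
  · intro x y w hx hxy hyw hw; exact cp_max p hp x y w (by linarith) hxy hyw (by linarith)
  · intro x hx1 hx2; exact F3 (-x) (by linarith) (by linarith)
  · intro x hx1 hx2; exact F2 (-x) (by linarith) (by linarith)
  · intro x y w hx hxy hyw hw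
    have := cp_max p hp (-w) (-y) (-x) (by linarith) (by linarith) (by linarith) (by linarith)
    rw [max_comm] at this
    exact this
  · rw [intervalIntegral.integral_comp_neg (fun x => p x)]
    simpa using hp2
  · intro x hx1 hx2; exact F1 x hx1 (by linarith)
  · intro x hx1 hx2; exact F3 x (by linarith) hx2

/-- two convex functions with zero integral over two adjacent intervals -/
lemma convex_pair (a m b : ℝ) (ha : -1 ≤ a) (ham : a < m) (hmb : m < b) (hb : b ≤ 1)
    (p q : ℝ → ℝ) (hp : ConvexOn ℝ (Set.Icc (-1 : ℝ) 1) p) (hq : ConvexOn ℝ (Set.Icc (-1 : ℝ) 1) q)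
    (hpc : Continuous p) (hqc : Continuous q)
    (hp1 : ∫ x in a..m, p x = 0) (hp2 : ∫ x in m..b, p x = 0)
    (hq1 : ∫ x in a..m, q x = 0) (hq2 : ∫ x in m..b, q x = 0) :
    0 ≤ ∫ x in (-1 : ℝ)..1, p x * q x := by
  have P := cp_mk a m b ha ham hmb hb p hp hpc hp1 hp2
  have Q := cp_mk a m b ha ham hmb hb q hq hqc hq1 hq2
  have ii : ∀ u v : ℝ, IntervalIntegrable (fun x => p x * q x) volume u v :=
    fun u v => (hpc.mul hqc).intervalIntegrable _ _
  have e1 : ∫ x in (-1 : ℝ)..1, p x * q x = (∫ x in (-1 : ℝ)..a, p x * q x) + (∫ x in a..m, p x * q x)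
      + (∫ x in m..b, p x * q x) + (∫ x in b..1, p x * q x) := by
    rw [intervalIntegral.integral_add_adjacent_intervals (ii _ _) (ii _ _),
      intervalIntegral.integral_add_adjacent_intervals (ii _ _) (ii _ _),
      intervalIntegral.integral_add_adjacent_intervals (ii _ _) (ii _ _)]
  have i1 : 0 ≤ ∫ x in (-1 : ℝ)..a, p x * q x :=
    intervalIntegral.integral_nonneg ha fun x hx => mul_nonneg (P.l x hx.1 hx.2) (Q.l x hx.1 hx.2)
  have i4 : 0 ≤ ∫ x in b..1, p x * q x :=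
    intervalIntegral.integral_nonneg hb fun x hx => mul_nonneg (P.r x hx.1 hx.2) (Q.r x hx.1 hx.2)
  have i2 : 0 ≤ ∫ x in a..m, p x * q x := by
    obtain ⟨zp, hzp⟩ := P.left
    obtain ⟨zq, hzq⟩ := Q.left
    exact cp_half a m ham.le p q zp zq hzp hzq
  have i3 : 0 ≤ ∫ x in m..b, p x * q x := by
    obtain ⟨zp, hzp⟩ := P.right
    obtain ⟨zq, hzq⟩ := Q.right
    have := cp_half (-b) (-m) (by linarith) _ _ zp zq hzp hzq
    rw [intervalIntegral.integral_comp_neg (fun x => p x * q x)] at this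
    simpa using this
  rw [e1]
  linarith

/-- monotone derivative gives convexity on `[-1,1]` -/
lemma convex_of_deriv_mono (h : ℝ → ℝ) (hh : ContDiff ℝ 1 h)
    (hm : MonotoneOn (deriv h) (Set.Icc (-1 : ℝ) 1)) : ConvexOn ℝ (Set.Icc (-1 : ℝ) 1) h := by
  refine MonotoneOn.convexOn_of_deriv (convex_Icc _ _) hh.continuous.continuousOn
    (hh.differentiable (by norm_num)).differentiableOn (hm.mono interior_subset)

end
end Pool.H611.BS
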