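import Mathlib
import Pool.Agent.Helper611.BS.Def
import Pool.Agent.Helper611.BS.A1
import Pool.Agent.Helper611.BS.A2
import Pool.Agent.Helper611.BS.A3
import Pool.Agent.Helper611.BS.B1
import Pool.Agent.Helper611.BS.B2
import Pool.Agent.Helper611.BS.C1
import Pool.Agent.Helper611.BS.E1
import Pool.Agent.Helper611.BS.E2

set_option autoImplicit false

namespace Pool.H611.BS
open MeasureTheory
noncomputable section

lemma alt_bound {n : ℕ} (hn : 0 < n) (w x : Fin n → ℝ) (m : ℕ) :
    (∀ j ≤ m, ∑ i, w i * x i ^ j = 0) → ∀ (k : ℕ), 1 ≤ k → ∀ (ε : ℝ), (ε = 1 ∨ ε = -1) →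
      Alt (FF w x m) k ε → k + m + 1 ≤ n := by
  have : Nonempty (Fin n) := ⟨⟨0, hn⟩⟩
  induction m with
  | zero =>
    intro hm k hk ε hε h
    have := alt_zero w x (by simpa using hm 0 le_rfl) k hk ε h
    omega
  | succ m ih =>
    intro hm k hk ε hε h
    obtain ⟨i0, hi0⟩ := Finite.exists_min x
    obtain ⟨i1, hi1⟩ := Finite.exists_max x
    have h1 := alt_step (FF w x (m + 1)) (FF w x m) (m + 1) (by positivity) (x i0 - 1) (x i1)
      (fun u v => FF_int w x m u v) (fun u v h => FF_sub w x m u v h)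
      (fun s hs => FF_left w x (m + 1) hm s (fun i => by have := hi0 i; linarith))
      (fun s hs => FF_right w x (m + 1) s (fun i => (hi1 i).trans hs)) k hk ε hε h
    have h2 := ih (fun j hj => hm j (by omega)) (k + 1) (by omega) (-ε)
      (by rcases hε with rfl | rfl <;> simp) h1
    omega

/-- quasi-concavity of the B-spline -/
lemma quasi (q : ℕ) (w x : Fin (q + 3) → ℝ) (hm : ∀ j ≤ q + 1, ∑ i, w i * x i ^ j = 0)
    (c : ℝ) (hc : 0 < c) (s1 s2 s3 : ℝ) (h12 : s1 < s2) (h23 : s2 < s3)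
    (h1 : c ≤ FF w x (q + 1) s1) (h3 : c ≤ FF w x (q + 1) s3) : c ≤ FF w x (q + 1) s2 := by
  by_contra hcon
  push Not at hcon
  have : Nonempty (Fin (q + 3)) := ⟨0⟩
  obtain ⟨i0, hi0⟩ := Finite.exists_min x
  obtain ⟨i1, hi1⟩ := Finite.exists_max x
  have h4 := dip_alt (FF w x (q + 1)) (FF w x q) (q + 1) (by positivity) (x i0 - 1) (x i1)
      (fun u v => FF_int w x q u v) (fun u v h => FF_sub w x q u v h)
      (fun s hs => FF_left w x (q + 1) hm s (fun i => by have := hi0 i; linarith))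
      (fun s hs => FF_right w x (q + 1) s (fun i => (hi1 i).trans hs))
      s1 s2 s3 h12 h23 (by linarith) (by linarith) (by linarith) (by linarith)
  have := alt_bound (by omega) w x q (fun j hj => hm j (by omega)) 4 (by norm_num) (-1)
    (Or.inr rfl) h4
  omega

/-- nonnegativity of the B-spline -/
lemma FF_nonneg (q : ℕ) (w x : Fin (q + 3) → ℝ) (hm : ∀ j ≤ q + 1, ∑ i, w i * x i ^ j = 0)
    (hpos : ∃ s, 0 < FF w x (q + 1) s) (s : ℝ) : 0 ≤ FF w x (q + 1) s := by
  by_contra hcon
  push Not at hcon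
  obtain ⟨t, ht⟩ := hpos
  have hne : s ≠ t := by rintro rfl; linarith
  rcases lt_or_gt_of_ne hne with h | h
  · have hA : Alt (FF w x (q + 1)) 2 (-1) := by
      refine ⟨fun i => if i = 0 then s else t, ?_, ?_⟩
      · intro i hi
        have : i = 0 := by omega
        subst this
        simpa using h
      · intro i hi
        interval_cases i
        · simpa using hcon
        · simpa using ht
    have := alt_bound (by omega) w x (q + 1) hm 2 (by norm_num) (-1) (Or.inr rfl) hA
    omega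
  · have hA : Alt (FF w x (q + 1)) 2 1 := by
      refine ⟨fun i => if i = 0 then t else s, ?_, ?_⟩
      · intro i hi
        have : i = 0 := by omega
        subst this
        simpa using h
      · intro i hi
        interval_cases i
        · simpa using ht
        · simpa using hcon
    have := alt_bound (by omega) w x (q + 1) hm 2 (by norm_num) 1 (Or.inl rfl) hA
    omega

lemma iter_pow (m : ℕ) (s : ℝ) :
    iteratedDeriv m (fun y : ℝ => y ^ m) s = (m.factorial : ℝ) := by
  rw [iteratedDeriv_eq_iterate, iter_deriv_pow]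
  have h : ∀ m : ℕ, ∏ i ∈ Finset.range m, ((m : ℝ) - i) = (m.factorial : ℝ) := by
    intro m
    rw [← Finset.prod_range_reflect, ← Finset.prod_range_add_one_eq_factorial]
    push_cast
    apply Finset.prod_congr rfl
    intro i hi
    rw [Finset.mem_range] at hi
    have : i + 1 ≤ m := hi
    rw [Nat.cast_sub (by omega), Nat.cast_sub (by omega)]
    push_cast
    ring
  simp [h]

/-- reduction of integrals to the support -/
lemma supp_int {n : ℕ} (m : ℕ) (w x : Fin n → ℝ) (hm : ∀ j ≤ m, ∑ i, w i * x i ^ j = 0)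
    (a b : ℝ) (ha : -1 ≤ a) (hab : a ≤ b) (hb : b ≤ 1) (h0 : ∀ i, a ≤ x i) (h1 : ∀ i, x i ≤ b)
    (φ : ℝ → ℝ) (hφ : Continuous φ) :
    ∫ s in (-1 : ℝ)..1, FF w x m s * φ s = ∫ s in a..b, FF w x m s * φ s := by
  have hi : ∀ u v : ℝ, IntervalIntegrable (fun s => FF w x m s * φ s) volume u v := fun u v =>
    (FF_int w x m u v).mul_continuousOn hφ.continuousOn
  rw [← intervalIntegral.integral_add_adjacent_intervals (hi (-1) a) (hi a 1),
    ← intervalIntegral.integral_add_adjacent_intervals (hi a b) (hi b 1)]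
  have e1 : ∫ s in (-1 : ℝ)..a, FF w x m s * φ s = 0 := by
    apply intervalIntegral.integral_zero_ae
    have : ∀ᵐ s : ℝ ∂volume, s ≠ a := by
      simp [ae_iff]
    filter_upwards [this] with s hs hs2
    rw [Set.uIoc_of_le ha] at hs2
    rw [FF_left w x m hm s (fun i => lt_of_lt_of_le (lt_of_le_of_ne hs2.2 hs) (h0 i)), zero_mul]
  have e2 : ∫ s in b..1, FF w x m s * φ s = 0 := by
    apply intervalIntegral.integral_zero_ae
    filter_upwards with s hs2
    rw [Set.uIoc_of_le hb] at hs2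
    rw [FF_right w x m s (fun i => (h1 i).trans hs2.1.le), zero_mul]
  rw [e1, e2]; ring

theorem partA (q : ℕ) (x : Fin (q + 3) → ℝ) (hx : Function.Injective x)
    (hx1 : ∀ i, x i ∈ Set.Icc (-1 : ℝ) 1) (f : ℝ → ℝ)
    (hf : ContDiff ℝ ((q + 2 : ℕ) : WithTop ℕ∞) f)
    (hlip : LipschitzOnWith 1 (iteratedDeriv (q + 2) f) (Set.Icc (-1 : ℝ) 1))
    (h0 : ∀ i, f (x i) = 0) :
    ∫ s in (-1 : ℝ)..1, (iteratedDeriv (q + 2) f s) ^ 2 ≤
      ∫ s in (-1 : ℝ)..1, (s - (∑ i, x i) / ((q + 1 : ℕ) + 2)) ^ 2 := by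
  have : Nonempty (Fin (q + 3)) := ⟨0⟩
  set w : Fin (q + 3) → ℝ := fun i => (∏ l ∈ Finset.univ.erase i, (x i - x l))⁻¹ with hw
  have hm : ∀ j ≤ q + 1, ∑ i, w i * x i ^ j = 0 := fun j hj => moments_low x hx j (by omega)
  obtain ⟨i0, hi0⟩ := Finite.exists_min x
  obtain ⟨i1, hi1⟩ := Finite.exists_max x
  set a := x i0 with ha_def
  set b := x i1 with hb_def
  have hab : a < b := by
    have h01 : x (0 : Fin (q + 3)) ≠ x 1 := by
      intro h; have := hx h; simp at this
    rcases lt_or_gt_of_ne h01 with h | h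
    · have := hi0 0; have := hi1 1; linarith
    · have := hi0 1; have := hi1 0; linarith
  have ha : -1 ≤ a := (hx1 i0).1
  have hb : b ≤ 1 := (hx1 i1).2
  set g := iteratedDeriv (q + 2) f with hg
  have hgc : Continuous g := hf.continuous_iteratedDeriv (q + 2) le_rfl
  have hgl : ∀ u ∈ Set.Icc (-1 : ℝ) 1, ∀ v ∈ Set.Icc (-1 : ℝ) 1, |g u - g v| ≤ |u - v| := by
    intro u hu v hv
    have := hlip.dist_le_mul u hu v hv
    simpa [Real.dist_eq] using this
  have hfac : (0 : ℝ) < (q + 1).factorial := by positivity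
  -- integral of FF
  have hI1 : ((q + 1 : ℕ) + 1 : ℝ) * ∫ s in a..b, FF w x (q + 1) s = 1 := by
    have hp := peano (q + 1) w x hx1 hm (fun y => y ^ (q + 2)) (by fun_prop)
    have hmt : ∑ i, w i * x i ^ (q + 2) = 1 := moments_top x hx (q + 2) rfl
    rw [hmt] at hp
    have hs := supp_int (q + 1) w x hm a b ha hab.le hb hi0 hi1 (fun _ => ((q + 2).factorial : ℝ))
      continuous_const
    have e : ∀ s : ℝ, iteratedDeriv (q + 1 + 1) (fun y : ℝ => y ^ (q + 2)) s
        = ((q + 2).factorial : ℝ) := fun s => iter_pow (q + 2) s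
    simp_rw [e] at hp
    rw [hs, intervalIntegral.integral_mul_const] at hp
    have hfs : ((q + 2).factorial : ℝ) = ((q + 1 : ℕ) + 1 : ℝ) * (q + 1).factorial := by
      rw [Nat.factorial_succ]; push_cast; ring
    rw [hfs] at hp
    have hne : ((q + 1).factorial : ℝ) ≠ 0 := hfac.ne'
    have h5 : (1 : ℝ) / ((q + 1).factorial : ℝ) * ((∫ s in a..b, FF w x (q + 1) s) *
        ((((q + 1 : ℕ) : ℝ) + 1) * ((q + 1).factorial : ℝ)))
        = (((q + 1 : ℕ) : ℝ) + 1) * ∫ s in a..b, FF w x (q + 1) s := by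
      field_simp
    rw [← h5]; exact hp.symm
  set M : ℝ → ℝ := fun s => ((q + 1 : ℕ) + 1 : ℝ) * FF w x (q + 1) s with hM
  have hc1 : (0 : ℝ) < ((q + 1 : ℕ) + 1 : ℝ) := by positivity
  have hMint : IntervalIntegrable M volume a b := (FF_int w x (q + 1) a b).const_mul _
  have hM1 : ∫ s in a..b, M s = 1 := by
    rw [hM, intervalIntegral.integral_const_mul]; exact hI1
  have hpos : ∃ s, 0 < FF w x (q + 1) s := by
    by_contra hcon
    push Not at hcon
    have h1 : ∫ s in a..b, FF w x (q + 1) s ≤ 0 := by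
      have := intervalIntegral.integral_mono_on hab.le (FF_int w x (q + 1) a b)
        (intervalIntegrable_const (c := (0 : ℝ))) (fun s _ => hcon s)
      simpa using this
    have h2 : ((q + 1 : ℕ) + 1 : ℝ) * ∫ s in a..b, FF w x (q + 1) s ≤ 0 :=
      mul_nonpos_of_nonneg_of_nonpos hc1.le h1
    linarith
  have hM0 : ∀ s, 0 ≤ M s := fun s => mul_nonneg hc1.le (FF_nonneg q w x hm hpos s)
  have hMc : Continuous M := (FF_cont w x q).const_mul _
  -- centring of g
  have hg0 : ∫ s in a..b, M s * g s = 0 := by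
    have hp := peano (q + 1) w x hx1 hm f hf
    have hz : ∑ i, w i * f (x i) = 0 := by simp [h0]
    rw [hz, supp_int (q + 1) w x hm a b ha hab.le hb hi0 hi1 _ hgc] at hp
    have h3 : ∫ s in a..b, FF w x (q + 1) s * g s = 0 := by
      rcases mul_eq_zero.mp hp.symm with h | h
      · exfalso
        have : (0 : ℝ) < 1 / ((q + 1).factorial : ℝ) := by positivity
        linarith
      · exact h
    have e : ∀ s, M s * g s = ((q + 1 : ℕ) + 1 : ℝ) * (FF w x (q + 1) s * g s) := fun s => by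
      simp only [hM]; ring
    simp_rw [e]
    rw [intervalIntegral.integral_const_mul, h3, mul_zero]
  set c := (∑ i, x i) / (((q + 1 : ℕ) : ℝ) + 2) with hc
  have hcc : ∫ s in a..b, M s * s = c := by
    have hp := peano (q + 1) w x hx1 hm
      (fun y => (∏ i, (y - x i)) / ((q + 1 + 2).factorial : ℝ)) (by fun_prop)
    have hz : ∑ i, w i * ((∏ l, (x i - x l)) / ((q + 1 + 2).factorial : ℝ)) = 0 := by
      apply Finset.sum_eq_zero
      intro i _
      rw [Finset.prod_eq_zero (Finset.mem_univ i) (sub_self _)]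
      simp
    rw [hz] at hp
    have e : ∀ s : ℝ, iteratedDeriv (q + 1 + 1) (fun y : ℝ => (∏ i, (y - x i)) /
        ((q + 1 + 2).factorial : ℝ)) s = s - c := fun s => omega_deriv (q + 1) x s
    simp_rw [e] at hp
    rw [supp_int (q + 1) w x hm a b ha hab.le hb hi0 hi1 (fun s => s - c) (by fun_prop)] at hp
    have h3 : ∫ s in a..b, FF w x (q + 1) s * (s - c) = 0 := by
      rcases mul_eq_zero.mp hp.symm with h | h
      · exfalso
        have : (0 : ℝ) < 1 / ((q + 1).factorial : ℝ) := by positivity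
        linarith
      · exact h
    have e2 : ∀ s, M s * s = ((q + 1 : ℕ) + 1 : ℝ) * (FF w x (q + 1) s * (s - c)) + c * M s :=
      fun s => by simp only [hM]; ring
    simp_rw [e2]
    rw [intervalIntegral.integral_add, intervalIntegral.integral_const_mul,
      intervalIntegral.integral_const_mul, h3, hM1]
    · ring
    · exact ((FF_int w x (q + 1) a b).mul_continuousOn (by fun_prop)).const_mul _
    · exact hMint.const_mul _
  obtain ⟨y1, z, y2, r1, r2, r3, r4, r5, r6, r7, r8⟩ := level_points a b hab M hMc.continuousOn hM1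
    (fun c hc s1 s2 s3 _ _ _ h12 h23 h1 h3 => by
      have hc' : 0 < c / ((q + 1 : ℕ) + 1 : ℝ) := by positivity
      have t1 : c / ((q + 1 : ℕ) + 1 : ℝ) ≤ FF w x (q + 1) s1 := by
        rw [div_le_iff₀ hc1]; simp only [hM] at h1; linarith
      have t3 : c / ((q + 1 : ℕ) + 1 : ℝ) ≤ FF w x (q + 1) s3 := by
        rw [div_le_iff₀ hc1]; simp only [hM] at h3; linarith
      have t2 := quasi q w x hm _ hc' s1 s2 s3 h12 h23 t1 t3
      rw [div_le_iff₀ hc1] at t2
      simp only [hM]; linarith)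
  have hcheb : ∀ P Q : ℝ → ℝ, MonotoneOn P (Set.Icc a b) → MonotoneOn Q (Set.Icc a b) →
      ContinuousOn P (Set.Icc a b) → ContinuousOn Q (Set.Icc a b) →
      ∫ x in a..b, M x * P x = 0 → ∫ x in a..b, M x * Q x = 0 → 0 ≤ ∫ x in a..b, P x * Q x :=
    fun P Q hP hQ hPc hQc hP0 hQ0 =>
      mixed_chebyshev a b hab M hMint (fun s _ => hM0 s) hM1 y1 z y2 r1 r2 r3 r4 r5 r6 r7 r8 P Q
        hP hQ hPc hQc hP0 hQ0
  have hsub : ∀ u ∈ Set.Icc a b, u ∈ Set.Icc (-1 : ℝ) 1 := fun u hu =>
    ⟨ha.trans hu.1, hu.2.trans hb⟩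
  have hin := inside_bound a b hab M hMint hM1 hcheb g
    (fun u hu v hv => hgl u (hsub u hu) v (hsub v hv)) hg0 c hcc
  obtain ⟨o1, o2⟩ := outside_bound a b hab ha hb M hMint (fun s _ => hM0 s) hM1 g hgl hg0 c hcc
  exact glue a b hab ha hb g c hgc o1 o2 hin

end
end Pool.H611.BS
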