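import Mathlib
import Pool.Agent.Helper611.BS.B1
import Pool.Agent.Helper611.BS.G1
import Pool.Agent.Helper611.BS.G2
import Pool.Agent.Helper611.BS.G3
import Pool.Agent.Helper611.BS.G4

set_option autoImplicit false

namespace Pool.H611.BS
open MeasureTheory
noncomputable section

lemma uniform_inside (a b : ℝ) (hab : a < b) (g : ℝ → ℝ)
    (hg : ∀ x ∈ Set.Icc a b, ∀ y ∈ Set.Icc a b, |g x - g y| ≤ |x - y|)
    (hgc : ContinuousOn g (Set.Icc a b))
    (hg0 : ∫ x in a..b, g x = 0) (p : ℝ) (hp : 1 ≤ p) :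
    ∫ x in a..b, |g x| ^ p ≤ ∫ x in a..b, |x - (a + b) / 2| ^ p := by
  apply hinge_to_rpow a b hab (fun x => |g x|) (fun x => |x - (a + b) / 2|) hgc.abs
    (by fun_prop) (fun x _ => abs_nonneg _) (fun x _ => abs_nonneg _) _ p hp
  intro t ht
  rw [hinge_value a b hab t ht]
  have tri := fun (a b : ℝ) (hab : a < b) (u : ℝ → ℝ)
      (hu : ∀ x ∈ Set.Icc a b, ∀ y ∈ Set.Icc a b, |u x - u y| ≤ |x - y|)
      (hu0 : ∀ x ∈ Set.Icc a b, 0 ≤ u x) (ξ : ℝ) (hξ : ξ ∈ Set.Icc a b) (hξ0 : u ξ = 0) =>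
    tri_bound a b hab u hu hu0 ξ hξ hξ0
  have h1 := hinge_bound tri a b hab g hg hg0 t ht
  have h2 := hinge_bound tri a b hab (fun x => - g x)
    (fun x hx y hy => by
      have := hg x hx y hy
      rw [show -g x - -g y = -(g x - g y) by ring, abs_neg]; exact this)
    (by rw [intervalIntegral.integral_neg, hg0, neg_zero]) t ht
  have e : ∀ x, max (|g x| - t) 0 = max (g x - t) 0 + max (-g x - t) 0 := by
    intro x
    rcases le_total 0 (g x) with h | h
    · rw [abs_of_nonneg h, max_eq_right (show -g x - t ≤ 0 by linarith), add_zero]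
    · rw [abs_of_nonpos h, max_eq_right (show g x - t ≤ 0 by linarith), zero_add]
  have hu : Set.uIcc a b = Set.Icc a b := Set.uIcc_of_le hab.le
  simp_rw [e]
  rw [intervalIntegral.integral_add]
  · linarith
  · apply ContinuousOn.intervalIntegrable
    rw [hu]
    exact ContinuousOn.sup (hgc.sub continuousOn_const) continuousOn_const
  · apply ContinuousOn.intervalIntegrable
    rw [hu]
    exact ContinuousOn.sup (hgc.neg.sub continuousOn_const) continuousOn_const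

theorem partB (x : Fin 2 → ℝ) (hx : Function.Injective x)
    (hx1 : ∀ i, x i ∈ Set.Icc (-1 : ℝ) 1) (p : ℝ) (hp : 1 ≤ p) (f : ℝ → ℝ)
    (hf : ContDiff ℝ 1 f)
    (hlip : LipschitzOnWith 1 (deriv f) (Set.Icc (-1 : ℝ) 1))
    (h0 : ∀ i, f (x i) = 0) :
    ∫ s in (-1 : ℝ)..1, |deriv f s| ^ p ≤
      ∫ s in (-1 : ℝ)..1, |s - (x 0 + x 1) / 2| ^ p := by
  have hne : x 0 ≠ x 1 := fun h => by have := hx h; simp at this
  have hab : min (x 0) (x 1) < max (x 0) (x 1) := min_lt_max.mpr hne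
  have ha : -1 ≤ min (x 0) (x 1) := le_min (hx1 0).1 (hx1 1).1
  have hb : max (x 0) (x 1) ≤ 1 := max_le (hx1 0).2 (hx1 1).2
  have hgc : Continuous (deriv f) := hf.continuous_deriv (by norm_num)
  have hgl : ∀ u ∈ Set.Icc (-1 : ℝ) 1, ∀ v ∈ Set.Icc (-1 : ℝ) 1,
      |deriv f u - deriv f v| ≤ |u - v| := by
    intro u hu v hv
    have := hlip.dist_le_mul u hu v hv
    simpa [Real.dist_eq] using this
  have hg0 := two_nodes x hx f hf h0
  have hsub : ∀ u ∈ Set.Icc (min (x 0) (x 1)) (max (x 0) (x 1)), u ∈ Set.Icc (-1 : ℝ) 1 :=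
    fun u hu => ⟨ha.trans hu.1, hu.2.trans hb⟩
  have hin := uniform_inside _ _ hab (deriv f)
    (fun u hu v hv => hgl u (hsub u hu) v (hsub v hv)) hgc.continuousOn hg0 p hp
  obtain ⟨o1, o2⟩ := uniform_outside _ _ hab ha hb (deriv f) hgl hg0
  have := glue_rpow _ _ hab ha hb (deriv f) _ hgc p hp o1 o2 hin
  have e : (min (x 0) (x 1) + max (x 0) (x 1)) / 2 = (x 0 + x 1) / 2 := by
    rw [min_add_max]
  rw [e] at this
  exact this

end
end Pool.H611.BS
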