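import Mathlib
import Pool.Agent.Helper611.BS.B1
import Pool.Agent.Helper611.BS.N3

set_option autoImplicit false

namespace Pool.H611.BS
open MeasureTheory
noncomputable section

theorem partC (x : Fin 3 → ℝ) (hx : Function.Injective x)
    (hx1 : ∀ i, x i ∈ Set.Icc (-1 : ℝ) 1) (f : ℝ → ℝ)
    (hf : ContDiff ℝ 2 f)
    (hlip : LipschitzOnWith 1 (iteratedDeriv 2 f) (Set.Icc (-1 : ℝ) 1))
    (h0 : ∀ i, f (x i) = 0) :
    ∫ s in (-1 : ℝ)..1, (deriv f s) ^ 2 ≤
      ∫ s in (-1 : ℝ)..1, (deriv (fun y => (∏ i, (y - x i)) / ((3 : ℕ).factorial : ℝ)) s) ^ 2 := by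
  set ω : ℝ → ℝ := fun y => (∏ i, (y - x i)) / ((3 : ℕ).factorial : ℝ) with hω
  have hωc : ContDiff ℝ 2 ω := by
    rw [hω]
    apply ContDiff.div_const
    apply contDiff_prod
    intro i _
    fun_prop
  obtain ⟨σ, hσ⟩ : ∃ σ : Equiv.Perm (Fin 3), StrictMono (x ∘ σ) := by
    refine ⟨Tuple.sort x, (Tuple.monotone_sort x).strictMono_of_injective ?_⟩
    exact hx.comp (Tuple.sort x).injective
  have ham : x (σ 0) < x (σ 1) := hσ (by decide)
  have hmb : x (σ 1) < x (σ 2) := hσ (by decide)
  have hω0 : ∀ i, ω (x i) = 0 := by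
    intro i
    simp only [hω]
    rw [Finset.prod_eq_zero (Finset.mem_univ i) (sub_self _), zero_div]
  have hωd : ∀ y, iteratedDeriv 2 ω y = y - (∑ i, x i) / (1 + 2) := fun y => by
    have h := omega_deriv 1 x y
    rw [Nat.cast_one] at h
    exact h
  have hfl : ∀ u ∈ Set.Icc (-1 : ℝ) 1, ∀ v ∈ Set.Icc (-1 : ℝ) 1,
      |iteratedDeriv 2 f u - iteratedDeriv 2 f v| ≤ |u - v| := by
    intro u hu v hv
    have := hlip.dist_le_mul u hu v hv
    simpa [Real.dist_eq] using this
  have hdf : ContDiff ℝ 1 (deriv f) := by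
    have : ContDiff ℝ (1 + 1) f := by norm_num; exact hf
    exact (contDiff_succ_iff_deriv.mp this).2.2
  have hdω : ContDiff ℝ 1 (deriv ω) := by
    have : ContDiff ℝ (1 + 1) ω := by norm_num; exact hωc
    exact (contDiff_succ_iff_deriv.mp this).2.2
  have e2f : deriv (deriv f) = iteratedDeriv 2 f := by
    rw [iteratedDeriv_succ, iteratedDeriv_one]
  have e2ω : deriv (deriv ω) = iteratedDeriv 2 ω := by
    rw [iteratedDeriv_succ, iteratedDeriv_one]
  have dP : deriv (fun s => deriv ω s - deriv f s) = fun s => iteratedDeriv 2 ω s - iteratedDeriv 2 f s := by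
    funext s
    rw [← e2f, ← e2ω]
    exact deriv_fun_sub (hdω.differentiable (by norm_num) s) (hdf.differentiable (by norm_num) s)
  have dQ : deriv (fun s => deriv ω s + deriv f s) = fun s => iteratedDeriv 2 ω s + iteratedDeriv 2 f s := by
    funext s
    rw [← e2f, ← e2ω]
    exact deriv_fun_add (hdω.differentiable (by norm_num) s) (hdf.differentiable (by norm_num) s)
  have cP : ConvexOn ℝ (Set.Icc (-1 : ℝ) 1) (fun s => deriv ω s - deriv f s) := by
    apply convex_of_deriv_mono _ (hdω.sub hdf)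
    rw [dP]
    intro u hu v hv huv
    have := hfl u hu v hv
    rw [abs_of_nonpos (show u - v ≤ 0 by linarith)] at this
    have h3 := abs_le.mp this
    simp only [hωd]
    linarith [h3.1, h3.2]
  have cQ : ConvexOn ℝ (Set.Icc (-1 : ℝ) 1) (fun s => deriv ω s + deriv f s) := by
    apply convex_of_deriv_mono _ (hdω.add hdf)
    rw [dQ]
    intro u hu v hv huv
    have := hfl u hu v hv
    rw [abs_of_nonpos (show u - v ≤ 0 by linarith)] at this
    have h3 := abs_le.mp this
    simp only [hωd]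
    linarith [h3.1, h3.2]
  have If : ∀ i j, ∫ s in (x i)..(x j), deriv f s = 0 := by
    intro i j
    rw [intervalIntegral.integral_deriv_eq_sub' f rfl
      (fun s _ => hf.differentiable (by norm_num) s) hdf.continuous.continuousOn, h0, h0, sub_zero]
  have Iω : ∀ i j, ∫ s in (x i)..(x j), deriv ω s = 0 := by
    intro i j
    rw [intervalIntegral.integral_deriv_eq_sub' ω rfl
      (fun s _ => hωc.differentiable (by norm_num) s) hdω.continuous.continuousOn, hω0, hω0,
      sub_zero]
  have ii : ∀ (h : ℝ → ℝ), ContDiff ℝ 1 h → ∀ u v, IntervalIntegrable h volume u v :=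
    fun h hh u v => hh.continuous.intervalIntegrable u v
  have IP : ∀ i j, ∫ s in (x i)..(x j), (deriv ω s - deriv f s) = 0 := by
    intro i j
    rw [intervalIntegral.integral_sub (ii _ hdω _ _) (ii _ hdf _ _), If, Iω, sub_zero]
  have IQ : ∀ i j, ∫ s in (x i)..(x j), (deriv ω s + deriv f s) = 0 := by
    intro i j
    rw [intervalIntegral.integral_add (ii _ hdω _ _) (ii _ hdf _ _), If, Iω, add_zero]
  have key := convex_pair (x (σ 0)) (x (σ 1)) (x (σ 2)) (hx1 _).1 ham hmb (hx1 _).2
    (fun s => deriv ω s - deriv f s) (fun s => deriv ω s + deriv f s) cP cQ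
    (hdω.sub hdf).continuous (hdω.add hdf).continuous (IP _ _) (IP _ _) (IQ _ _) (IQ _ _)
  have e : ∀ s, (deriv ω s - deriv f s) * (deriv ω s + deriv f s)
      = (deriv ω s) ^ 2 - (deriv f s) ^ 2 := fun s => by ring
  simp_rw [e] at key
  have k1 : IntervalIntegrable (fun s => (deriv ω s) ^ 2) volume (-1) 1 :=
    (hdω.continuous.pow 2).intervalIntegrable _ _
  have k2 : IntervalIntegrable (fun s => (deriv f s) ^ 2) volume (-1) 1 :=
    (hdf.continuous.pow 2).intervalIntegrable _ _
  rw [intervalIntegral.integral_sub k1 k2] at key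
  linarith

end
end Pool.H611.BS
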