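import Mathlib
import Pool.Agent.Helper611.BS.Def2

set_option autoImplicit false

namespace Pool.H611.BS
open MeasureTheory
noncomputable section



def FK (y : ℝ) (k : ℕ) (G : ℝ → ℝ) : ℝ → ℝ := fun x => ∫ t in (0:ℝ)..1, t ^ k * G (y + t * (x - y))

lemma FK_cont (y : ℝ) (k : ℕ) (G : ℝ → ℝ) (hG : Continuous G) : Continuous (FK y k G) := by
  unfold FK
  apply intervalIntegral.continuous_parametric_intervalIntegral_of_continuous'
  simp only [Function.uncurry_def]
  fun_prop

lemma FK_deriv (y : ℝ) (k : ℕ) (G : ℝ → ℝ) (hG : ContDiff ℝ 1 G) (x : ℝ) :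
    HasDerivAt (FK y k G) (FK y (k + 1) (deriv G) x) x := by
  have hGc : Continuous G := hG.continuous
  have hdc : Continuous (deriv G) := hG.continuous_deriv le_rfl
  have hd : Differentiable ℝ G := hG.differentiable one_ne_zero
  have hcomp : IsCompact ((fun p : ℝ × ℝ => y + p.1 * (p.2 - y)) ''
      (Set.Icc (0:ℝ) 1 ×ˢ Set.Icc (x - 1) (x + 1))) :=
    (isCompact_Icc.prod isCompact_Icc).image (by fun_prop)
  obtain ⟨M, hM⟩ := (hcomp.exists_bound_of_continuousOn hdc.continuousOn)
  have hcF : ∀ x' : ℝ, Continuous (fun t : ℝ => t ^ k * G (y + t * (x' - y))) := by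
    intro x'; fun_prop
  have hcF' : ∀ x' : ℝ, Continuous (fun t : ℝ => t ^ (k + 1) * deriv G (y + t * (x' - y))) := by
    intro x'; fun_prop
  have key := intervalIntegral.hasDerivAt_integral_of_dominated_loc_of_deriv_le (𝕜 := ℝ)
    (μ := volume) (F := fun x' t => t ^ k * G (y + t * (x' - y)))
    (F' := fun x' t => t ^ (k + 1) * deriv G (y + t * (x' - y))) (x₀ := x)
    (s := Metric.ball x 1) (bound := fun _ => M) (a := 0) (b := 1)
    (Metric.ball_mem_nhds x one_pos)
    (Filter.Eventually.of_forall fun x' => (hcF x').aestronglyMeasurable)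
    ((hcF x).intervalIntegrable 0 1)
    (hcF' x).aestronglyMeasurable ?_ intervalIntegrable_const ?_
  · exact key.2
  · refine Filter.Eventually.of_forall fun t ht x' hx' => ?_
    rw [Set.uIoc_of_le zero_le_one] at ht
    rw [Metric.mem_ball, Real.dist_eq, abs_lt] at hx'
    have h1 := hM (y + t * (x' - y)) ⟨(t, x'), ⟨⟨ht.1.le, ht.2⟩, by constructor <;> linarith [hx'.1, hx'.2]⟩, rfl⟩
    rw [norm_mul, norm_pow, Real.norm_eq_abs t, abs_of_pos ht.1]
    calc t ^ (k + 1) * ‖deriv G (y + t * (x' - y))‖ ≤ 1 * ‖deriv G (y + t * (x' - y))‖ :=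
          mul_le_mul_of_nonneg_right (pow_le_one₀ ht.1.le ht.2) (norm_nonneg _)
      _ ≤ M := by rw [one_mul]; exact h1
  · refine Filter.Eventually.of_forall fun t _ x' _ => ?_
    have h1 : HasDerivAt (fun x' : ℝ => y + t * (x' - y)) t x' := by
      have := (((hasDerivAt_id x').sub_const y).const_mul t).const_add y
      simpa using this
    have h2 : HasDerivAt (fun x' : ℝ => G (y + t * (x' - y)))
        (deriv G (y + t * (x' - y)) * t) x' := (hd _).hasDerivAt.comp x' h1
    have h3 := h2.const_mul (t ^ k)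
    have h4 : t ^ k * (deriv G (y + t * (x' - y)) * t) =
        t ^ (k + 1) * deriv G (y + t * (x' - y)) := by ring
    rw [h4] at h3
    exact h3

lemma FK_iter (y : ℝ) (j : ℕ) : ∀ (k : ℕ) (G : ℝ → ℝ), ContDiff ℝ (j : WithTop ℕ∞) G →
    ContDiff ℝ (j : WithTop ℕ∞) (FK y k G) ∧
    iteratedDeriv j (FK y k G) = FK y (k + j) (iteratedDeriv j G) := by
  induction j with
  | zero =>
    intro k G hG
    refine ⟨?_, ?_⟩
    · have h0 : ContDiff ℝ 0 G := by exact_mod_cast hG
      have : ContDiff ℝ 0 (FK y k G) := contDiff_zero.mpr (FK_cont y k G (contDiff_zero.mp h0))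
      exact_mod_cast this
    · rw [iteratedDeriv_zero, iteratedDeriv_zero, add_zero]
  | succ j ih =>
    intro k G hG
    have hG' : ContDiff ℝ ((j : WithTop ℕ∞) + 1) G := by exact_mod_cast hG
    have hG1 : ContDiff ℝ 1 G := hG'.of_le (by simp)
    have hder : deriv (FK y k G) = FK y (k + 1) (deriv G) := by
      funext x
      exact (FK_deriv y k G hG1 x).deriv
    have hdG : ContDiff ℝ (j : WithTop ℕ∞) (deriv G) := (contDiff_succ_iff_deriv.mp hG').2.2
    obtain ⟨h1, h2⟩ := ih (k + 1) (deriv G) hdG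
    refine ⟨?_, ?_⟩
    · have : ContDiff ℝ ((j : WithTop ℕ∞) + 1) (FK y k G) := by
        rw [contDiff_succ_iff_deriv]
        refine ⟨fun x => (FK_deriv y k G hG1 x).differentiableAt, ?_, ?_⟩
        · intro h; exact absurd h (by simp)
        · rw [hder]; exact h1
      exact_mod_cast this
    · rw [iteratedDeriv_succ', hder, h2, iteratedDeriv_succ']
      congr 1
      ring

/-- dividing out a zero -/
lemma mon_div (m : ℕ) (P : ℝ → ℝ) (hP : Mon (m + 1) P) (y : ℝ) (hy : y ∈ Set.Icc (-1 : ℝ) 1)
    (h0 : P y = 0) : ∃ R : ℝ → ℝ, Mon m R ∧ ∀ x, P x = (x - y) * R x := by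
  obtain ⟨hC, hmon⟩ := hP
  have hC' : ContDiff ℝ ((m : WithTop ℕ∞) + 1) P := by exact_mod_cast hC
  have hdP : ContDiff ℝ (m : WithTop ℕ∞) (deriv P) := (contDiff_succ_iff_deriv.mp hC').2.2
  have hdiff : Differentiable ℝ P := (contDiff_succ_iff_deriv.mp hC').1
  obtain ⟨h1, h2⟩ := FK_iter y m 0 (deriv P) hdP
  refine ⟨FK y 0 (deriv P), ⟨h1, ?_⟩, ?_⟩
  · rw [h2, ← iteratedDeriv_succ']
    intro x hx x' hx' hxx'
    have hcont : Continuous (iteratedDeriv (m + 1) P) := by
      rw [iteratedDeriv_succ']
      exact hdP.continuous_iteratedDeriv m le_rfl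
    unfold FK
    apply intervalIntegral.integral_mono_on zero_le_one
    · exact (by fun_prop : Continuous fun t : ℝ =>
        t ^ (0 + m) * iteratedDeriv (m + 1) P (y + t * (x - y))).intervalIntegrable 0 1
    · exact (by fun_prop : Continuous fun t : ℝ =>
        t ^ (0 + m) * iteratedDeriv (m + 1) P (y + t * (x' - y))).intervalIntegrable 0 1
    · intro t ht
      have hmem : ∀ z ∈ Set.Icc (-1:ℝ) 1, y + t * (z - y) ∈ Set.Icc (-1:ℝ) 1 := by
        intro z hz
        have e : y + t * (z - y) = (1 - t) * y + t * z := by ring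
        have h1t : 0 ≤ 1 - t := by linarith [ht.2]
        rw [e]
        constructor
        · have := mul_le_mul_of_nonneg_left hy.1 h1t
          have := mul_le_mul_of_nonneg_left hz.1 ht.1
          nlinarith
        · have := mul_le_mul_of_nonneg_left hy.2 h1t
          have := mul_le_mul_of_nonneg_left hz.2 ht.1
          nlinarith
      apply mul_le_mul_of_nonneg_left _ (pow_nonneg ht.1 _)
      apply hmon (hmem x hx) (hmem x' hx')
      have := mul_le_mul_of_nonneg_left hxx' ht.1
      nlinarith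
  · intro x
    have hdc : Continuous (deriv P) := hdP.continuous
    have hFTC := intervalIntegral.integral_eq_sub_of_hasDerivAt (a := 0) (b := 1)
      (f := fun t : ℝ => P (y + t * (x - y)))
      (f' := fun t : ℝ => deriv P (y + t * (x - y)) * (x - y)) ?_ ?_
    · simp only [one_mul, zero_mul, add_zero] at hFTC
      have e1 : y + (x - y) = x := by ring
      rw [e1, h0, sub_zero, intervalIntegral.integral_mul_const] at hFTC
      rw [← hFTC]
      unfold FK
      simp only [pow_zero, one_mul]
      ring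
    · intro t _
      have h3 : HasDerivAt (fun t : ℝ => y + t * (x - y)) (x - y) t := by
        have := ((hasDerivAt_id t).mul_const (x - y)).const_add y
        simpa using this
      exact (hdiff _).hasDerivAt.comp t h3
    · exact (by fun_prop : Continuous fun t : ℝ =>
        deriv P (y + t * (x - y)) * (x - y)).intervalIntegrable 0 1

end
end Pool.H611.BS
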