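import Mathlib
import Pool.Agent.Helper611.BS.Def2

set_option autoImplicit false

namespace Pool.H611.BS
open MeasureTheory
noncomputable section



theorem T2_tele (a b K : ℝ) (hab : a < b) (_ : 0 ≤ K) (Φ u : ℝ → ℝ)
    (h : ∀ x y, a ≤ x → x ≤ y → y ≤ b → -(K * (y - x) * (u y - u x)) ≤ Φ y - Φ x) :
    Φ a ≤ Φ b := by
  have hn : ∀ n : ℕ, -(K * (b - a) * (u b - u a)) / ((n:ℝ) + 1) ≤ Φ b - Φ a := by
    intro n
    have hn0 : (0:ℝ) < (n:ℝ) + 1 := by positivity
    set x : ℕ → ℝ := fun i => a + i * ((b - a) / ((n:ℝ) + 1)) with hx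
    have hδ : 0 < (b - a) / ((n:ℝ) + 1) := div_pos (by linarith) hn0
    have hx0 : x 0 = a := by simp [hx]
    have hxn : x (n + 1) = b := by
      simp only [hx]; push_cast; field_simp; ring
    have h1 := Finset.sum_range_sub (fun i => Φ (x i)) (n + 1)
    have h2 := Finset.sum_range_sub (fun i => u (x i)) (n + 1)
    simp only [hx0, hxn] at h1 h2
    rw [← h1]
    have h3 : -(K * (b - a) * (u b - u a)) / ((n:ℝ) + 1) =
        ∑ i ∈ Finset.range (n + 1), -(K * ((b - a) / ((n:ℝ) + 1)) * (u (x (i + 1)) - u (x i))) := by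
      rw [Finset.sum_neg_distrib, ← Finset.mul_sum, h2]
      field_simp
    rw [h3]
    refine Finset.sum_le_sum fun i hi => ?_
    have hi' := Finset.mem_range.1 hi
    have e : x (i + 1) - x i = (b - a) / ((n:ℝ) + 1) := by
      simp only [hx]; push_cast; ring
    have g1 : a ≤ x i := by
      simp only [hx]
      have : 0 ≤ (i:ℝ) * ((b - a) / ((n:ℝ) + 1)) := by positivity
      linarith
    have g2 : x (i + 1) ≤ b := by
      rw [← hxn]
      simp only [hx]
      have : ((i + 1 : ℕ) : ℝ) ≤ ((n + 1 : ℕ) : ℝ) := by exact_mod_cast hi'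
      have := mul_le_mul_of_nonneg_right this hδ.le
      linarith
    have := h (x i) (x (i + 1)) g1 (by linarith) g2
    rwa [e] at this
  by_contra hcon
  have hcon' : Φ b - Φ a < 0 := by linarith [not_le.1 hcon]
  have ht : Filter.Tendsto (fun n : ℕ => -(K * (b - a) * (u b - u a)) / ((n:ℝ) + 1))
      Filter.atTop (nhds 0) := by
    have := (tendsto_one_div_add_atTop_nhds_zero_nat (𝕜 := ℝ)).const_mul
      (-(K * (b - a) * (u b - u a)))
    simp only [mul_zero] at this
    refine this.congr fun n => ?_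
    ring
  have := le_of_tendsto ht (Filter.Eventually.of_forall hn)
  linarith

/-- weak integration by parts -/
lemma weak_parts (a b : ℝ) (hab : a < b) (u Z : ℝ → ℝ) (hu : Continuous u)
    (hum : MonotoneOn u (Set.Icc a b)) (hZ : ContDiff ℝ 1 Z) (hZa : Z a = 0) (hZb : Z b = 0)
    (hZ0 : ∀ x ∈ Set.Icc a b, Z x ≤ 0) : 0 ≤ ∫ x in a..b, u x * deriv Z x := by
  have hZ' : Continuous (deriv Z) := hZ.continuous_deriv le_rfl
  have hZd : Differentiable ℝ Z := hZ.differentiable one_ne_zero
  obtain ⟨K, hK⟩ := isCompact_Icc.exists_bound_of_continuousOn (s := Set.Icc a b) hZ'.continuousOn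
  have hK0 : 0 ≤ K := (norm_nonneg _).trans (hK a ⟨le_rfl, hab.le⟩)
  have hint : ∀ x y, IntervalIntegrable (fun t => u t * deriv Z t) volume x y :=
    fun x y => (hu.mul hZ').intervalIntegrable x y
  have key := T2_tele a b K hab hK0 (fun x => (∫ t in a..x, u t * deriv Z t) - u x * Z x) u ?_
  · simpa [hZa, hZb] using key
  intro x y hax hxy hyb
  have e1 : (∫ t in a..y, u t * deriv Z t) - (∫ t in a..x, u t * deriv Z t) =
      ∫ t in x..y, u t * deriv Z t := intervalIntegral.integral_interval_sub_left (hint a y) (hint a x)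
  have e2 : ∫ t in x..y, (u t - u y) * deriv Z t =
      (∫ t in x..y, u t * deriv Z t) - u y * (Z y - Z x) := by
    have e3 : ∫ t in x..y, u y * deriv Z t = u y * (Z y - Z x) := by
      rw [intervalIntegral.integral_const_mul, intervalIntegral.integral_deriv_eq_sub
        (fun t _ => hZd t) (hZ'.intervalIntegrable _ _)]
    have hi2 : IntervalIntegrable (fun t => u y * deriv Z t) volume x y :=
      (continuous_const.mul hZ').intervalIntegrable _ _
    rw [← e3, ← intervalIntegral.integral_sub (hint x y) hi2]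
    refine intervalIntegral.integral_congr fun t _ => ?_
    show (u t - u y) * deriv Z t = u t * deriv Z t - u y * deriv Z t
    ring
  have hb : ‖∫ t in x..y, (u t - u y) * deriv Z t‖ ≤ ((u y - u x) * K) * |y - x| := by
    refine intervalIntegral.norm_integral_le_of_norm_le_const fun t ht => ?_
    rw [Set.uIoc_of_le hxy] at ht
    have ht1 : t ∈ Set.Icc a b := ⟨hax.trans ht.1.le, ht.2.trans hyb⟩
    have hy1 : y ∈ Set.Icc a b := ⟨hax.trans hxy, hyb⟩
    have hx1 : x ∈ Set.Icc a b := ⟨hax, hxy.trans hyb⟩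
    have m1 := hum ht1 hy1 ht.2
    have m2 := hum hx1 ht1 ht.1.le
    rw [norm_mul]
    refine mul_le_mul ?_ (hK t ht1) (norm_nonneg _) (by linarith)
    rw [Real.norm_eq_abs, abs_le]
    constructor <;> linarith
  rw [Real.norm_eq_abs, abs_of_nonneg (by linarith : (0:ℝ) ≤ y - x)] at hb
  have hb1 := (abs_le.1 hb).1
  have hx1 : x ∈ Set.Icc a b := ⟨hax, hxy.trans hyb⟩
  have hy1 : y ∈ Set.Icc a b := ⟨hax.trans hxy, hyb⟩
  have m3 := hum hx1 hy1 hxy
  have hZx := hZ0 x hx1
  have h5 : 0 ≤ (u y - u x) * (-Z x) := mul_nonneg (by linarith) (by linarith)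
  nlinarith

end
end Pool.H611.BS
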