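import Mathlib
import Pool.Agent.Helper611.BS.Def2

set_option autoImplicit false

namespace Pool.H611.BS
open MeasureTheory
noncomputable section




lemma BST3_neg (a b : ℝ) (_hab : a < b) (U : ℝ → ℝ) (hU : ContDiff ℝ 1 U)
    (hUm : MonotoneOn (deriv U) (Set.Icc a b)) (hUa : U a = 0) (hUb : U b = 0) :
    ∀ x ∈ Set.Icc a b, U x ≤ 0 := by
  intro x hx
  have hc : ConvexOn ℝ (Set.Icc a b) U := by
    apply MonotoneOn.convexOn_of_deriv (convex_Icc a b) hU.continuous.continuousOn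
    · exact (hU.differentiable (by norm_num)).differentiableOn
    · exact hUm.mono interior_subset
  have := hc.le_max_of_mem_Icc (Set.left_mem_Icc.2 _hab.le) (Set.right_mem_Icc.2 _hab.le) hx
  rwa [hUa, hUb, max_self] at this

lemma BST3_der (f g : ℝ → ℝ) (hf : ContDiff ℝ 1 f) (hg : ContDiff ℝ 1 g) (x : ℝ) :
    deriv (fun x => f x * g x) x = deriv f x * g x + f x * deriv g x :=
  deriv_fun_mul (hf.differentiable (by norm_num) x) (hg.differentiable (by norm_num) x)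

lemma BST3_sign (a b : ℝ) (hab : a < b) (ha : -1 ≤ a) (hb : b ≤ 1) (U : ℝ → ℝ)
    (hU : ContDiff ℝ 1 U) (hUm : MonotoneOn (deriv U) (Set.Icc (-1 : ℝ) 1))
    (hUa : U a = 0) (hUb : U b = 0) (x : ℝ) :
    (x ∈ Set.Icc (-1 : ℝ) a → 0 ≤ U x ∧ deriv U x ≤ 0) ∧
    (x ∈ Set.Icc b (1 : ℝ) → 0 ≤ U x ∧ 0 ≤ deriv U x) := by
  obtain ⟨c, hc, hc0⟩ := exists_deriv_eq_zero hab hU.continuous.continuousOn (hUa.trans hUb.symm)
  have hcI : c ∈ Set.Icc (-1:ℝ) 1 := ⟨by linarith [hc.1], by linarith [hc.2]⟩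
  have hd : Differentiable ℝ U := hU.differentiable (by norm_num)
  constructor
  · intro hx
    have h1 : ∀ y ∈ Set.Icc (-1:ℝ) c, deriv U y ≤ 0 := by
      intro y hy
      rw [← hc0]
      exact hUm ⟨hy.1, hy.2.trans hcI.2⟩ hcI hy.2
    have h2 : AntitoneOn U (Set.Icc (-1:ℝ) c) :=
      antitoneOn_of_deriv_nonpos (convex_Icc _ _) hU.continuous.continuousOn hd.differentiableOn
        (fun y hy => h1 y (interior_subset hy))
    refine ⟨?_, h1 x ⟨hx.1, by linarith [hx.2, hc.1]⟩⟩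
    rw [← hUa]
    exact h2 ⟨hx.1, by linarith [hx.2, hc.1]⟩ ⟨ha, hc.1.le⟩ hx.2
  · intro hx
    have h1 : ∀ y ∈ Set.Icc c (1:ℝ), 0 ≤ deriv U y := by
      intro y hy
      rw [← hc0]
      exact hUm hcI ⟨hcI.1.trans hy.1, hy.2⟩ hy.1
    have h2 : MonotoneOn U (Set.Icc c (1:ℝ)) :=
      monotoneOn_of_deriv_nonneg (convex_Icc _ _) hU.continuous.continuousOn hd.differentiableOn
        (fun y hy => h1 y (interior_subset hy))
    refine ⟨?_, h1 x ⟨by linarith [hx.1, hc.2], hx.2⟩⟩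
    rw [← hUb]
    exact h2 ⟨hc.2.le, hb⟩ ⟨by linarith [hx.1, hc.2], hx.2⟩ hx.1

lemma BST3_phi (S : Finset ℝ) (x : ℝ) :
    (∏ y ∈ S, (x - y)) * deriv (fun x => ∏ y ∈ S, (x - y)) x
      = ∑ y ∈ S, (x - y) * (∏ z ∈ S.erase y, (x - z)) ^ 2 := by
  have h : HasDerivAt (fun x => ∏ y ∈ S, (x - y)) (∑ y ∈ S, (∏ z ∈ S.erase y, (x - z)) • (1:ℝ)) x := by
    have := HasDerivAt.fun_finsetProd (u := S) (f := fun (y : ℝ) (x : ℝ) => x - y)
      (f' := fun _ => (1:ℝ)) (x := x) (fun y _ => (hasDerivAt_id x).sub_const y)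
    exact this
  rw [h.deriv, Finset.mul_sum]
  apply Finset.sum_congr rfl
  intro y hy
  rw [← Finset.mul_prod_erase S (fun z => x - z) hy, smul_eq_mul]
  ring

/-- inside the hull -/
lemma hull_nonneg
    (weak : ∀ (a b : ℝ) (_ : a < b) (u Z : ℝ → ℝ) (_ : Continuous u)
      (_ : MonotoneOn u (Set.Icc a b)) (_ : ContDiff ℝ 1 Z) (_ : Z a = 0) (_ : Z b = 0)
      (_ : ∀ x ∈ Set.Icc a b, Z x ≤ 0), 0 ≤ ∫ x in a..b, u x * deriv Z x)
    (a b : ℝ) (hab : a < b) (φ U V : ℝ → ℝ) (hφ : ContDiff ℝ 1 φ)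
    (hU : ContDiff ℝ 1 U) (hV : ContDiff ℝ 1 V)
    (hUm : MonotoneOn (deriv U) (Set.Icc a b)) (hVm : MonotoneOn (deriv V) (Set.Icc a b))
    (hUa : U a = 0) (hUb : U b = 0) (hVa : V a = 0) (hVb : V b = 0) :
    0 ≤ ∫ x in a..b, deriv (fun x => φ x * U x) x * deriv (fun x => φ x * V x) x := by
  have hUn := BST3_neg a b hab U hU hUm hUa hUb
  have hVn := BST3_neg a b hab V hV hVm hVa hVb
  have cφ := hφ.continuous
  have cφ' : Continuous (deriv φ) := hφ.continuous_deriv (by norm_num)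
  have cU := hU.continuous
  have cU' : Continuous (deriv U) := hU.continuous_deriv (by norm_num)
  have cV := hV.continuous
  have cV' : Continuous (deriv V) := hV.continuous_deriv (by norm_num)
  have sφ : ContDiff ℝ 1 (fun x => φ x ^ 2) := hφ.pow 2
  have z1 : ContDiff ℝ 1 (fun x => φ x ^ 2 * V x) := sφ.mul hV
  have z2 : ContDiff ℝ 1 (fun x => φ x ^ 2 * U x) := sφ.mul hU
  have w1 := weak a b hab (deriv U) (fun x => φ x ^ 2 * V x) cU' hUm z1 (by simp [hVa])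
    (by simp [hVb]) (fun x hx => mul_nonpos_of_nonneg_of_nonpos (sq_nonneg _) (hVn x hx))
  have w2 := weak a b hab (deriv V) (fun x => φ x ^ 2 * U x) cV' hVm z2 (by simp [hUa])
    (by simp [hUb]) (fun x hx => mul_nonpos_of_nonneg_of_nonpos (sq_nonneg _) (hUn x hx))
  have dsq : ∀ x, deriv (fun x => φ x ^ 2) x = 2 * φ x * deriv φ x := by
    intro x
    have := (hφ.differentiable (by norm_num) x).hasDerivAt.fun_pow 2
    rw [this.deriv]; norm_num
  have e : ∀ x, deriv (fun x => φ x * U x) x * deriv (fun x => φ x * V x) x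
      = deriv φ x ^ 2 * (U x * V x) + (1/2) * (deriv U x * deriv (fun x => φ x ^ 2 * V x) x)
        + (1/2) * (deriv V x * deriv (fun x => φ x ^ 2 * U x) x) := by
    intro x
    rw [BST3_der φ U hφ hU, BST3_der φ V hφ hV, BST3_der (fun x => φ x ^ 2) V sφ hV,
      BST3_der (fun x => φ x ^ 2) U sφ hU, dsq]
    ring
  simp_rw [e]
  have c1 : Continuous (fun x => deriv φ x ^ 2 * (U x * V x)) := by fun_prop
  have c2 : Continuous (fun x => (1/2) * (deriv U x * deriv (fun x => φ x ^ 2 * V x) x)) :=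
    continuous_const.mul (cU'.mul (z1.continuous_deriv (by norm_num)))
  have c3 : Continuous (fun x => (1/2) * (deriv V x * deriv (fun x => φ x ^ 2 * U x) x)) :=
    continuous_const.mul (cV'.mul (z2.continuous_deriv (by norm_num)))
  have c12 : Continuous (fun x => deriv φ x ^ 2 * (U x * V x)
      + (1/2) * (deriv U x * deriv (fun x => φ x ^ 2 * V x) x)) := c1.add c2
  rw [intervalIntegral.integral_add (c12.intervalIntegrable _ _) (c3.intervalIntegrable _ _),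
    intervalIntegral.integral_add (c1.intervalIntegrable _ _) (c2.intervalIntegrable _ _),
    intervalIntegral.integral_const_mul, intervalIntegral.integral_const_mul]
  have h0 : 0 ≤ ∫ x in a..b, deriv φ x ^ 2 * (U x * V x) := by
    apply intervalIntegral.integral_nonneg hab.le
    intro x hx
    exact mul_nonneg (sq_nonneg _) (mul_nonneg_of_nonpos_of_nonpos (hUn x hx) (hVn x hx))
  linarith

/-- outside the hull -/
lemma outside_nonneg (a b : ℝ) (hab : a < b) (ha : -1 ≤ a) (hb : b ≤ 1) (S : Finset ℝ)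
    (hS : ∀ y ∈ S, a ≤ y ∧ y ≤ b) (U V : ℝ → ℝ)
    (hU : ContDiff ℝ 1 U) (hV : ContDiff ℝ 1 V)
    (hUm : MonotoneOn (deriv U) (Set.Icc (-1 : ℝ) 1)) (hVm : MonotoneOn (deriv V) (Set.Icc (-1 : ℝ) 1))
    (hUa : U a = 0) (hUb : U b = 0) (hVa : V a = 0) (hVb : V b = 0) (x : ℝ)
    (hx : x ∈ Set.Icc (-1 : ℝ) a ∨ x ∈ Set.Icc b (1 : ℝ)) :
    0 ≤ deriv (fun x => (∏ y ∈ S, (x - y)) * U x) x * deriv (fun x => (∏ y ∈ S, (x - y)) * V x) x := by
  have hφ : ContDiff ℝ 1 (fun x : ℝ => ∏ y ∈ S, (x - y)) := by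
    apply contDiff_prod
    intro y _
    exact contDiff_id.sub contDiff_const
  have hp := BST3_phi S x
  rw [BST3_der (fun x : ℝ => ∏ y ∈ S, (x - y)) U hφ hU, BST3_der (fun x : ℝ => ∏ y ∈ S, (x - y)) V hφ hV]
  set P := ∏ y ∈ S, (x - y) with hP
  set P' := deriv (fun x => ∏ y ∈ S, (x - y)) x with hP'
  have e : (P' * U x + P * deriv U x) * (P' * V x + P * deriv V x)
      = P' ^ 2 * (U x * V x) + (P * P') * (U x * deriv V x + deriv U x * V x)
        + P ^ 2 * (deriv U x * deriv V x) := by ring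
  rw [e]
  rcases hx with hx | hx
  · obtain ⟨u1, u2⟩ := (BST3_sign a b hab ha hb U hU hUm hUa hUb x).1 hx
    obtain ⟨v1, v2⟩ := (BST3_sign a b hab ha hb V hV hVm hVa hVb x).1 hx
    have hs : P * P' ≤ 0 := by
      rw [hp]
      apply Finset.sum_nonpos
      intro y hy
      exact mul_nonpos_of_nonpos_of_nonneg (by linarith [(hS y hy).1, hx.2]) (sq_nonneg _)
    have t1 : 0 ≤ P' ^ 2 * (U x * V x) := mul_nonneg (sq_nonneg _) (mul_nonneg u1 v1)
    have t2 : 0 ≤ (P * P') * (U x * deriv V x + deriv U x * V x) :=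
      mul_nonneg_of_nonpos_of_nonpos hs (add_nonpos (mul_nonpos_of_nonneg_of_nonpos u1 v2)
        (mul_nonpos_of_nonpos_of_nonneg u2 v1))
    have t3 : 0 ≤ P ^ 2 * (deriv U x * deriv V x) :=
      mul_nonneg (sq_nonneg _) (mul_nonneg_of_nonpos_of_nonpos u2 v2)
    linarith
  · obtain ⟨u1, u2⟩ := (BST3_sign a b hab ha hb U hU hUm hUa hUb x).2 hx
    obtain ⟨v1, v2⟩ := (BST3_sign a b hab ha hb V hV hVm hVa hVb x).2 hx
    have hs : 0 ≤ P * P' := by
      rw [hp]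
      apply Finset.sum_nonneg
      intro y hy
      exact mul_nonneg (by linarith [(hS y hy).2, hx.1]) (sq_nonneg _)
    have t1 : 0 ≤ P' ^ 2 * (U x * V x) := mul_nonneg (sq_nonneg _) (mul_nonneg u1 v1)
    have t2 : 0 ≤ (P * P') * (U x * deriv V x + deriv U x * V x) :=
      mul_nonneg hs (add_nonneg (mul_nonneg u1 v2) (mul_nonneg u2 v1))
    have t3 : 0 ≤ P ^ 2 * (deriv U x * deriv V x) := mul_nonneg (sq_nonneg _) (mul_nonneg u2 v2)
    linarith

end
end Pool.H611.BS
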