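import Mathlib
import Pool.Agent.Helper611.BS.Def2

set_option autoImplicit false

namespace Pool.H611.BS
open MeasureTheory
noncomputable section



/-- dividing out a finite set of zeros -/
lemma mon_factor
    (mdiv : ∀ (m : ℕ) (P : ℝ → ℝ) (_ : Mon (m + 1) P) (y : ℝ) (_ : y ∈ Set.Icc (-1 : ℝ) 1)
      (_ : P y = 0), ∃ R : ℝ → ℝ, Mon m R ∧ ∀ x, P x = (x - y) * R x)
    (m : ℕ) (S : Finset ℝ) (P : ℝ → ℝ) (hP : Mon (m + S.card) P)
    (hS : ∀ y ∈ S, y ∈ Set.Icc (-1 : ℝ) 1) (h0 : ∀ y ∈ S, P y = 0) :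
    ∃ U : ℝ → ℝ, Mon m U ∧ (∀ x, P x = (∏ y ∈ S, (x - y)) * U x) ∧
      ∀ z, z ∉ S → P z = 0 → U z = 0 := by
  induction S using Finset.induction_on generalizing P with
  | empty =>
    refine ⟨P, ?_, ?_, ?_⟩
    · rw [Finset.card_empty, add_zero] at hP
      exact hP
    · intro x
      rw [Finset.prod_empty, one_mul]
    · intro z _ hz
      exact hz
  | insert y S hy ih =>
    rw [Finset.card_insert_of_notMem hy, ← add_assoc] at hP
    obtain ⟨R, hR, hPR⟩ := mdiv (m + S.card) P hP y (hS y (Finset.mem_insert_self y S))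
      (h0 y (Finset.mem_insert_self y S))
    have hzero : ∀ z, z ≠ y → P z = 0 → R z = 0 := by
      intro z hz hPz
      rw [hPR z] at hPz
      rcases mul_eq_zero.mp hPz with h | h
      · exact absurd (sub_eq_zero.mp h) hz
      · exact h
    obtain ⟨U, hU, hRU, hUz⟩ := ih R hR (fun z hz => hS z (Finset.mem_insert_of_mem hz))
      (fun z hz => hzero z (fun h => hy (h ▸ hz)) (h0 z (Finset.mem_insert_of_mem hz)))
    refine ⟨U, hU, ?_, ?_⟩
    · intro x
      rw [hPR x, hRU x, Finset.prod_insert hy, mul_assoc]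
    · intro z hz hPz
      rw [Finset.mem_insert, not_or] at hz
      exact hUz z hz.2 (hzero z hz.1 hPz)

end
end Pool.H611.BS
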