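import Mathlib
import Pool.Agent.Helper611.BS.Def2
import Pool.Agent.Helper611.BS.B1
import Pool.Agent.Helper611.BS.T1
import Pool.Agent.Helper611.BS.T2
import Pool.Agent.Helper611.BS.T3
import Pool.Agent.Helper611.BS.T4

set_option autoImplicit false

namespace Pool.H611.BS
open MeasureTheory
noncomputable section

theorem partD (q : ℕ) (x : Fin (q + 2) → ℝ) (hx : Function.Injective x)
    (hx1 : ∀ i, x i ∈ Set.Icc (-1 : ℝ) 1) (f : ℝ → ℝ)
    (hf : ContDiff ℝ ((q + 1 : ℕ) : WithTop ℕ∞) f)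
    (hlip : LipschitzOnWith 1 (iteratedDeriv (q + 1) f) (Set.Icc (-1 : ℝ) 1))
    (h0 : ∀ i, f (x i) = 0) :
    ∫ s in (-1 : ℝ)..1, (deriv f s) ^ 2 ≤
      ∫ s in (-1 : ℝ)..1,
        (deriv (fun y => (∏ i, (y - x i)) / ((q + 2 : ℕ).factorial : ℝ)) s) ^ 2 := by
  set ω : ℝ → ℝ := fun y => (∏ i, (y - x i)) / ((q + 2 : ℕ).factorial : ℝ) with hω
  have hωc : ContDiff ℝ ((q + 1 : ℕ) : WithTop ℕ∞) ω := by
    rw [hω]
    apply ContDiff.div_const
    apply contDiff_prod
    intro i _
    fun_prop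
  have hω0 : ∀ i, ω (x i) = 0 := by
    intro i
    simp only [hω]
    rw [Finset.prod_eq_zero (Finset.mem_univ i) (sub_self _), zero_div]
  have hωd : ∀ y, iteratedDeriv (q + 1) ω y = y - (∑ i, x i) / (q + 2) := fun y =>
    omega_deriv q x y
  have hfl : ∀ u ∈ Set.Icc (-1 : ℝ) 1, ∀ v ∈ Set.Icc (-1 : ℝ) 1,
      |iteratedDeriv (q + 1) f u - iteratedDeriv (q + 1) f v| ≤ |u - v| := by
    intro u hu v hv
    have := hlip.dist_le_mul u hu v hv
    simpa [Real.dist_eq] using this
  have monP : Mon (1 + q) (fun s => ω s - f s) := by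
    rw [add_comm 1 q]
    refine ⟨hωc.sub hf, ?_⟩
    intro u hu v hv huv
    have e : ∀ s, iteratedDeriv (q + 1) (fun s => ω s - f s) s
        = iteratedDeriv (q + 1) ω s - iteratedDeriv (q + 1) f s := fun s =>
      iteratedDeriv_fun_sub hωc.contDiffAt hf.contDiffAt
    rw [e, e, hωd, hωd]
    have := hfl u hu v hv
    rw [abs_of_nonpos (show u - v ≤ 0 by linarith)] at this
    have h3 := abs_le.mp this
    linarith [h3.1, h3.2]
  have monQ : Mon (1 + q) (fun s => ω s + f s) := by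
    rw [add_comm 1 q]
    refine ⟨hωc.add hf, ?_⟩
    intro u hu v hv huv
    have e : ∀ s, iteratedDeriv (q + 1) (fun s => ω s + f s) s
        = iteratedDeriv (q + 1) ω s + iteratedDeriv (q + 1) f s := fun s =>
      iteratedDeriv_fun_add hωc.contDiffAt hf.contDiffAt
    rw [e, e, hωd, hωd]
    have := hfl u hu v hv
    rw [abs_of_nonpos (show u - v ≤ 0 by linarith)] at this
    have h3 := abs_le.mp this
    linarith [h3.1, h3.2]
  have : Nonempty (Fin (q + 2)) := ⟨0⟩
  obtain ⟨i0, hi0⟩ := Finite.exists_min x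
  obtain ⟨i1, hi1⟩ := Finite.exists_max x
  have hab : x i0 < x i1 := by
    have h01 : x (0 : Fin (q + 2)) ≠ x 1 := by
      intro h; have := hx h; simp at this
    rcases lt_or_gt_of_ne h01 with h | h
    · have := hi0 0; have := hi1 1; linarith
    · have := hi0 1; have := hi1 0; linarith
  set S : Finset ℝ := ((Finset.univ.image x).erase (x i0)).erase (x i1) with hS
  have hcard : S.card = q := by
    rw [hS, Finset.card_erase_of_mem, Finset.card_erase_of_mem, Finset.card_image_of_injective _ hx]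
    · simp
    · exact Finset.mem_image_of_mem _ (Finset.mem_univ _)
    · rw [Finset.mem_erase]
      exact ⟨hab.ne', Finset.mem_image_of_mem _ (Finset.mem_univ _)⟩
  have hSmem : ∀ y ∈ S, ∃ i, x i = y := by
    intro y hy
    rw [hS] at hy
    have h1 := Finset.mem_of_mem_erase (Finset.mem_of_mem_erase hy)
    simpa using h1
  have haS : x i0 ∉ S := by
    rw [hS]; intro h
    exact Finset.notMem_erase _ _ (Finset.mem_of_mem_erase h)
  have hbS : x i1 ∉ S := by
    rw [hS]; exact Finset.notMem_erase _ _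
  obtain ⟨U, hU, hPU, hUz⟩ := mon_factor mon_div 1 S (fun s => ω s - f s) (by rw [hcard]; exact monP)
    (fun y hy => by obtain ⟨i, rfl⟩ := hSmem y hy; exact hx1 i)
    (fun y hy => by obtain ⟨i, rfl⟩ := hSmem y hy; simp [hω0, h0])
  obtain ⟨V, hV, hQV, hVz⟩ := mon_factor mon_div 1 S (fun s => ω s + f s) (by rw [hcard]; exact monQ)
    (fun y hy => by obtain ⟨i, rfl⟩ := hSmem y hy; exact hx1 i)
    (fun y hy => by obtain ⟨i, rfl⟩ := hSmem y hy; simp [hω0, h0])
  have hUc : ContDiff ℝ 1 U := by simpa using hU.1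
  have hVc : ContDiff ℝ 1 V := by simpa using hV.1
  have hUm : MonotoneOn (deriv U) (Set.Icc (-1 : ℝ) 1) := by
    have := hU.2; rwa [iteratedDeriv_one] at this
  have hVm : MonotoneOn (deriv V) (Set.Icc (-1 : ℝ) 1) := by
    have := hV.2; rwa [iteratedDeriv_one] at this
  have hUa : U (x i0) = 0 := hUz _ haS (by simp [hω0, h0])
  have hUb : U (x i1) = 0 := hUz _ hbS (by simp [hω0, h0])
  have hVa : V (x i0) = 0 := hVz _ haS (by simp [hω0, h0])
  have hVb : V (x i1) = 0 := hVz _ hbS (by simp [hω0, h0])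
  have ha : -1 ≤ x i0 := (hx1 i0).1
  have hb : x i1 ≤ 1 := (hx1 i1).2
  have hsub : Set.Icc (x i0) (x i1) ⊆ Set.Icc (-1 : ℝ) 1 := Set.Icc_subset_Icc ha hb
  have hφ : ContDiff ℝ 1 (fun s : ℝ => ∏ y ∈ S, (s - y)) := by
    apply contDiff_prod
    intro i _
    fun_prop
  have hin := hull_nonneg (fun a b hab u Z h1 h2 h3 h4 h5 h6 => weak_parts a b hab u Z h1 h2 h3 h4 h5 h6)
    (x i0) (x i1) hab (fun s : ℝ => ∏ y ∈ S, (s - y)) U V hφ hUc hVc
    (hUm.mono hsub) (hVm.mono hsub) hUa hUb hVa hVb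
  have hout := outside_nonneg (x i0) (x i1) hab ha hb S
    (fun y hy => by obtain ⟨i, rfl⟩ := hSmem y hy; exact ⟨hi0 i, hi1 i⟩) U V hUc hVc hUm hVm
    hUa hUb hVa hVb
  have eP : (fun s : ℝ => (∏ y ∈ S, (s - y)) * U s) = fun s => ω s - f s := by
    funext s; exact (hPU s).symm
  have eQ : (fun s : ℝ => (∏ y ∈ S, (s - y)) * V s) = fun s => ω s + f s := by
    funext s; exact (hQV s).symm
  simp only [eP, eQ] at hin hout
  have hone : ((1 : ℕ) : WithTop ℕ∞) ≤ ((q + 1 : ℕ) : WithTop ℕ∞) := by exact_mod_cast Nat.le_add_left 1 q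
  have hf1 : ContDiff ℝ 1 f := by simpa using hf.of_le hone
  have hω1 : ContDiff ℝ 1 ω := by simpa using hωc.of_le hone
  have dP : ∀ s, deriv (fun s => ω s - f s) s = deriv ω s - deriv f s := fun s =>
    deriv_fun_sub (hω1.differentiable (by norm_num) s) (hf1.differentiable (by norm_num) s)
  have dQ : ∀ s, deriv (fun s => ω s + f s) s = deriv ω s + deriv f s := fun s =>
    deriv_fun_add (hω1.differentiable (by norm_num) s) (hf1.differentiable (by norm_num) s)
  have e : ∀ s, deriv (fun s => ω s - f s) s * deriv (fun s => ω s + f s) s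
      = (deriv ω s) ^ 2 - (deriv f s) ^ 2 := fun s => by rw [dP, dQ]; ring
  simp only [e] at hin hout
  have cω : Continuous (fun s => (deriv ω s) ^ 2) := (hω1.continuous_deriv (by norm_num)).pow 2
  have cf : Continuous (fun s => (deriv f s) ^ 2) := (hf1.continuous_deriv (by norm_num)).pow 2
  have cc : Continuous (fun s => (deriv ω s) ^ 2 - (deriv f s) ^ 2) := cω.sub cf
  have s1 := intervalIntegral.integral_add_adjacent_intervals (cc.intervalIntegrable (μ := volume) (-1) (x i0))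
    (cc.intervalIntegrable (x i0) (x i1))
  have s2 := intervalIntegral.integral_add_adjacent_intervals (cc.intervalIntegrable (μ := volume) (-1) (x i1))
    (cc.intervalIntegrable (x i1) 1)
  have t1 : 0 ≤ ∫ s in (-1 : ℝ)..(x i0), ((deriv ω s) ^ 2 - (deriv f s) ^ 2) :=
    intervalIntegral.integral_nonneg ha (fun s hs => hout s (Or.inl hs))
  have t2 : 0 ≤ ∫ s in (x i1)..1, ((deriv ω s) ^ 2 - (deriv f s) ^ 2) :=
    intervalIntegral.integral_nonneg hb (fun s hs => hout s (Or.inr hs))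
  have t3 : 0 ≤ ∫ s in (-1 : ℝ)..1, ((deriv ω s) ^ 2 - (deriv f s) ^ 2) := by
    rw [← s2, ← s1]; linarith
  have k1 : IntervalIntegrable (fun s => (deriv ω s) ^ 2) volume (-1) 1 := cω.intervalIntegrable _ _
  have k2 : IntervalIntegrable (fun s => (deriv f s) ^ 2) volume (-1) 1 := cf.intervalIntegrable _ _
  rw [intervalIntegral.integral_sub k1 k2] at t3
  linarith

end
end Pool.H611.BS
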