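import Mathlib
import Pool.Agent.Helper611.BS.Def3

set_option autoImplicit false

namespace Pool.H611.BS
open MeasureTheory
noncomputable section




lemma hat_levels_cont (a m b : ℝ) : Continuous (hat a m b) := by
  unfold hat
  exact ((continuous_id.sub continuous_const).div_const _).min
    ((continuous_const.sub continuous_id).div_const _)

lemma hat_levels_conc (a m b t s u v : ℝ) (ht : 0 ≤ t) (hs : 0 ≤ s) (hts : t + s = 1) :
    t * hat a m b u + s * hat a m b v ≤ hat a m b (t * u + s * v) := by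
  unfold hat
  have e1 : (t * u + s * v - a) / (m - a) = t * ((u - a) / (m - a)) + s * ((v - a) / (m - a)) := by
    have : t * u + s * v - a = t * (u - a) + s * (v - a) := by
      have h : s = 1 - t := by linarith
      subst h; ring
    rw [this]; ring
  have e2 : (b - (t * u + s * v)) / (b - m) = t * ((b - u) / (b - m)) + s * ((b - v) / (b - m)) := by
    have : b - (t * u + s * v) = t * (b - u) + s * (b - v) := by
      have h : s = 1 - t := by linarith
      subst h; ring
    rw [this]; ring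
  rw [e1, e2]
  refine le_min ?_ ?_
  · exact add_le_add (mul_le_mul_of_nonneg_left (min_le_left _ _) ht)
      (mul_le_mul_of_nonneg_left (min_le_left _ _) hs)
  · exact add_le_add (mul_le_mul_of_nonneg_left (min_le_right _ _) ht)
      (mul_le_mul_of_nonneg_left (min_le_right _ _) hs)

/-- level points of the hat density against a parabola -/
lemma hat_levels (a m b y : ℝ) (ham : a < m) (hmb : m < b) (hy : y ∈ Set.Ioo a b) (C κ : ℝ)
    (hC : 0 < C) (hκ : 0 < κ) (h1 : ∫ x in a..b, C * hat a m b x = ∫ x in a..b, κ * (x - y) ^ 2) :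
    ∃ y1 z y2 : ℝ, a ≤ y1 ∧ y1 ≤ z ∧ z ≤ y2 ∧ y2 ≤ b ∧
      (∀ x ∈ Set.Ioo a y1, C * hat a m b x ≤ κ * (x - y) ^ 2) ∧
      (∀ x ∈ Set.Ioo y1 y2, κ * (x - y) ^ 2 ≤ C * hat a m b x) ∧
      (∀ x ∈ Set.Ioo y2 b, C * hat a m b x ≤ κ * (x - y) ^ 2) ∧
      ∫ x in a..z, C * hat a m b x = ∫ x in a..z, κ * (x - y) ^ 2 := by
  have hc1 : Continuous (fun x => C * hat a m b x) := continuous_const.mul (hat_levels_cont a m b)
  have hc2 : Continuous (fun x : ℝ => κ * (x - y) ^ 2) := by fun_prop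
  set S : Set ℝ := Set.Icc a b ∩ {x | κ * (x - y) ^ 2 ≤ C * hat a m b x} with hS
  have hScl : IsClosed {x : ℝ | κ * (x - y) ^ 2 ≤ C * hat a m b x} := isClosed_le hc2 hc1
  have hScomp : IsCompact S := isCompact_Icc.inter_right hScl
  have hhy : 0 < hat a m b y := by
    unfold hat
    exact lt_min (div_pos (by linarith [hy.1]) (by linarith)) (div_pos (by linarith [hy.2]) (by linarith))
  have hyS : y ∈ S := by
    refine ⟨⟨hy.1.le, hy.2.le⟩, ?_⟩
    show κ * (y - y) ^ 2 ≤ C * hat a m b y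
    have := mul_pos hC hhy
    simp only [sub_self]
    nlinarith
  have hSne : S.Nonempty := ⟨y, hyS⟩
  have hy1 := hScomp.sInf_mem hSne
  have hy2 := hScomp.sSup_mem hSne
  have hle1 : ∀ x ∈ S, sInf S ≤ x := fun x hx => csInf_le hScomp.bddBelow hx
  have hle2 : ∀ x ∈ S, x ≤ sSup S := fun x hx => le_csSup hScomp.bddAbove hx
  set y1 := sInf S with hy1d
  set y2 := sSup S with hy2d
  have h12 : y1 ≤ y2 := (hle1 y hyS).trans (hle2 y hyS)
  have hL : ∀ x ∈ Set.Ioo a y1, C * hat a m b x ≤ κ * (x - y) ^ 2 := by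
    intro x hx
    by_contra hlt
    push Not at hlt
    have : x ∈ S := ⟨⟨hx.1.le, hx.2.le.trans hy1.1.2⟩, hlt.le⟩
    exact absurd (hle1 x this) (not_le.2 hx.2)
  have hR : ∀ x ∈ Set.Ioo y2 b, C * hat a m b x ≤ κ * (x - y) ^ 2 := by
    intro x hx
    by_contra hlt
    push Not at hlt
    have : x ∈ S := ⟨⟨hy2.1.1.trans hx.1.le, hx.2.le⟩, hlt.le⟩
    exact absurd (hle2 x this) (not_le.2 hx.1)
  have hM : ∀ x ∈ Set.Ioo y1 y2, κ * (x - y) ^ 2 ≤ C * hat a m b x := by
    intro x hx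
    have hpos : 0 < y2 - y1 := by linarith [hx.1, hx.2]
    have ht : 0 ≤ (y2 - x) / (y2 - y1) := div_nonneg (by linarith [hx.2]) hpos.le
    have hs : 0 ≤ (x - y1) / (y2 - y1) := div_nonneg (by linarith [hx.1]) hpos.le
    have hts : (y2 - x) / (y2 - y1) + (x - y1) / (y2 - y1) = 1 := by
      rw [← add_div, div_eq_one_iff_eq hpos.ne']; ring
    have hx' : (y2 - x) / (y2 - y1) * y1 + (x - y1) / (y2 - y1) * y2 = x := by
      field_simp; ring
    have hcv := hat_levels_conc a m b _ _ y1 y2 ht hs hts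
    rw [hx'] at hcv
    set t := (y2 - x) / (y2 - y1)
    set s := (x - y1) / (y2 - y1)
    have k1 : κ * (y1 - y) ^ 2 ≤ C * hat a m b y1 := hy1.2
    have k2 : κ * (y2 - y) ^ 2 ≤ C * hat a m b y2 := hy2.2
    have hsq : t * (y1 - y) ^ 2 + s * (y2 - y) ^ 2 - (x - y) ^ 2 = t * s * (y1 - y2) ^ 2 := by
      have h : s = 1 - t := by linarith
      rw [← hx', h]; ring
    have hsq' : 0 ≤ t * s * (y1 - y2) ^ 2 := by positivity
    calc κ * (x - y) ^ 2 ≤ κ * (t * (y1 - y) ^ 2 + s * (y2 - y) ^ 2) :=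
          mul_le_mul_of_nonneg_left (by linarith) hκ.le
      _ = t * (κ * (y1 - y) ^ 2) + s * (κ * (y2 - y) ^ 2) := by ring
      _ ≤ t * (C * hat a m b y1) + s * (C * hat a m b y2) :=
          add_le_add (mul_le_mul_of_nonneg_left k1 ht) (mul_le_mul_of_nonneg_left k2 hs)
      _ = C * (t * hat a m b y1 + s * hat a m b y2) := by ring
      _ ≤ C * hat a m b x := mul_le_mul_of_nonneg_left hcv hC.le
  have i1 : ∀ p q, IntervalIntegrable (fun x => C * hat a m b x) volume p q :=
    fun p q => hc1.intervalIntegrable p q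
  have i2 : ∀ p q, IntervalIntegrable (fun x : ℝ => κ * (x - y) ^ 2) volume p q :=
    fun p q => hc2.intervalIntegrable p q
  set D : ℝ → ℝ := fun z => (∫ x in a..z, C * hat a m b x) - ∫ x in a..z, κ * (x - y) ^ 2 with hD
  have hDc : Continuous D := (intervalIntegral.continuous_primitive i1 a).sub
    (intervalIntegral.continuous_primitive i2 a)
  have hD1 : D y1 ≤ 0 := by
    have := intervalIntegral.integral_mono_on_of_le_Ioo hy1.1.1 (i1 a y1) (i2 a y1) hL
    show _ - _ ≤ (0:ℝ)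
    linarith
  have hD2 : 0 ≤ D y2 := by
    have h3 := intervalIntegral.integral_mono_on_of_le_Ioo hy2.1.2 (i1 y2 b) (i2 y2 b) hR
    have h4 := intervalIntegral.integral_add_adjacent_intervals (i1 a y2) (i1 y2 b)
    have h5 := intervalIntegral.integral_add_adjacent_intervals (i2 a y2) (i2 y2 b)
    show (0:ℝ) ≤ _ - _
    linarith
  obtain ⟨z, hz, hz0⟩ := intermediate_value_Icc h12 hDc.continuousOn ⟨hD1, hD2⟩
  refine ⟨y1, z, y2, hy1.1.1, hz.1, hz.2, hy2.1.2, hL, hM, hR, ?_⟩
  exact sub_eq_zero.1 hz0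

end
end Pool.H611.BS
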