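import Mathlib
import Pool.Agent.Helper611.BS.Def3

set_option autoImplicit false

namespace Pool.H611.BS
open MeasureTheory
noncomputable section



lemma hat_left (a m b x : ℝ) (ham : a < m) (hmb : m < b) (hx : x ≤ m) (hxa : a ≤ x) :
    hat a m b x = (x - a) / (m - a) := by
  unfold hat
  apply min_eq_left
  have h1 : (x - a) / (m - a) ≤ 1 := by
    rw [div_le_one (by linarith)]
    linarith
  have h2 : 1 ≤ (b - x) / (b - m) := by
    rw [one_le_div (by linarith)]
    linarith
  linarith

lemma hat_right (a m b x : ℝ) (ham : a < m) (hmb : m < b) (hx : m ≤ x) (hxb : x ≤ b) :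
    hat a m b x = (b - x) / (b - m) := by
  unfold hat
  apply min_eq_right
  have h1 : (b - x) / (b - m) ≤ 1 := by
    rw [div_le_one (by linarith)]
    linarith
  have h2 : 1 ≤ (x - a) / (m - a) := by
    rw [one_le_div (by linarith)]
    linarith
  linarith

lemma hat_cont (a m b : ℝ) : Continuous (hat a m b) := by
  unfold hat
  fun_prop

/-- weighted integral of the hat -/
lemma hat_int_split (a m b : ℝ) (ham : a < m) (hmb : m < b) (g : ℝ → ℝ) (hg : Continuous g) :
    ∫ x in a..b, hat a m b x * g x
      = (∫ x in a..m, (x - a) / (m - a) * g x) + ∫ x in m..b, (b - x) / (b - m) * g x := by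
  have hc : Continuous (fun x => hat a m b x * g x) := (hat_cont a m b).mul hg
  rw [← intervalIntegral.integral_add_adjacent_intervals (b := m) (hc.intervalIntegrable _ _)
    (hc.intervalIntegrable _ _)]
  congr 1
  · apply intervalIntegral.integral_congr
    intro x hx
    rw [Set.uIcc_of_le ham.le] at hx
    simp only [hat_left a m b x ham hmb hx.2 hx.1]
  · apply intervalIntegral.integral_congr
    intro x hx
    rw [Set.uIcc_of_le hmb.le] at hx
    simp only [hat_right a m b x ham hmb hx.1 hx.2]

lemma hat_integral (a m b : ℝ) (ham : a < m) (hmb : m < b) :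
    ∫ x in a..b, hat a m b x = (b - a) / 2 := by
  have h := hat_int_split a m b ham hmb (fun _ => 1) continuous_const
  simp only [mul_one] at h
  rw [h]
  have hm1 : m - a ≠ 0 := by intro h; linarith
  have hm2 : b - m ≠ 0 := by intro h; linarith
  have e1 : ∫ x in a..m, (x - a) / (m - a) = (m - a) / 2 := by
    have : ∀ x ∈ Set.uIcc a m, HasDerivAt (fun x : ℝ => (x - a) ^ 2 / (2 * (m - a)))
        ((x - a) / (m - a)) x := by
      intro x _
      have h1 := (((hasDerivAt_id x).sub_const a).pow 2).div_const (2 * (m - a))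
      refine h1.congr_deriv ?_
      simp
      field_simp
    rw [intervalIntegral.integral_eq_sub_of_hasDerivAt this
      ((by fun_prop : Continuous fun x : ℝ => (x - a) / (m - a)).intervalIntegrable _ _)]
    field_simp
    ring
  have e2 : ∫ x in m..b, (b - x) / (b - m) = (b - m) / 2 := by
    have : ∀ x ∈ Set.uIcc m b, HasDerivAt (fun x : ℝ => -((b - x) ^ 2 / (2 * (b - m))))
        ((b - x) / (b - m)) x := by
      intro x _
      have h1 := ((((hasDerivAt_id x).const_sub b).pow 2).div_const (2 * (b - m))).neg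
      refine h1.congr_deriv ?_
      simp
      field_simp
    rw [intervalIntegral.integral_eq_sub_of_hasDerivAt this
      ((by fun_prop : Continuous fun x : ℝ => (b - x) / (b - m)).intervalIntegrable _ _)]
    field_simp
    ring
  rw [e1, e2]
  ring

lemma c2_facts (U : ℝ → ℝ) (hU : ContDiff ℝ 2 U) :
    (∀ x, HasDerivAt U (deriv U x) x) ∧ (∀ x, HasDerivAt (deriv U) (deriv (deriv U) x) x) ∧
      Continuous U ∧ Continuous (deriv U) ∧ Continuous (deriv (deriv U)) := by
  have h2 : ContDiff ℝ (1 + 1) U := by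
    rw [one_add_one_eq_two]
    exact hU
  have h1 : ContDiff ℝ 1 (deriv U) := (contDiff_succ_iff_deriv.1 h2).2.2
  have hd : Differentiable ℝ U := hU.differentiable (by norm_num)
  have hd1 : Differentiable ℝ (deriv U) := h1.differentiable (by norm_num)
  exact ⟨fun x => (hd x).hasDerivAt, fun x => (hd1 x).hasDerivAt, hd.continuous, hd1.continuous,
    h1.continuous_deriv le_rfl⟩

/-- facts on a `C^2` function with monotone second derivative and three zeros -/
lemma three_zero_facts (a m b : ℝ) (ha : -1 ≤ a) (ham : a < m) (hmb : m < b) (hb : b ≤ 1)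
    (U : ℝ → ℝ) (hU : ContDiff ℝ 2 U)
    (hUm : MonotoneOn (deriv (deriv U)) (Set.Icc (-1 : ℝ) 1))
    (hUa : U a = 0) (hUmm : U m = 0) (hUb : U b = 0) :
    0 ≤ deriv U 1 ∧ 0 ≤ deriv U (-1) ∧
      (∀ x ∈ Set.Icc b (1 : ℝ), 0 ≤ deriv (deriv U) x) ∧
      (∀ x ∈ Set.Icc (-1 : ℝ) a, deriv (deriv U) x ≤ 0) ∧
      (∫ x in a..b, hat a m b x * deriv (deriv U) x = 0) ∧
      ConvexOn ℝ (Set.Icc (-1 : ℝ) 1) (deriv U) ∧
      (∫ x in a..m, deriv U x = 0) ∧ (∫ x in m..b, deriv U x = 0) := by
  obtain ⟨hd0, hd1, hc0, hc1, hc2⟩ := c2_facts U hU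
  obtain ⟨z1, hz1, hz1'⟩ := exists_deriv_eq_zero ham hc0.continuousOn (by rw [hUa, hUmm])
  obtain ⟨z2, hz2, hz2'⟩ := exists_deriv_eq_zero hmb hc0.continuousOn (by rw [hUb, hUmm])
  have hz12 : z1 < z2 := lt_trans hz1.2 hz2.1
  obtain ⟨w, hw, hw'⟩ := exists_deriv_eq_zero hz12 hc1.continuousOn (by rw [hz1', hz2'])
  have hz1a := hz1.1
  have hz1b := hz1.2
  have hz2a := hz2.1
  have hz2b := hz2.2
  have hwa := hw.1
  have hwb := hw.2
  have hwI : w ∈ Set.Icc (-1 : ℝ) 1 := ⟨by linarith, by linarith⟩
  have hpos : ∀ x, w ≤ x → x ≤ 1 → 0 ≤ deriv (deriv U) x := by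
    intro x hx hx1
    rw [← hw']
    exact hUm hwI ⟨by linarith, hx1⟩ hx
  have hneg : ∀ x, x ≤ w → -1 ≤ x → deriv (deriv U) x ≤ 0 := by
    intro x hx hx1
    rw [← hw']
    exact hUm ⟨hx1, by linarith⟩ hwI hx
  have hm1 : m - a ≠ 0 := by intro h; linarith
  have hm2 : b - m ≠ 0 := by intro h; linarith
  refine ⟨?_, ?_, ?_, ?_, ?_, ?_, ?_, ?_⟩
  · have hmono : MonotoneOn (deriv U) (Set.Icc z2 1) := by
      apply monotoneOn_of_deriv_nonneg (convex_Icc _ _) hc1.continuousOn
      · exact fun x _ => (hd1 x).differentiableAt.differentiableWithinAt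
      · intro x hx
        rw [interior_Icc] at hx
        exact hpos x (by linarith [hx.1]) hx.2.le
    rw [← hz2']
    exact hmono ⟨le_rfl, by linarith⟩ ⟨by linarith, le_rfl⟩ (by linarith)
  · have hmono : AntitoneOn (deriv U) (Set.Icc (-1) z1) := by
      apply antitoneOn_of_deriv_nonpos (convex_Icc _ _) hc1.continuousOn
      · exact fun x _ => (hd1 x).differentiableAt.differentiableWithinAt
      · intro x hx
        rw [interior_Icc] at hx
        exact hneg x (by linarith [hx.2]) hx.1.le
    rw [← hz1']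
    exact hmono ⟨le_rfl, by linarith⟩ ⟨by linarith, le_rfl⟩ (by linarith)
  · intro x hx
    exact hpos x (by linarith [hx.1]) hx.2
  · intro x hx
    exact hneg x (by linarith [hx.2]) hx.1
  · rw [hat_int_split a m b ham hmb _ hc2]
    have e1 : ∫ x in a..m, (x - a) / (m - a) * deriv (deriv U) x = deriv U m := by
      have : ∀ x ∈ Set.uIcc a m, HasDerivAt (fun x : ℝ => ((x - a) * deriv U x - U x) / (m - a))
          ((x - a) / (m - a) * deriv (deriv U) x) x := by
        intro x _
        have h1 := ((((hasDerivAt_id x).sub_const a).mul (hd1 x)).sub (hd0 x)).div_const (m - a)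
        refine h1.congr_deriv ?_
        simp
        field_simp
      rw [intervalIntegral.integral_eq_sub_of_hasDerivAt this
        ((by fun_prop : Continuous fun x : ℝ => (x - a) / (m - a) * deriv (deriv U) x).intervalIntegrable _ _)]
      rw [hUa, hUmm]
      field_simp
      ring
    have e2 : ∫ x in m..b, (b - x) / (b - m) * deriv (deriv U) x = -deriv U m := by
      have : ∀ x ∈ Set.uIcc m b, HasDerivAt (fun x : ℝ => ((b - x) * deriv U x + U x) / (b - m))
          ((b - x) / (b - m) * deriv (deriv U) x) x := by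
        intro x _
        have h1 := ((((hasDerivAt_id x).const_sub b).mul (hd1 x)).add (hd0 x)).div_const (b - m)
        refine h1.congr_deriv ?_
        simp
        field_simp
      rw [intervalIntegral.integral_eq_sub_of_hasDerivAt this
        ((by fun_prop : Continuous fun x : ℝ => (b - x) / (b - m) * deriv (deriv U) x).intervalIntegrable _ _)]
      rw [hUb, hUmm]
      field_simp
      ring
    rw [e1, e2]
    ring
  · apply MonotoneOn.convexOn_of_deriv (convex_Icc _ _) hc1.continuousOn
    · exact fun x _ => (hd1 x).differentiableAt.differentiableWithinAt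
    · exact hUm.mono interior_subset
  · rw [intervalIntegral.integral_eq_sub_of_hasDerivAt (fun x _ => hd0 x)
      (hc1.intervalIntegrable _ _), hUa, hUmm, sub_zero]
  · rw [intervalIntegral.integral_eq_sub_of_hasDerivAt (fun x _ => hd0 x)
      (hc1.intervalIntegrable _ _), hUb, hUmm, sub_zero]

lemma iter_two (y : ℝ) (U : ℝ → ℝ) (hU : ContDiff ℝ 2 U) (x : ℝ) :
    iteratedDeriv 2 (fun x => (x - y) * U x) x
      = (x - y) * deriv (deriv U) x + 2 * deriv U x := by
  obtain ⟨hd0, hd1, hc0, hc1, hc2⟩ := c2_facts U hU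
  have h1 : deriv (fun x => (x - y) * U x) = fun x => U x + (x - y) * deriv U x := by
    funext t
    have := (((hasDerivAt_id t).sub_const y).mul (hd0 t)).deriv
    simp only [id] at this
    refine Eq.trans ?_ (this.trans ?_)
    · rfl
    · ring
  have h2 : deriv (fun x => U x + (x - y) * deriv U x) x
      = (x - y) * deriv (deriv U) x + 2 * deriv U x := by
    have := ((hd0 x).add (((hasDerivAt_id x).sub_const y).mul (hd1 x))).deriv
    simp only [id] at this
    refine Eq.trans ?_ (this.trans ?_)
    · rfl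
    · ring
  rw [iteratedDeriv_succ, iteratedDeriv_one, h1, h2]

/-- the expansion for a linear factor -/
lemma expand_two (y : ℝ) (U V : ℝ → ℝ) (hU : ContDiff ℝ 2 U) (hV : ContDiff ℝ 2 V) :
    ∫ x in (-1 : ℝ)..1, iteratedDeriv 2 (fun x => (x - y) * U x) x *
        iteratedDeriv 2 (fun x => (x - y) * V x) x
      = (∫ x in (-1 : ℝ)..1, (x - y) ^ 2 * (deriv (deriv U) x * deriv (deriv V) x))
        + 2 * (∫ x in (-1 : ℝ)..1, deriv U x * deriv V x)
        + 2 * ((1 - y) * (deriv U 1 * deriv V 1) + (1 + y) * (deriv U (-1) * deriv V (-1))) := by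
  obtain ⟨hd0, hd1, hc0, hc1, hc2⟩ := c2_facts U hU
  obtain ⟨kd0, kd1, kc0, kc1, kc2⟩ := c2_facts V hV
  have hF : ∫ x in (-1 : ℝ)..1, (2 * (deriv U x * deriv V x)
      + 2 * (x - y) * (deriv (deriv U) x * deriv V x + deriv U x * deriv (deriv V) x))
      = 2 * ((1 - y) * (deriv U 1 * deriv V 1) + (1 + y) * (deriv U (-1) * deriv V (-1))) := by
    have : ∀ x ∈ Set.uIcc (-1 : ℝ) 1, HasDerivAt (fun x : ℝ => 2 * ((x - y) * (deriv U x * deriv V x)))
        (2 * (deriv U x * deriv V x)
          + 2 * (x - y) * (deriv (deriv U) x * deriv V x + deriv U x * deriv (deriv V) x)) x := by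
      intro x _
      have h1 := ((((hasDerivAt_id x).sub_const y).mul ((hd1 x).mul (kd1 x))).const_mul 2)
      refine h1.congr_deriv ?_
      simp
      ring
    rw [intervalIntegral.integral_eq_sub_of_hasDerivAt this
      ((by fun_prop : Continuous fun x : ℝ => 2 * (deriv U x * deriv V x)
          + 2 * (x - y) * (deriv (deriv U) x * deriv V x + deriv U x * deriv (deriv V) x)).intervalIntegrable _ _)]
    ring
  rw [← hF, ← intervalIntegral.integral_const_mul, ← intervalIntegral.integral_add,
    ← intervalIntegral.integral_add]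
  · apply intervalIntegral.integral_congr
    intro x _
    simp only [iter_two y U hU, iter_two y V hV]
    ring
  · exact (by fun_prop : Continuous fun x : ℝ => (x - y) ^ 2 * (deriv (deriv U) x * deriv (deriv V) x)
      + 2 * (deriv U x * deriv V x)).intervalIntegrable _ _
  · exact (by fun_prop : Continuous fun x : ℝ => 2 * (deriv U x * deriv V x)
          + 2 * (x - y) * (deriv (deriv U) x * deriv V x + deriv U x * deriv (deriv V) x)).intervalIntegrable _ _
  · exact (by fun_prop : Continuous fun x : ℝ => (x - y) ^ 2 * (deriv (deriv U) x * deriv (deriv V) x)).intervalIntegrable _ _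
  · exact (by fun_prop : Continuous fun x : ℝ => 2 * (deriv U x * deriv V x)).intervalIntegrable _ _

end
end Pool.H611.BS
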