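import Mathlib

set_option autoImplicit false

namespace Pool.H611.BS
open MeasureTheory
noncomputable section

/-- weighted Chebyshev inequality -/
lemma w_chebyshev (a b : ℝ) (hab : a < b) (ρ : ℝ → ℝ) (hρ : Continuous ρ) (hρ0 : ∀ x, 0 ≤ ρ x)
    (hρ1 : ∫ x in a..b, ρ x = 1) (P Q : ℝ → ℝ)
    (hP : MonotoneOn P (Set.Icc a b)) (hQ : MonotoneOn Q (Set.Icc a b))
    (hPc : ContinuousOn P (Set.Icc a b)) (hQc : ContinuousOn Q (Set.Icc a b)) :
    (∫ x in a..b, ρ x * P x) * (∫ x in a..b, ρ x * Q x) ≤ ∫ x in a..b, ρ x * (P x * Q x) := by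
  have hPi : IntervalIntegrable P volume a b := by
    apply ContinuousOn.intervalIntegrable
    rwa [Set.uIcc_of_le hab.le]
  have hQi : IntervalIntegrable Q volume a b := by
    apply ContinuousOn.intervalIntegrable
    rwa [Set.uIcc_of_le hab.le]
  have hri : IntervalIntegrable ρ volume a b := hρ.intervalIntegrable _ _
  have hrP : IntervalIntegrable (fun x => ρ x * P x) volume a b := by
    apply ContinuousOn.intervalIntegrable
    rw [Set.uIcc_of_le hab.le]
    exact hρ.continuousOn.mul hPc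
  have hrQ : IntervalIntegrable (fun x => ρ x * Q x) volume a b := by
    apply ContinuousOn.intervalIntegrable
    rw [Set.uIcc_of_le hab.le]
    exact hρ.continuousOn.mul hQc
  have hPQi : IntervalIntegrable (fun x => ρ x * (P x * Q x)) volume a b := by
    apply ContinuousOn.intervalIntegrable
    rw [Set.uIcc_of_le hab.le]
    exact hρ.continuousOn.mul (hPc.mul hQc)
  obtain ⟨q, hq⟩ : ∃ q : ℝ, q = ∫ x in a..b, ρ x * Q x := ⟨_, rfl⟩
  have hlo : Q a ≤ q := by
    have h1 : ∫ x in a..b, ρ x * Q a ≤ ∫ x in a..b, ρ x * Q x := by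
      apply intervalIntegral.integral_mono_on hab.le (hri.mul_const _) hrQ
      intro x hx
      exact mul_le_mul_of_nonneg_left (hQ (Set.left_mem_Icc.mpr hab.le) hx hx.1) (hρ0 x)
    rw [intervalIntegral.integral_mul_const, hρ1, one_mul, ← hq] at h1
    exact h1
  have hhi : q ≤ Q b := by
    have h1 : ∫ x in a..b, ρ x * Q x ≤ ∫ x in a..b, ρ x * Q b := by
      apply intervalIntegral.integral_mono_on hab.le hrQ (hri.mul_const _)
      intro x hx
      exact mul_le_mul_of_nonneg_left (hQ hx (Set.right_mem_Icc.mpr hab.le) hx.2) (hρ0 x)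
    rw [intervalIntegral.integral_mul_const, hρ1, one_mul, ← hq] at h1
    exact h1
  obtain ⟨c, hc, hcq⟩ := intermediate_value_Icc hab.le hQc ⟨hlo, hhi⟩
  have hmain : ∫ x in a..b, (q * (ρ x * P x) + P c * (ρ x * Q x) - (P c * q) * ρ x) ≤
      ∫ x in a..b, ρ x * (P x * Q x) := by
    apply intervalIntegral.integral_mono_on hab.le _ hPQi
    · intro x hx
      have h0 : 0 ≤ (P x - P c) * (Q x - Q c) := by
        rcases le_total x c with h | h
        · have h1 := hP hx hc h
          have h2 := hQ hx hc h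
          nlinarith [mul_nonneg (sub_nonneg.mpr h1) (sub_nonneg.mpr h2)]
        · have h1 := hP hc hx h
          have h2 := hQ hc hx h
          exact mul_nonneg (sub_nonneg.mpr h1) (sub_nonneg.mpr h2)
      rw [hcq] at h0
      have h3 := mul_nonneg (hρ0 x) h0
      have h4 : ρ x * ((P x - P c) * (Q x - q)) =
        ρ x * (P x * Q x) - (q * (ρ x * P x) + P c * (ρ x * Q x) - (P c * q) * ρ x) := by ring
      rw [h4] at h3
      linarith
    · exact ((hrP.const_mul q).add (hrQ.const_mul (P c))).sub (hri.const_mul _)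
  rw [intervalIntegral.integral_sub ((hrP.const_mul q).add (hrQ.const_mul (P c)))
      (hri.const_mul _),
    intervalIntegral.integral_add (hrP.const_mul q) (hrQ.const_mul (P c)),
    intervalIntegral.integral_const_mul, intervalIntegral.integral_const_mul,
    intervalIntegral.integral_const_mul, hρ1, ← hq] at hmain
  rw [← hq]
  linarith

lemma w_compare_left (a b : ℝ) (hab : a < b) (ρ : ℝ → ℝ) (hρ : Continuous ρ) (M : ℝ → ℝ)
    (hM : IntervalIntegrable M volume a b)
    (y1 z : ℝ) (ha1 : a ≤ y1) (h1z : y1 ≤ z) (hzb : z ≤ b)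
    (hl : ∀ x ∈ Set.Ioo a y1, M x ≤ ρ x)
    (hmid : ∀ x ∈ Set.Ioo y1 z, ρ x ≤ M x)
    (hz : ∫ x in a..z, M x = ∫ x in a..z, ρ x)
    (p : ℝ → ℝ) (hp : AntitoneOn p (Set.Icc a b)) (hpc : ContinuousOn p (Set.Icc a b))
    (hp0 : ∀ x ∈ Set.Icc z b, p x = 0) :
    ∫ x in a..b, M x * p x ≤ ∫ x in a..b, ρ x * p x := by
  have haz : a ≤ z := ha1.trans h1z
  have hri : IntervalIntegrable ρ volume a b := hρ.intervalIntegrable _ _
  have hrp : IntervalIntegrable (fun x => ρ x * p x) volume a b := by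
    apply ContinuousOn.intervalIntegrable
    rw [Set.uIcc_of_le hab.le]
    exact hρ.continuousOn.mul hpc
  have hMp : IntervalIntegrable (fun x => M x * p x) volume a b := by
    apply hM.mul_continuousOn
    rwa [Set.uIcc_of_le hab.le]
  have hs1 : Set.uIcc a z ⊆ Set.uIcc a b := by
    rw [Set.uIcc_of_le haz, Set.uIcc_of_le hab.le]
    exact Set.Icc_subset_Icc le_rfl hzb
  have hs2 : Set.uIcc z b ⊆ Set.uIcc a b := by
    rw [Set.uIcc_of_le hzb, Set.uIcc_of_le hab.le]
    exact Set.Icc_subset_Icc haz le_rfl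
  have hrp1 := hrp.mono_set hs1
  have hrp2 := hrp.mono_set hs2
  have hri1 := hri.mono_set hs1
  have hMp1 := hMp.mono_set hs1
  have hMp2 := hMp.mono_set hs2
  have hM1 := hM.mono_set hs1
  have z1 : ∫ x in z..b, ρ x * p x = 0 := by
    rw [intervalIntegral.integral_congr (g := fun _ => (0 : ℝ))]
    · simp
    · intro x hx
      rw [Set.uIcc_of_le hzb] at hx
      simp [hp0 x hx]
  have z2 : ∫ x in z..b, M x * p x = 0 := by
    rw [intervalIntegral.integral_congr (g := fun _ => (0 : ℝ))]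
    · simp
    · intro x hx
      rw [Set.uIcc_of_le hzb] at hx
      simp [hp0 x hx]
  rw [← intervalIntegral.integral_add_adjacent_intervals hMp1 hMp2,
    ← intervalIntegral.integral_add_adjacent_intervals hrp1 hrp2, z1, z2, add_zero, add_zero]
  have hmain : ∫ x in a..z, (M x * p x - p y1 * M x)
      ≤ ∫ x in a..z, (ρ x * p x - p y1 * ρ x) := by
    apply intervalIntegral.integral_mono_on_of_le_Ioo haz
    · exact hMp1.sub (hM1.const_mul _)
    · exact hrp1.sub (hri1.const_mul _)
    · intro x hx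
      have hxI : x ∈ Set.Icc a b := ⟨hx.1.le, hx.2.le.trans hzb⟩
      have hyI : y1 ∈ Set.Icc a b := ⟨ha1, h1z.trans hzb⟩
      rcases lt_trichotomy x y1 with h | h | h
      · have e1 := hl x ⟨hx.1, h⟩
        have e2 := hp hxI hyI h.le
        nlinarith [mul_nonneg (sub_nonneg.mpr e1) (sub_nonneg.mpr e2)]
      · rw [h]; nlinarith
      · have e1 := hmid x ⟨h, hx.2⟩
        have e2 := hp hyI hxI h.le
        nlinarith [mul_nonneg (sub_nonneg.mpr e1) (sub_nonneg.mpr e2)]
  rw [intervalIntegral.integral_sub hMp1 (hM1.const_mul _),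
    intervalIntegral.integral_sub hrp1 (hri1.const_mul _),
    intervalIntegral.integral_const_mul, intervalIntegral.integral_const_mul, hz] at hmain
  linarith

lemma w_compare_right (a b : ℝ) (hab : a < b) (ρ : ℝ → ℝ) (hρ : Continuous ρ) (M : ℝ → ℝ)
    (hM : IntervalIntegrable M volume a b)
    (z y2 : ℝ) (haz : a ≤ z) (hz2 : z ≤ y2) (h2b : y2 ≤ b)
    (hmid : ∀ x ∈ Set.Ioo z y2, ρ x ≤ M x)
    (hr : ∀ x ∈ Set.Ioo y2 b, M x ≤ ρ x)
    (hz : ∫ x in z..b, M x = ∫ x in z..b, ρ x)
    (p : ℝ → ℝ) (hp : MonotoneOn p (Set.Icc a b)) (hpc : ContinuousOn p (Set.Icc a b))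
    (hp0 : ∀ x ∈ Set.Icc a z, p x = 0) :
    ∫ x in a..b, M x * p x ≤ ∫ x in a..b, ρ x * p x := by
  have hzb : z ≤ b := hz2.trans h2b
  have hri : IntervalIntegrable ρ volume a b := hρ.intervalIntegrable _ _
  have hrp : IntervalIntegrable (fun x => ρ x * p x) volume a b := by
    apply ContinuousOn.intervalIntegrable
    rw [Set.uIcc_of_le hab.le]
    exact hρ.continuousOn.mul hpc
  have hMp : IntervalIntegrable (fun x => M x * p x) volume a b := by
    apply hM.mul_continuousOn
    rwa [Set.uIcc_of_le hab.le]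
  have hs1 : Set.uIcc a z ⊆ Set.uIcc a b := by
    rw [Set.uIcc_of_le haz, Set.uIcc_of_le hab.le]
    exact Set.Icc_subset_Icc le_rfl hzb
  have hs2 : Set.uIcc z b ⊆ Set.uIcc a b := by
    rw [Set.uIcc_of_le hzb, Set.uIcc_of_le hab.le]
    exact Set.Icc_subset_Icc haz le_rfl
  have hrp1 := hrp.mono_set hs1
  have hrp2 := hrp.mono_set hs2
  have hri2 := hri.mono_set hs2
  have hMp1 := hMp.mono_set hs1
  have hMp2 := hMp.mono_set hs2
  have hM2 := hM.mono_set hs2
  have z1 : ∫ x in a..z, ρ x * p x = 0 := by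
    rw [intervalIntegral.integral_congr (g := fun _ => (0 : ℝ))]
    · simp
    · intro x hx
      rw [Set.uIcc_of_le haz] at hx
      simp [hp0 x hx]
  have z2 : ∫ x in a..z, M x * p x = 0 := by
    rw [intervalIntegral.integral_congr (g := fun _ => (0 : ℝ))]
    · simp
    · intro x hx
      rw [Set.uIcc_of_le haz] at hx
      simp [hp0 x hx]
  rw [← intervalIntegral.integral_add_adjacent_intervals hMp1 hMp2,
    ← intervalIntegral.integral_add_adjacent_intervals hrp1 hrp2, z1, z2, zero_add, zero_add]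
  have hmain : ∫ x in z..b, (M x * p x - p y2 * M x)
      ≤ ∫ x in z..b, (ρ x * p x - p y2 * ρ x) := by
    apply intervalIntegral.integral_mono_on_of_le_Ioo hzb
    · exact hMp2.sub (hM2.const_mul _)
    · exact hrp2.sub (hri2.const_mul _)
    · intro x hx
      have hxI : x ∈ Set.Icc a b := ⟨haz.trans hx.1.le, hx.2.le⟩
      have hyI : y2 ∈ Set.Icc a b := ⟨haz.trans hz2, h2b⟩
      rcases lt_trichotomy x y2 with h | h | h
      · have e1 := hmid x ⟨hx.1, h⟩
        have e2 := hp hxI hyI h.le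
        nlinarith [mul_nonneg (sub_nonneg.mpr e1) (sub_nonneg.mpr e2)]
      · rw [h]; nlinarith
      · have e1 := hr x ⟨h, hx.2⟩
        have e2 := hp hyI hxI h.le
        nlinarith [mul_nonneg (sub_nonneg.mpr e1) (sub_nonneg.mpr e2)]
  rw [intervalIntegral.integral_sub hMp2 (hM2.const_mul _),
    intervalIntegral.integral_sub hrp2 (hri2.const_mul _),
    intervalIntegral.integral_const_mul, intervalIntegral.integral_const_mul, hz] at hmain
  linarith

end
end Pool.H611.BS
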