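import Mathlib
import Pool.Agent.Helper611.BS.C1
import Pool.Agent.Helper611.BS.W1

set_option autoImplicit false

namespace Pool.H611.BS
open MeasureTheory
noncomputable section

/-- weighted mixed Chebyshev inequality -/
lemma mixed_chebyshev_w (a b : ℝ) (hab : a < b) (ρ : ℝ → ℝ) (hρ : Continuous ρ)
    (hρ0 : ∀ x, 0 ≤ ρ x) (hρ1 : ∫ x in a..b, ρ x = 1) (M : ℝ → ℝ)
    (hM : IntervalIntegrable M volume a b) (hM0 : ∀ x ∈ Set.Icc a b, 0 ≤ M x)
    (hM1 : ∫ x in a..b, M x = 1)
    (y1 z y2 : ℝ) (ha1 : a ≤ y1) (h1z : y1 ≤ z) (hz2 : z ≤ y2) (h2b : y2 ≤ b)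
    (hl : ∀ x ∈ Set.Ioo a y1, M x ≤ ρ x)
    (hmid : ∀ x ∈ Set.Ioo y1 y2, ρ x ≤ M x)
    (hr : ∀ x ∈ Set.Ioo y2 b, M x ≤ ρ x)
    (hz : ∫ x in a..z, M x = ∫ x in a..z, ρ x)
    (P Q : ℝ → ℝ) (hP : MonotoneOn P (Set.Icc a b)) (hQ : MonotoneOn Q (Set.Icc a b))
    (hPc : ContinuousOn P (Set.Icc a b)) (hQc : ContinuousOn Q (Set.Icc a b))
    (hP0 : ∫ x in a..b, M x * P x = 0) (hQ0 : ∫ x in a..b, M x * Q x = 0) :
    0 ≤ ∫ x in a..b, ρ x * (P x * Q x) := by
  have haz : a ≤ z := le_trans ha1 h1z
  have hzb : z ≤ b := le_trans hz2 h2b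
  have hzmem : z ∈ Set.Icc a b := ⟨haz, hzb⟩
  have hu : Set.uIcc a b = Set.Icc a b := Set.uIcc_of_le hab.le
  have hmin : ∀ x ∈ Set.Icc a b, min x z ∈ Set.Icc a b := fun x hx =>
    ⟨le_min hx.1 haz, le_trans (min_le_left _ _) hx.2⟩
  have hmax : ∀ x ∈ Set.Icc a b, max x z ∈ Set.Icc a b := fun x hx =>
    ⟨le_trans hx.1 (le_max_left _ _), max_le hx.2 hzb⟩
  have facts : ∀ R : ℝ → ℝ, MonotoneOn R (Set.Icc a b) → ContinuousOn R (Set.Icc a b) →
      (∫ x in a..b, M x * R x = 0) →
      ContinuousOn (fun x => R z - R (min x z)) (Set.Icc a b) ∧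
      ContinuousOn (fun x => R (max x z) - R z) (Set.Icc a b) ∧
      AntitoneOn (fun x => R z - R (min x z)) (Set.Icc a b) ∧
      MonotoneOn (fun x => R (max x z) - R z) (Set.Icc a b) ∧
      (0 ≤ ∫ x in a..b, M x * (R z - R (min x z))) ∧
      (∫ x in a..b, M x * (R z - R (min x z)) ≤ ∫ x in a..b, ρ x * (R z - R (min x z))) ∧
      (0 ≤ ∫ x in a..b, M x * (R (max x z) - R z)) ∧
      (∫ x in a..b, M x * (R (max x z) - R z) ≤ ∫ x in a..b, ρ x * (R (max x z) - R z)) ∧
      R z = (∫ x in a..b, M x * (R z - R (min x z))) - ∫ x in a..b, M x * (R (max x z) - R z) := by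
    intro R hR hRc hR0
    have c1 : ContinuousOn (fun x => R z - R (min x z)) (Set.Icc a b) := by
      apply ContinuousOn.sub continuousOn_const
      exact hRc.comp (by fun_prop) hmin
    have c2 : ContinuousOn (fun x => R (max x z) - R z) (Set.Icc a b) := by
      apply ContinuousOn.sub _ continuousOn_const
      exact hRc.comp (by fun_prop) hmax
    have m1 : AntitoneOn (fun x => R z - R (min x z)) (Set.Icc a b) := by
      intro x hx y hy hxy
      have := hR (hmin x hx) (hmin y hy) (min_le_min_right z hxy)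
      simp only; linarith
    have m2 : MonotoneOn (fun x => R (max x z) - R z) (Set.Icc a b) := by
      intro x hx y hy hxy
      have := hR (hmax x hx) (hmax y hy) (max_le_max_right z hxy)
      simp only; linarith
    have n1 : ∀ x ∈ Set.Icc a b, 0 ≤ R z - R (min x z) := fun x hx => by
      have := hR (hmin x hx) hzmem (min_le_right x z)
      linarith
    have n2 : ∀ x ∈ Set.Icc a b, 0 ≤ R (max x z) - R z := fun x hx => by
      have := hR hzmem (hmax x hx) (le_max_right x z)
      linarith
    have i1 : IntervalIntegrable (fun x => M x * (R z - R (min x z))) volume a b :=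
      hM.mul_continuousOn (by rwa [Set.uIcc_of_le hab.le])
    have i2 : IntervalIntegrable (fun x => M x * (R (max x z) - R z)) volume a b :=
      hM.mul_continuousOn (by rwa [Set.uIcc_of_le hab.le])
    have z2 : ∫ x in z..b, M x = ∫ x in z..b, ρ x := by
      have h1 : IntervalIntegrable M volume a z := hM.mono_set (by
        rw [Set.uIcc_of_le haz, Set.uIcc_of_le hab.le]; exact Set.Icc_subset_Icc_right hzb)
      have h2 : IntervalIntegrable M volume z b := hM.mono_set (by
        rw [Set.uIcc_of_le hzb, Set.uIcc_of_le hab.le]; exact Set.Icc_subset_Icc_left haz)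
      have h3 := intervalIntegral.integral_add_adjacent_intervals h1 h2
      have h4 := intervalIntegral.integral_add_adjacent_intervals
        (hρ.intervalIntegrable (μ := volume) a z) (hρ.intervalIntegrable z b)
      rw [hM1, hz] at h3
      rw [hρ1] at h4
      linarith
    refine ⟨c1, c2, m1, m2, ?_, ?_, ?_, ?_, ?_⟩
    · exact intervalIntegral.integral_nonneg hab.le (fun x hx => mul_nonneg (hM0 x hx) (n1 x hx))
    · exact w_compare_left a b hab ρ hρ M hM y1 z ha1 h1z hzb hl
        (fun x hx => hmid x ⟨hx.1, lt_of_lt_of_le hx.2 hz2⟩) hz _ m1 c1 (fun x hx => by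
          simp [min_eq_right hx.1])
    · exact intervalIntegral.integral_nonneg hab.le (fun x hx => mul_nonneg (hM0 x hx) (n2 x hx))
    · exact w_compare_right a b hab ρ hρ M hM z y2 haz hz2 h2b
        (fun x hx => hmid x ⟨lt_of_le_of_lt h1z hx.1, hx.2⟩) hr z2 _ m2 c2 (fun x hx => by
          simp [max_eq_right hx.2])
    · rw [← intervalIntegral.integral_sub i1 i2]
      have h5 : ∀ x, M x * (R z - R (min x z)) - M x * (R (max x z) - R z)
          = R z * M x - M x * R x := by
        intro x
        rcases le_total x z with h | h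
        · rw [min_eq_left h, max_eq_right h]; ring
        · rw [min_eq_right h, max_eq_left h]; ring
      simp_rw [h5]
      have i3 : IntervalIntegrable (fun x => R z * M x) volume a b := hM.const_mul _
      have i4 : IntervalIntegrable (fun x => M x * R x) volume a b :=
        hM.mul_continuousOn (by rwa [Set.uIcc_of_le hab.le])
      rw [intervalIntegral.integral_sub i3 i4, intervalIntegral.integral_const_mul, hM1, hR0]
      ring
  obtain ⟨pc1, pc2, pm1, pm2, p1, p2, p3, p4, p5⟩ := facts P hP hPc hP0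
  obtain ⟨qc1, qc2, qm1, qm2, q1, q2, q3, q4, q5⟩ := facts Q hQ hQc hQ0
  have chL := w_chebyshev a b hab ρ hρ hρ0 hρ1 (fun x => -(P z - P (min x z)))
    (fun x => -(Q z - Q (min x z)))
    (fun x hx y hy hxy => neg_le_neg (pm1 hx hy hxy)) (fun x hx y hy hxy => neg_le_neg (qm1 hx hy hxy))
    pc1.neg qc1.neg
  have chR := w_chebyshev a b hab ρ hρ hρ0 hρ1 (fun x => (P (max x z) - P z))
    (fun x => (Q (max x z) - Q z)) pm2 qm2 pc2 qc2
  simp only [mul_neg, intervalIntegral.integral_neg, neg_mul, neg_neg] at chL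
  have hρc : ContinuousOn ρ (Set.Icc a b) := hρ.continuousOn
  have expand : ∀ x, ρ x * (P x * Q x) = P z * Q z * ρ x + P z * (ρ x * (Q (max x z) - Q z))
      - P z * (ρ x * (Q z - Q (min x z)))
      + Q z * (ρ x * (P (max x z) - P z)) - Q z * (ρ x * (P z - P (min x z)))
      + ρ x * ((P z - P (min x z)) * (Q z - Q (min x z)))
      + ρ x * ((P (max x z) - P z) * (Q (max x z) - Q z)) := by
    intro x
    rcases le_total x z with h | h
    · rw [min_eq_left h, max_eq_right h]; ring
    · rw [min_eq_right h, max_eq_left h]; ring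
  have hint : ∫ x in a..b, ρ x * (P x * Q x) = (P z * Q z)
      + P z * (∫ x in a..b, ρ x * (Q (max x z) - Q z)) - P z * (∫ x in a..b, ρ x * (Q z - Q (min x z)))
      + Q z * (∫ x in a..b, ρ x * (P (max x z) - P z)) - Q z * (∫ x in a..b, ρ x * (P z - P (min x z)))
      + (∫ x in a..b, ρ x * ((P z - P (min x z)) * (Q z - Q (min x z))))
      + (∫ x in a..b, ρ x * ((P (max x z) - P z) * (Q (max x z) - Q z))) := by
    have e1 : IntervalIntegrable (fun x => P z * Q z * ρ x) volume a b :=
      (hρ.intervalIntegrable a b).const_mul _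
    have e2 : IntervalIntegrable (fun x => P z * (ρ x * (Q (max x z) - Q z))) volume a b :=
      (ContinuousOn.intervalIntegrable (by rw [hu]; exact hρc.mul qc2)).const_mul _
    have e3 : IntervalIntegrable (fun x => P z * (ρ x * (Q z - Q (min x z)))) volume a b :=
      (ContinuousOn.intervalIntegrable (by rw [hu]; exact hρc.mul qc1)).const_mul _
    have e4 : IntervalIntegrable (fun x => Q z * (ρ x * (P (max x z) - P z))) volume a b :=
      (ContinuousOn.intervalIntegrable (by rw [hu]; exact hρc.mul pc2)).const_mul _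
    have e5 : IntervalIntegrable (fun x => Q z * (ρ x * (P z - P (min x z)))) volume a b :=
      (ContinuousOn.intervalIntegrable (by rw [hu]; exact hρc.mul pc1)).const_mul _
    have iLL : IntervalIntegrable (fun x => ρ x * ((P z - P (min x z)) * (Q z - Q (min x z)))) volume a b :=
      ContinuousOn.intervalIntegrable (by rw [hu]; exact hρc.mul (pc1.mul qc1))
    have iRR : IntervalIntegrable (fun x => ρ x * ((P (max x z) - P z) * (Q (max x z) - Q z))) volume a b :=
      ContinuousOn.intervalIntegrable (by rw [hu]; exact hρc.mul (pc2.mul qc2))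
    rw [intervalIntegral.integral_congr (fun x _ => expand x)]
    rw [intervalIntegral.integral_add (((((e1.add e2).sub e3).add e4).sub e5).add iLL) iRR,
      intervalIntegral.integral_add ((((e1.add e2).sub e3).add e4).sub e5) iLL,
      intervalIntegral.integral_sub (((e1.add e2).sub e3).add e4) e5,
      intervalIntegral.integral_add ((e1.add e2).sub e3) e4,
      intervalIntegral.integral_sub (e1.add e2) e3,
      intervalIntegral.integral_add e1 e2]
    simp only [intervalIntegral.integral_const_mul, hρ1]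
    ring
  have ar := arith_core _ _ _ _ _ _ _ _ p1 p2 q1 q2 p3 p4 q3 q4
  rw [← p5, ← q5] at ar
  rw [hint]
  nlinarith [ar, chL, chR]

end
end Pool.H611.BS
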