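import Mathlib
import Pool.Agent.Helper611.BS.Def2
import Pool.Agent.Helper611.BS.Def3
import Pool.Agent.Helper611.BS.B1
import Pool.Agent.Helper611.BS.N3
import Pool.Agent.Helper611.BS.T1
import Pool.Agent.Helper611.BS.W2
import Pool.Agent.Helper611.BS.W3
import Pool.Agent.Helper611.BS.W4

set_option autoImplicit false

namespace Pool.H611.BS
open MeasureTheory
noncomputable section

/-- weighted inequality on the hull and outside -/
lemma weighted_all (a m b y : ℝ) (ha : -1 ≤ a) (ham : a < m) (hmb : m < b) (hb : b ≤ 1)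
    (hy : y ∈ Set.Ioo a b) (P Q : ℝ → ℝ) (hPc : Continuous P) (hQc : Continuous Q)
    (hP : MonotoneOn P (Set.Icc (-1 : ℝ) 1)) (hQ : MonotoneOn Q (Set.Icc (-1 : ℝ) 1))
    (hP1 : ∀ x ∈ Set.Icc b (1 : ℝ), 0 ≤ P x) (hP2 : ∀ x ∈ Set.Icc (-1 : ℝ) a, P x ≤ 0)
    (hQ1 : ∀ x ∈ Set.Icc b (1 : ℝ), 0 ≤ Q x) (hQ2 : ∀ x ∈ Set.Icc (-1 : ℝ) a, Q x ≤ 0)
    (hP0 : ∫ x in a..b, hat a m b x * P x = 0) (hQ0 : ∫ x in a..b, hat a m b x * Q x = 0) :
    0 ≤ ∫ x in (-1 : ℝ)..1, (x - y) ^ 2 * (P x * Q x) := by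
  have hab : a < b := ham.trans hmb
  have hsub : Set.Icc a b ⊆ Set.Icc (-1 : ℝ) 1 := Set.Icc_subset_Icc ha hb
  have hWpos : 0 < ∫ x in a..b, (x - y) ^ 2 := by
    rw [intervalIntegral.integral_comp_sub_right (fun x => x ^ 2), integral_pow]
    have h1 : 0 < b - y := by linarith [hy.2]
    have h2 : 0 < y - a := by linarith [hy.1]
    have h3 : (a - y) ^ (2 + 1) = -(y - a) ^ 3 := by ring
    rw [h3]
    have h4 : 0 < (b - y) ^ (2 + 1) := by positivity
    have h5 : 0 < (y - a) ^ 3 := by positivity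
    have : 0 < (b - y) ^ (2 + 1) - -(y - a) ^ 3 := by linarith
    positivity
  set W := ∫ x in a..b, (x - y) ^ 2 with hW
  set κ := 1 / W with hκ
  have hκ0 : 0 < κ := by positivity
  set C := 2 / (b - a) with hC
  have hba : 0 < b - a := by linarith
  have hC0 : 0 < C := by positivity
  have hhat : Continuous (fun x => hat a m b x) := by
    unfold hat
    fun_prop
  have hhat0 : ∀ x ∈ Set.Icc a b, 0 ≤ hat a m b x := by
    intro x hx
    unfold hat
    apply le_min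
    · exact div_nonneg (by linarith [hx.1]) (by linarith)
    · exact div_nonneg (by linarith [hx.2]) (by linarith)
  have hM1 : ∫ x in a..b, C * hat a m b x = 1 := by
    rw [intervalIntegral.integral_const_mul, hat_integral a m b ham hmb, hC]
    field_simp
  have hρ1 : ∫ x in a..b, κ * (x - y) ^ 2 = 1 := by
    rw [intervalIntegral.integral_const_mul]
    show κ * W = 1
    rw [hκ]
    exact one_div_mul_cancel hWpos.ne'
  obtain ⟨y1, z, y2, r1, r2, r3, r4, r5, r6, r7, r8⟩ := hat_levels a m b y ham hmb hy C κ hC0 hκ0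
    (by rw [hM1, hρ1])
  have e0 : ∀ R : ℝ → ℝ, (∫ x in a..b, hat a m b x * R x = 0) →
      ∫ x in a..b, (C * hat a m b x) * R x = 0 := by
    intro R hR
    simp_rw [mul_assoc]
    rw [intervalIntegral.integral_const_mul, hR, mul_zero]
  have hin := mixed_chebyshev_w a b hab (fun x => κ * (x - y) ^ 2) (by fun_prop)
    (fun x => by positivity) hρ1 (fun x => C * hat a m b x)
    ((hhat.const_mul C).intervalIntegrable _ _)
    (fun x hx => mul_nonneg hC0.le (hhat0 x hx)) hM1 y1 z y2 r1 r2 r3 r4 r5 r6 r7 r8 P Q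
    (hP.mono hsub) (hQ.mono hsub) hPc.continuousOn hQc.continuousOn (e0 P hP0) (e0 Q hQ0)
  have hin2 : 0 ≤ ∫ x in a..b, (x - y) ^ 2 * (P x * Q x) := by
    have e1 : ∀ x, κ * (x - y) ^ 2 * (P x * Q x) = κ * ((x - y) ^ 2 * (P x * Q x)) := fun x => by ring
    simp_rw [e1] at hin
    rw [intervalIntegral.integral_const_mul] at hin
    by_contra hcon
    push Not at hcon
    have := mul_neg_of_pos_of_neg hκ0 hcon
    linarith
  have cc : Continuous (fun x => (x - y) ^ 2 * (P x * Q x)) := by fun_prop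
  have s1 := intervalIntegral.integral_add_adjacent_intervals (cc.intervalIntegrable (μ := volume) (-1) a)
    (cc.intervalIntegrable a b)
  have s2 := intervalIntegral.integral_add_adjacent_intervals (cc.intervalIntegrable (μ := volume) (-1) b)
    (cc.intervalIntegrable b 1)
  have t1 : 0 ≤ ∫ x in (-1 : ℝ)..a, (x - y) ^ 2 * (P x * Q x) :=
    intervalIntegral.integral_nonneg ha (fun s hs =>
      mul_nonneg (sq_nonneg _) (mul_nonneg_of_nonpos_of_nonpos (hP2 s hs) (hQ2 s hs)))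
  have t2 : 0 ≤ ∫ x in b..1, (x - y) ^ 2 * (P x * Q x) :=
    intervalIntegral.integral_nonneg hb (fun s hs =>
      mul_nonneg (sq_nonneg _) (mul_nonneg (hP1 s hs) (hQ1 s hs)))
  rw [← s2, ← s1]
  linarith

theorem partE (x : Fin 4 → ℝ) (hx : Function.Injective x)
    (hx1 : ∀ i, x i ∈ Set.Icc (-1 : ℝ) 1) (f : ℝ → ℝ)
    (hf : ContDiff ℝ ((3 : ℕ) : WithTop ℕ∞) f)
    (hlip : LipschitzOnWith 1 (iteratedDeriv 3 f) (Set.Icc (-1 : ℝ) 1))
    (h0 : ∀ i, f (x i) = 0) :
    ∫ s in (-1 : ℝ)..1, (iteratedDeriv 2 f s) ^ 2 ≤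
      ∫ s in (-1 : ℝ)..1,
        (iteratedDeriv 2 (fun y => (∏ i, (y - x i)) / ((4 : ℕ).factorial : ℝ)) s) ^ 2 := by
  set ω : ℝ → ℝ := fun y => (∏ i, (y - x i)) / ((4 : ℕ).factorial : ℝ) with hω
  have hωc : ContDiff ℝ ((3 : ℕ) : WithTop ℕ∞) ω := by
    rw [hω]
    apply ContDiff.div_const
    apply contDiff_prod
    intro i _
    fun_prop
  have hω0 : ∀ i, ω (x i) = 0 := by
    intro i
    simp only [hω]
    rw [Finset.prod_eq_zero (Finset.mem_univ i) (sub_self _), zero_div]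
  have hωd : ∀ y, iteratedDeriv (2 + 1) ω y = y - (∑ i, x i) / ((2 : ℕ) + 2) := fun y =>
    omega_deriv 2 x y
  have hfl : ∀ u ∈ Set.Icc (-1 : ℝ) 1, ∀ v ∈ Set.Icc (-1 : ℝ) 1,
      |iteratedDeriv (2 + 1) f u - iteratedDeriv (2 + 1) f v| ≤ |u - v| := by
    intro u hu v hv
    have := hlip.dist_le_mul u hu v hv
    simpa [Real.dist_eq] using this
  have monP : Mon (2 + 1) (fun s => ω s - f s) := by
    refine ⟨hωc.sub hf, ?_⟩
    intro u hu v hv huv
    have e : ∀ s, iteratedDeriv (2 + 1) (fun s => ω s - f s) s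
        = iteratedDeriv (2 + 1) ω s - iteratedDeriv (2 + 1) f s := fun s =>
      iteratedDeriv_fun_sub hωc.contDiffAt hf.contDiffAt
    rw [e, e, hωd, hωd]
    have := hfl u hu v hv
    rw [abs_of_nonpos (show u - v ≤ 0 by linarith)] at this
    have h3 := abs_le.mp this
    linarith [h3.1, h3.2]
  have monQ : Mon (2 + 1) (fun s => ω s + f s) := by
    refine ⟨hωc.add hf, ?_⟩
    intro u hu v hv huv
    have e : ∀ s, iteratedDeriv (2 + 1) (fun s => ω s + f s) s
        = iteratedDeriv (2 + 1) ω s + iteratedDeriv (2 + 1) f s := fun s =>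
      iteratedDeriv_fun_add hωc.contDiffAt hf.contDiffAt
    rw [e, e, hωd, hωd]
    have := hfl u hu v hv
    rw [abs_of_nonpos (show u - v ≤ 0 by linarith)] at this
    have h3 := abs_le.mp this
    linarith [h3.1, h3.2]
  obtain ⟨σ, hσ⟩ : ∃ σ : Equiv.Perm (Fin 4), StrictMono (x ∘ σ) := by
    refine ⟨Tuple.sort x, (Tuple.monotone_sort x).strictMono_of_injective ?_⟩
    exact hx.comp (Tuple.sort x).injective
  have h01 : x (σ 0) < x (σ 1) := hσ (by decide)
  have h12 : x (σ 1) < x (σ 2) := hσ (by decide)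
  have h23 : x (σ 2) < x (σ 3) := hσ (by decide)
  obtain ⟨U, hU, hPU⟩ := mon_div 2 _ monP (x (σ 1)) (hx1 _) (by simp [hω0, h0])
  obtain ⟨V, hV, hQV⟩ := mon_div 2 _ monQ (x (σ 1)) (hx1 _) (by simp [hω0, h0])
  have zU : ∀ i, x i ≠ x (σ 1) → U (x i) = 0 := by
    intro i hi
    have := hPU (x i)
    simp only [hω0, h0, sub_self] at this
    rcases mul_eq_zero.mp this.symm with h | h
    · exact absurd (sub_eq_zero.mp h) hi
    · exact h
  have zV : ∀ i, x i ≠ x (σ 1) → V (x i) = 0 := by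
    intro i hi
    have := hQV (x i)
    simp only [hω0, h0, add_zero] at this
    rcases mul_eq_zero.mp this.symm with h | h
    · exact absurd (sub_eq_zero.mp h) hi
    · exact h
  have e2 : ∀ R : ℝ → ℝ, iteratedDeriv 2 R = deriv (deriv R) := fun R => by
    rw [iteratedDeriv_succ, iteratedDeriv_one]
  have hUc : ContDiff ℝ 2 U := hU.1
  have hVc : ContDiff ℝ 2 V := hV.1
  have hUm : MonotoneOn (deriv (deriv U)) (Set.Icc (-1 : ℝ) 1) := by
    have := hU.2; rwa [e2] at this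
  have hVm : MonotoneOn (deriv (deriv V)) (Set.Icc (-1 : ℝ) 1) := by
    have := hV.2; rwa [e2] at this
  obtain ⟨u1, u2, u3, u4, u5, u6, u7, u8⟩ := three_zero_facts (x (σ 0)) (x (σ 2)) (x (σ 3))
    (hx1 _).1 (h01.trans h12) h23 (hx1 _).2 U hUc hUm (zU _ h01.ne) (zU _ h12.ne') (zU _ (h12.trans h23).ne')
  obtain ⟨v1, v2, v3, v4, v5, v6, v7, v8⟩ := three_zero_facts (x (σ 0)) (x (σ 2)) (x (σ 3))
    (hx1 _).1 (h01.trans h12) h23 (hx1 _).2 V hVc hVm (zV _ h01.ne) (zV _ h12.ne') (zV _ (h12.trans h23).ne')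
  have hdU : ContDiff ℝ 1 (deriv U) := by
    have : ContDiff ℝ (1 + 1) U := by norm_num; exact hUc
    exact (contDiff_succ_iff_deriv.mp this).2.2
  have hdV : ContDiff ℝ 1 (deriv V) := by
    have : ContDiff ℝ (1 + 1) V := by norm_num; exact hVc
    exact (contDiff_succ_iff_deriv.mp this).2.2
  have A := weighted_all (x (σ 0)) (x (σ 2)) (x (σ 3)) (x (σ 1)) (hx1 _).1 (h01.trans h12) h23
    (hx1 _).2 ⟨h01, h12.trans h23⟩ (deriv (deriv U)) (deriv (deriv V))
    (hdU.continuous_deriv (by norm_num)) (hdV.continuous_deriv (by norm_num)) hUm hVm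
    u3 u4 v3 v4 u5 v5
  have B := convex_pair (x (σ 0)) (x (σ 2)) (x (σ 3)) (hx1 _).1 (h01.trans h12) h23 (hx1 _).2
    (deriv U) (deriv V) u6 v6 hdU.continuous hdV.continuous u7 u8 v7 v8
  have E := expand_two (x (σ 1)) U V hUc hVc
  have eP : (fun s : ℝ => (s - x (σ 1)) * U s) = fun s => ω s - f s := by
    funext s; exact (hPU s).symm
  have eQ : (fun s : ℝ => (s - x (σ 1)) * V s) = fun s => ω s + f s := by
    funext s; exact (hQV s).symm
  rw [eP, eQ] at E
  have hy1 := (hx1 (σ 1)).1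
  have hy2 := (hx1 (σ 1)).2
  have G : 0 ≤ ∫ s in (-1 : ℝ)..1, iteratedDeriv 2 (fun s => ω s - f s) s *
      iteratedDeriv 2 (fun s => ω s + f s) s := by
    rw [E]
    have b1 : 0 ≤ (1 - x (σ 1)) * (deriv U 1 * deriv V 1) :=
      mul_nonneg (by linarith) (mul_nonneg u1 v1)
    have b2 : 0 ≤ (1 + x (σ 1)) * (deriv U (-1) * deriv V (-1)) :=
      mul_nonneg (by linarith) (mul_nonneg u2 v2)
    linarith
  have htwo : ((2 : ℕ) : WithTop ℕ∞) ≤ ((3 : ℕ) : WithTop ℕ∞) := by norm_num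
  have hf2 : ContDiff ℝ ((2 : ℕ) : WithTop ℕ∞) f := hf.of_le htwo
  have hω2 : ContDiff ℝ ((2 : ℕ) : WithTop ℕ∞) ω := hωc.of_le htwo
  have e : ∀ s, iteratedDeriv 2 (fun s => ω s - f s) s * iteratedDeriv 2 (fun s => ω s + f s) s
      = (iteratedDeriv 2 ω s) ^ 2 - (iteratedDeriv 2 f s) ^ 2 := fun s => by
    rw [iteratedDeriv_fun_sub hω2.contDiffAt hf2.contDiffAt,
      iteratedDeriv_fun_add hω2.contDiffAt hf2.contDiffAt]
    ring
  simp_rw [e] at G
  have k1 : IntervalIntegrable (fun s => (iteratedDeriv 2 ω s) ^ 2) volume (-1) 1 :=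
    ((hω2.continuous_iteratedDeriv 2 le_rfl).pow 2).intervalIntegrable _ _
  have k2 : IntervalIntegrable (fun s => (iteratedDeriv 2 f s) ^ 2) volume (-1) 1 :=
    ((hf2.continuous_iteratedDeriv 2 le_rfl).pow 2).intervalIntegrable _ _
  rw [intervalIntegral.integral_sub k1 k2] at G
  linarith

end
end Pool.H611.BS
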